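import Pool.Agent.Lib.MP_f7203b_co.Defs

/-!
A pentagon with a fan triangulation from the vertex `v 0` is a planar polygon.
-/

namespace Pool.Agent.MPf7203b

open Topology

/-! ### triangles by barycentric coordinates -/

theorem mem_convexHull_triple {E : Type*} [AddCommGroup E] [Module ℝ E] {a b c x : E} :
    x ∈ convexHull ℝ {a, b, c} ↔ ∃ α β γ : ℝ, 0 ≤ α ∧ 0 ≤ β ∧ 0 ≤ γ ∧ α + β + γ = 1 ∧
      x = α • a + β • b + γ • c := by
  constructor
  · intro hx
    have hconv : Convex ℝ {x : E | ∃ α β γ : ℝ, 0 ≤ α ∧ 0 ≤ β ∧ 0 ≤ γ ∧ α + β + γ = 1 ∧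
        x = α • a + β • b + γ • c} := by
      rintro y ⟨α, β, γ, h1, h2, h3, h4, rfl⟩ z ⟨α', β', γ', h1', h2', h3', h4', rfl⟩ s t hs ht hst
      refine ⟨s * α + t * α', s * β + t * β', s * γ + t * γ', by positivity, by positivity,
        by positivity, ?_, ?_⟩
      · calc s * α + t * α' + (s * β + t * β') + (s * γ + t * γ')
            = s * (α + β + γ) + t * (α' + β' + γ') := by ring
          _ = 1 := by rw [h4, h4', mul_one, mul_one, hst]
      · module
    have hsub : ({a, b, c} : Set E) ⊆ {x : E | ∃ α β γ : ℝ, 0 ≤ α ∧ 0 ≤ β ∧ 0 ≤ γ ∧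
        α + β + γ = 1 ∧ x = α • a + β • b + γ • c} := by
      rintro y (rfl | rfl | rfl)
      · exact ⟨1, 0, 0, by norm_num, by norm_num, by norm_num, by norm_num, by simp⟩
      · exact ⟨0, 1, 0, by norm_num, by norm_num, by norm_num, by norm_num, by simp⟩
      · exact ⟨0, 0, 1, by norm_num, by norm_num, by norm_num, by norm_num, by simp⟩
    exact convexHull_min hsub hconv hx
  · rintro ⟨α, β, γ, h1, h2, h3, h4, rfl⟩
    have hc := convex_convexHull ℝ ({a, b, c} : Set E)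
    have ha : a ∈ convexHull ℝ ({a, b, c} : Set E) := subset_convexHull ℝ _ (by simp)
    have hb : b ∈ convexHull ℝ ({a, b, c} : Set E) := subset_convexHull ℝ _ (by simp)
    have hcc : c ∈ convexHull ℝ ({a, b, c} : Set E) := subset_convexHull ℝ _ (by simp)
    rcases eq_or_lt_of_le (add_nonneg h1 h2) with h0 | h0
    · have hα : α = 0 := by linarith
      have hβ : β = 0 := by linarith
      have hγ : γ = 1 := by linarith
      rw [hα, hβ, hγ]
      simpa using hcc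
    · have hy : (α / (α + β)) • a + (β / (α + β)) • b ∈ convexHull ℝ ({a, b, c} : Set E) :=
        hc ha hb (by positivity) (by positivity) (by field_simp)
      have := hc hy hcc h0.le h3 h4
      convert this using 1
      rw [smul_add, smul_smul, smul_smul, mul_div_cancel₀ _ h0.ne', mul_div_cancel₀ _ h0.ne']

theorem mem_segment_iff' {E : Type*} [AddCommGroup E] [Module ℝ E] {a b x : E} :
    x ∈ segment ℝ a b ↔ ∃ α β : ℝ, 0 ≤ α ∧ 0 ≤ β ∧ α + β = 1 ∧ x = α • a + β • b := by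
  constructor
  · rintro ⟨α, β, h1, h2, h3, rfl⟩
    exact ⟨α, β, h1, h2, h3, rfl⟩
  · rintro ⟨α, β, h1, h2, h3, rfl⟩
    exact ⟨α, β, h1, h2, h3, rfl⟩

/-! ### an affine parametrisation of a plane -/

theorem affine_isEmbedding (Φ : ℝ × ℝ →ᵃ[ℝ] E3) (hΦ : Function.Injective Φ) :
    IsEmbedding Φ := by
  have h1 : Function.Injective Φ.linear := (AffineMap.linear_injective_iff Φ).2 hΦ
  have h2 : IsClosedEmbedding Φ.linear := LinearMap.isClosedEmbedding_of_injective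
    (LinearMap.ker_eq_bot.2 h1)
  have h3 : (Φ : ℝ × ℝ → E3) = (Homeomorph.addRight (Φ 0)) ∘ Φ.linear := by
    funext x
    have := Φ.map_vadd 0 x
    simp only [vadd_eq_add, add_zero] at this
    rw [this]
    rfl
  rw [h3]
  exact (Homeomorph.addRight (Φ 0)).isEmbedding.comp h2.isEmbedding

theorem intrinsicInterior_param (Φ : ℝ × ℝ →ᵃ[ℝ] E3) (hΦ : Function.Injective Φ)
    (R : Set (ℝ × ℝ)) (hR : (interior R).Nonempty) :
    intrinsicInterior ℝ (Φ '' R) = Φ '' interior R := by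
  have hspan : (affineSpan ℝ (Φ '' R) : Set E3) = Set.range Φ := by
    rw [← AffineSubspace.map_span, AffineSubspace.coe_map,
      affineSpan_eq_top_of_nonempty_interior
        (hR.mono (interior_mono (subset_convexHull ℝ R)))]
    simp
  have hemb := affine_isEmbedding Φ hΦ
  ext x
  rw [mem_intrinsicInterior]
  constructor
  · rintro ⟨y, hy, rfl⟩
    have hy1 : (y : E3) ∈ Set.range Φ := by
      rw [← hspan]
      exact y.2
    obtain ⟨q, hq⟩ := hy1
    refine ⟨q, ?_, hq⟩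
    rw [mem_interior_iff_mem_nhds] at hy ⊢
    rw [nhds_subtype_eq_comap, Filter.mem_comap] at hy
    obtain ⟨t, ht, hts⟩ := hy
    have h1 : Φ '' R ∈ 𝓝[Set.range Φ] (Φ q) := by
      rw [mem_nhdsWithin_iff_exists_mem_nhds_inter]
      refine ⟨t, by rw [hq]; exact ht, ?_⟩
      rintro z ⟨hz1, hz2⟩
      rw [← hspan] at hz2
      exact hts (show (⟨z, hz2⟩ : affineSpan ℝ (Φ '' R)) ∈ Subtype.val ⁻¹' t from hz1)
    rw [← hemb.toIsInducing.map_nhds_eq, Filter.mem_map, Set.preimage_image_eq _ hΦ] at h1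
    exact h1
  · rintro ⟨q, hq, rfl⟩
    have hmem : Φ q ∈ affineSpan ℝ (Φ '' R) := by
      rw [← SetLike.mem_coe, hspan]
      exact ⟨q, rfl⟩
    refine ⟨⟨Φ q, hmem⟩, ?_, rfl⟩
    rw [mem_interior_iff_mem_nhds] at hq ⊢
    have h1 : Φ '' R ∈ 𝓝[Set.range Φ] (Φ q) := by
      rw [← hemb.toIsInducing.map_nhds_eq, Filter.mem_map, Set.preimage_image_eq _ hΦ]
      exact hq
    rw [mem_nhdsWithin_iff_exists_mem_nhds_inter] at h1
    obtain ⟨t, ht, hts⟩ := h1
    rw [nhds_subtype_eq_comap, Filter.mem_comap]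
    refine ⟨t, ht, ?_⟩
    intro z hz
    apply hts
    refine ⟨hz, ?_⟩
    rw [← hspan]
    exact z.2

theorem intrinsicFrontier_param (Φ : ℝ × ℝ →ᵃ[ℝ] E3) (hΦ : Function.Injective Φ)
    (R : Set (ℝ × ℝ)) (hR : (interior R).Nonempty) (hc : IsCompact R) :
    intrinsicFrontier ℝ (Φ '' R) = Φ '' (R \ interior R) := by
  have hemb := affine_isEmbedding Φ hΦ
  rw [← closure_sdiff_intrinsicInterior, (hc.image hemb.continuous).isClosed.closure_eq,
    intrinsicInterior_param Φ hΦ R hR, Set.image_sdiff hΦ]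

/-! ### the planar problem in coordinates -/

/-- points of an edge are not interior -/
theorem notMem_interior_of_edge {S T : Set (ℝ × ℝ)} (hT : IsClosed T) {p q : ℝ × ℝ}
    (hdis : ∀ y ∈ openSegment ℝ p q, y ∉ T) (A B C : ℝ) (hAB : 0 < A * A + B * B)
    (hS : ∀ y ∈ S, 0 ≤ A * y.1 + B * y.2 + C)
    (hp : A * p.1 + B * p.2 + C = 0) (hq : A * q.1 + B * q.2 + C = 0) :
    ∀ x ∈ segment ℝ p q, x ∉ interior (S ∪ T) := by
  intro x hx hxi
  have h1 := segment_subset_closure_openSegment hx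
  obtain ⟨y, hyi, hy⟩ := mem_closure_iff.1 h1 _ isOpen_interior hxi
  have hyT : y ∉ T := hdis y hy
  have hopen : IsOpen (interior (S ∪ T) ∩ Tᶜ) := isOpen_interior.inter hT.isOpen_compl
  have hcont : Continuous (fun ε : ℝ => ((y.1 - ε * A, y.2 - ε * B) : ℝ × ℝ)) := by fun_prop
  have h0 : (fun ε : ℝ => ((y.1 - ε * A, y.2 - ε * B) : ℝ × ℝ)) 0 ∈ interior (S ∪ T) ∩ Tᶜ := by
    have : (fun ε : ℝ => ((y.1 - ε * A, y.2 - ε * B) : ℝ × ℝ)) 0 = y := by
      ext <;> simp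
    rw [this]
    exact ⟨hyi, hyT⟩
  have h2 := hcont.continuousAt.preimage_mem_nhds (hopen.mem_nhds h0)
  rw [Metric.mem_nhds_iff] at h2
  obtain ⟨ε, hε, hball⟩ := h2
  have h3 : ε / 2 ∈ Metric.ball (0 : ℝ) ε := by
    rw [Metric.mem_ball, Real.dist_eq, sub_zero, abs_of_pos (by positivity)]
    linarith
  have h4 := hball h3
  have h5 : ((y.1 - ε / 2 * A, y.2 - ε / 2 * B) : ℝ × ℝ) ∈ S := by
    rcases interior_subset h4.1 with h | h
    · exact h
    · exact absurd h h4.2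
  have h6 := hS _ h5
  obtain ⟨α, β, hα, hβ, hαβ, rfl⟩ := hy
  simp only [Prod.fst_add, Prod.snd_add, Prod.smul_fst, Prod.smul_snd, smul_eq_mul] at h6
  have h7 : A * (α * p.1 + β * q.1) + B * (α * p.2 + β * q.2) + C = 0 := by
    have : A * (α * p.1 + β * q.1) + B * (α * p.2 + β * q.2) + C =
        α * (A * p.1 + B * p.2 + C) + β * (A * q.1 + B * q.2 + C) + (1 - (α + β)) * C := by ring
    rw [this, hp, hq, hαβ]
    ring
  nlinarith [mul_pos hε hAB]

theorem mem_T1 {b1 c1 : ℝ} (hc1 : c1 < 0) (x : ℝ × ℝ) :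
    x ∈ convexHull ℝ {((0, 0) : ℝ × ℝ), (b1, c1), (1, 0)} ↔
      x.2 ≤ 0 ∧ 0 ≤ x.1 - x.2 / c1 * b1 ∧ x.2 / c1 + (x.1 - x.2 / c1 * b1) ≤ 1 := by
  rw [mem_convexHull_triple]
  constructor
  · rintro ⟨α, β, γ, h1, h2, h3, h4, rfl⟩
    have e : (α • ((0, 0) : ℝ × ℝ) + β • (b1, c1) + γ • ((1, 0) : ℝ × ℝ)) =
        (β * b1 + γ, β * c1) := by
      ext <;> simp
    rw [e]
    have e2 : β * c1 / c1 = β := mul_div_cancel_right₀ β hc1.ne
    simp only
    rw [e2]
    refine ⟨by nlinarith, by linarith, by linarith⟩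
  · rintro ⟨h1, h2, h3⟩
    refine ⟨1 - (x.2 / c1 + (x.1 - x.2 / c1 * b1)), x.2 / c1, x.1 - x.2 / c1 * b1, by linarith,
      div_nonneg_of_nonpos h1 hc1.le, h2, by ring, ?_⟩
    ext
    · simp
    · simp [hc1.ne]

theorem mem_T2 (x : ℝ × ℝ) :
    x ∈ convexHull ℝ {((0, 0) : ℝ × ℝ), (1, 0), (0, 1)} ↔
      0 ≤ x.1 ∧ 0 ≤ x.2 ∧ x.1 + x.2 ≤ 1 := by
  rw [mem_convexHull_triple]
  constructor
  · rintro ⟨α, β, γ, h1, h2, h3, h4, rfl⟩
    have e : (α • ((0, 0) : ℝ × ℝ) + β • ((1, 0) : ℝ × ℝ) + γ • ((0, 1) : ℝ × ℝ)) = (β, γ) := by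
      ext <;> simp
    rw [e]
    exact ⟨h2, h3, by simp only; linarith⟩
  · rintro ⟨h1, h2, h3⟩
    refine ⟨1 - (x.1 + x.2), x.1, x.2, by linarith, h1, h2, by ring, ?_⟩
    ext <;> simp

theorem mem_T3 {b4 c4 : ℝ} (hb4 : b4 < 0) (x : ℝ × ℝ) :
    x ∈ convexHull ℝ {((0, 0) : ℝ × ℝ), (0, 1), (b4, c4)} ↔
      x.1 ≤ 0 ∧ 0 ≤ x.2 - x.1 / b4 * c4 ∧ x.1 / b4 + (x.2 - x.1 / b4 * c4) ≤ 1 := by
  rw [mem_convexHull_triple]
  constructor
  · rintro ⟨α, γ, β, h1, h3, h2, h4, rfl⟩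
    have e : (α • ((0, 0) : ℝ × ℝ) + γ • ((0, 1) : ℝ × ℝ) + β • (b4, c4)) =
        (β * b4, β * c4 + γ) := by
      ext
      · simp
      · simp [add_comm]
    rw [e]
    have e2 : β * b4 / b4 = β := mul_div_cancel_right₀ β hb4.ne
    simp only
    rw [e2]
    refine ⟨by nlinarith, by linarith, by linarith⟩
  · rintro ⟨h1, h2, h3⟩
    refine ⟨1 - (x.1 / b4 + (x.2 - x.1 / b4 * c4)), x.2 - x.1 / b4 * c4, x.1 / b4, by linarith,
      h2, div_nonneg_of_nonpos h1 hb4.le, by ring, ?_⟩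
    ext
    · simp [hb4.ne]
    · simp

theorem isCompact_T {E : Type*} [AddCommGroup E] [Module ℝ E] [TopologicalSpace E]
    [IsTopologicalAddGroup E] [ContinuousSMul ℝ E] (a b c : E) :
    IsCompact (convexHull ℝ {a, b, c}) := by
  apply Set.Finite.isCompact_convexHull
  simp

/-- the planar statement -/
theorem planar_frontier {b1 c1 b4 c4 s t : ℝ} (hc1 : c1 < 0) (hb4 : b4 < 0) (hs : 0 < s)
    (ht : 0 < t) (h1 : t * c1 - s * b1 < 0) (h4 : 0 < t * c4 - s * b4) :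
    let R : Set (ℝ × ℝ) := convexHull ℝ {((0, 0) : ℝ × ℝ), (b1, c1), (1, 0)} ∪
      convexHull ℝ {((0, 0) : ℝ × ℝ), (1, 0), (0, 1)} ∪
      convexHull ℝ {((0, 0) : ℝ × ℝ), (0, 1), (b4, c4)}
    (interior R).Nonempty ∧
    R \ interior R = segment ℝ (0, 0) (b1, c1) ∪ segment ℝ (b1, c1) (1, 0) ∪
      segment ℝ (1, 0) (0, 1) ∪ segment ℝ (0, 1) (b4, c4) ∪ segment ℝ (b4, c4) (0, 0) := by
  intro R
  set T1 : Set (ℝ × ℝ) := convexHull ℝ {((0, 0) : ℝ × ℝ), (b1, c1), (1, 0)} with hT1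
  set T2 : Set (ℝ × ℝ) := convexHull ℝ {((0, 0) : ℝ × ℝ), (1, 0), (0, 1)} with hT2
  set T3 : Set (ℝ × ℝ) := convexHull ℝ {((0, 0) : ℝ × ℝ), (0, 1), (b4, c4)} with hT3
  have m1 : ∀ x : ℝ × ℝ, x ∈ T1 ↔ x.2 ≤ 0 ∧ 0 ≤ x.1 - x.2 / c1 * b1 ∧
      x.2 / c1 + (x.1 - x.2 / c1 * b1) ≤ 1 := mem_T1 hc1
  have m2 : ∀ x : ℝ × ℝ, x ∈ T2 ↔ 0 ≤ x.1 ∧ 0 ≤ x.2 ∧ x.1 + x.2 ≤ 1 := mem_T2
  have m3 : ∀ x : ℝ × ℝ, x ∈ T3 ↔ x.1 ≤ 0 ∧ 0 ≤ x.2 - x.1 / b4 * c4 ∧
      x.1 / b4 + (x.2 - x.1 / b4 * c4) ≤ 1 := mem_T3 hb4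
  have c1' : IsClosed T1 := (isCompact_T _ _ _).isClosed
  have c2' : IsClosed T2 := (isCompact_T _ _ _).isClosed
  have c3' : IsClosed T3 := (isCompact_T _ _ _).isClosed
  -- the functional `h = t c - s b`
  have n1 : ∀ x ∈ T1, t * x.2 - s * x.1 ≤ 0 := by
    intro x hx
    rw [hT1, mem_convexHull_triple] at hx
    obtain ⟨α, β, γ, k1, k2, k3, k4, rfl⟩ := hx
    simp only [Prod.fst_add, Prod.snd_add, Prod.smul_fst, Prod.smul_snd, smul_eq_mul]
    nlinarith [mul_nonneg k2 (neg_nonneg.2 h1.le), mul_nonneg k3 hs.le]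
  have n3 : ∀ x ∈ T3, 0 ≤ t * x.2 - s * x.1 := by
    intro x hx
    rw [hT3, mem_convexHull_triple] at hx
    obtain ⟨α, β, γ, k1, k2, k3, k4, rfl⟩ := hx
    simp only [Prod.fst_add, Prod.snd_add, Prod.smul_fst, Prod.smul_snd, smul_eq_mul]
    nlinarith [mul_nonneg k3 h4.le, mul_nonneg k2 ht.le]
  have hc1' := hc1.ne
  have hb4' := hb4.ne
  -- open subsets of `R`
  have o2 : IsOpen {x : ℝ × ℝ | 0 < x.1 ∧ 0 < x.2 ∧ x.1 + x.2 < 1} := by
    refine IsOpen.and ?_ (IsOpen.and ?_ ?_) <;> exact isOpen_lt (by fun_prop) (by fun_prop)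
  have o1 : IsOpen {x : ℝ × ℝ | x.2 < 0 ∧ 0 < x.1 - x.2 / c1 * b1 ∧
      x.2 / c1 + (x.1 - x.2 / c1 * b1) < 1} := by
    refine IsOpen.and ?_ (IsOpen.and ?_ ?_) <;> exact isOpen_lt (by fun_prop) (by fun_prop)
  have o3 : IsOpen {x : ℝ × ℝ | x.1 < 0 ∧ 0 < x.2 - x.1 / b4 * c4 ∧
      x.1 / b4 + (x.2 - x.1 / b4 * c4) < 1} := by
    refine IsOpen.and ?_ (IsOpen.and ?_ ?_) <;> exact isOpen_lt (by fun_prop) (by fun_prop)
  have o12 : IsOpen {x : ℝ × ℝ | 0 < x.1 - x.2 / c1 * b1 ∧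
      x.2 / c1 + (x.1 - x.2 / c1 * b1) < 1 ∧ 0 < x.1 ∧ x.1 + x.2 < 1} := by
    refine IsOpen.and ?_ (IsOpen.and ?_ (IsOpen.and ?_ ?_)) <;>
      exact isOpen_lt (by fun_prop) (by fun_prop)
  have o23 : IsOpen {x : ℝ × ℝ | 0 < x.2 - x.1 / b4 * c4 ∧
      x.1 / b4 + (x.2 - x.1 / b4 * c4) < 1 ∧ 0 < x.2 ∧ x.1 + x.2 < 1} := by
    refine IsOpen.and ?_ (IsOpen.and ?_ (IsOpen.and ?_ ?_)) <;>
      exact isOpen_lt (by fun_prop) (by fun_prop)
  have i1 : ∀ x : ℝ × ℝ, x.2 < 0 → 0 < x.1 - x.2 / c1 * b1 →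
      x.2 / c1 + (x.1 - x.2 / c1 * b1) < 1 → x ∈ interior R := by
    intro x k1 k2 k3
    refine mem_interior.2 ⟨_, ?_, o1, k1, k2, k3⟩
    rintro y ⟨l1, l2, l3⟩
    exact Or.inl (Or.inl ((m1 y).2 ⟨l1.le, l2.le, l3.le⟩))
  have i2 : ∀ x : ℝ × ℝ, 0 < x.1 → 0 < x.2 → x.1 + x.2 < 1 → x ∈ interior R := by
    intro x k1 k2 k3
    refine mem_interior.2 ⟨_, ?_, o2, k1, k2, k3⟩
    rintro y ⟨l1, l2, l3⟩
    exact Or.inl (Or.inr ((m2 y).2 ⟨l1.le, l2.le, l3.le⟩))
  have i3 : ∀ x : ℝ × ℝ, x.1 < 0 → 0 < x.2 - x.1 / b4 * c4 →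
      x.1 / b4 + (x.2 - x.1 / b4 * c4) < 1 → x ∈ interior R := by
    intro x k1 k2 k3
    refine mem_interior.2 ⟨_, ?_, o3, k1, k2, k3⟩
    rintro y ⟨l1, l2, l3⟩
    exact Or.inr ((m3 y).2 ⟨l1.le, l2.le, l3.le⟩)
  have i12 : ∀ x : ℝ × ℝ, x.2 = 0 → 0 < x.1 → x.1 < 1 → x ∈ interior R := by
    intro x k1 k2 k3
    refine mem_interior.2 ⟨_, ?_, o12, ?_, ?_, k2, ?_⟩
    · rintro y ⟨l1, l2, l3, l4⟩
      rcases le_total y.2 0 with h | h
      · exact Or.inl (Or.inl ((m1 y).2 ⟨h, l1.le, l2.le⟩))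
      · exact Or.inl (Or.inr ((m2 y).2 ⟨l3.le, h, l4.le⟩))
    · simp [k1, k2]
    · simp [k1, k3]
    · simp [k1, k3]
  have i23 : ∀ x : ℝ × ℝ, x.1 = 0 → 0 < x.2 → x.2 < 1 → x ∈ interior R := by
    intro x k1 k2 k3
    refine mem_interior.2 ⟨_, ?_, o23, ?_, ?_, k2, ?_⟩
    · rintro y ⟨l1, l2, l3, l4⟩
      rcases le_total y.1 0 with h | h
      · exact Or.inr ((m3 y).2 ⟨h, l1.le, l2.le⟩)
      · exact Or.inl (Or.inr ((m2 y).2 ⟨h, l3.le, l4.le⟩))
    · simp [k1, k2]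
    · simp [k1, k3]
    · simp [k1, k3]
  refine ⟨⟨(1 / 3, 1 / 3), i2 _ (by norm_num) (by norm_num) (by norm_num)⟩, ?_⟩
  apply Set.Subset.antisymm
  · rintro x ⟨(hx | hx) | hx, hxi⟩
    · obtain ⟨k1, k2, k3⟩ := (m1 x).1 hx
      rcases eq_or_lt_of_le k2 with k2' | k2'
      · left; left; left; left
        rw [mem_segment_iff']
        refine ⟨1 - x.2 / c1, x.2 / c1, by linarith, div_nonneg_of_nonpos k1 hc1.le, by ring, ?_⟩
        ext
        · simp; linarith
        · simp [hc1.ne]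
      rcases eq_or_lt_of_le k3 with k3' | k3'
      · left; left; left; right
        rw [mem_segment_iff']
        refine ⟨x.2 / c1, x.1 - x.2 / c1 * b1, div_nonneg_of_nonpos k1 hc1.le, k2, k3', ?_⟩
        ext
        · simp
        · simp [hc1.ne]
      rcases eq_or_lt_of_le k1 with k1' | k1'
      · rw [k1'] at k2' k3'
        exact absurd (i12 x k1' (by simpa using k2') (by simpa using k3')) hxi
      · exact absurd (i1 x k1' k2' k3') hxi
    · obtain ⟨k1, k2, k3⟩ := (m2 x).1 hx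
      rcases eq_or_lt_of_le k3 with k3' | k3'
      · left; left; right
        rw [mem_segment_iff']
        refine ⟨x.1, x.2, k1, k2, k3', ?_⟩
        ext <;> simp
      rcases eq_or_lt_of_le k1 with k1' | k1'
      · rcases eq_or_lt_of_le k2 with k2' | k2'
        · left; left; left; left
          have : x = (0, 0) := by
            ext
            · exact k1'.symm
            · exact k2'.symm
          rw [this]
          exact left_mem_segment ℝ _ _
        · exact absurd (i23 x k1'.symm k2' (by linarith)) hxi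
      · rcases eq_or_lt_of_le k2 with k2' | k2'
        · exact absurd (i12 x k2'.symm k1' (by linarith)) hxi
        · exact absurd (i2 x k1' k2' k3') hxi
    · obtain ⟨k1, k2, k3⟩ := (m3 x).1 hx
      rcases eq_or_lt_of_le k2 with k2' | k2'
      · right
        rw [mem_segment_iff']
        refine ⟨x.1 / b4, 1 - x.1 / b4, div_nonneg_of_nonpos k1 hb4.le, by linarith, by ring, ?_⟩
        ext
        · simp [hb4.ne]
        · simp; linarith
      rcases eq_or_lt_of_le k3 with k3' | k3'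
      · left; right
        rw [mem_segment_iff']
        refine ⟨x.2 - x.1 / b4 * c4, x.1 / b4, k2, div_nonneg_of_nonpos k1 hb4.le,
          by linarith, ?_⟩
        ext
        · simp [hb4.ne]
        · simp
      rcases eq_or_lt_of_le k1 with k1' | k1'
      · rw [k1'] at k2' k3'
        exact absurd (i23 x k1' (by simpa using k2') (by simpa using k3')) hxi
      · exact absurd (i3 x k1' k2' k3') hxi
  · have d1 : ∀ x ∈ T1, x ∈ R := fun x hx => Or.inl (Or.inl hx)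
    have d2 : ∀ x ∈ T2, x ∈ R := fun x hx => Or.inl (Or.inr hx)
    have d3 : ∀ x ∈ T3, x ∈ R := fun x hx => Or.inr hx
    have v0T1 : ((0, 0) : ℝ × ℝ) ∈ T1 := subset_convexHull ℝ _ (by simp)
    have v1T1 : (b1, c1) ∈ T1 := subset_convexHull ℝ _ (by simp)
    have v2T1 : ((1, 0) : ℝ × ℝ) ∈ T1 := subset_convexHull ℝ _ (by simp)
    have v2T2 : ((1, 0) : ℝ × ℝ) ∈ T2 := subset_convexHull ℝ _ (by simp)
    have v3T2 : ((0, 1) : ℝ × ℝ) ∈ T2 := subset_convexHull ℝ _ (by simp)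
    have v0T3 : ((0, 0) : ℝ × ℝ) ∈ T3 := subset_convexHull ℝ _ (by simp)
    have v3T3 : ((0, 1) : ℝ × ℝ) ∈ T3 := subset_convexHull ℝ _ (by simp)
    have v4T3 : (b4, c4) ∈ T3 := subset_convexHull ℝ _ (by simp)
    have cT1 : Convex ℝ T1 := convex_convexHull ℝ _
    have cT2 : Convex ℝ T2 := convex_convexHull ℝ _
    have cT3 : Convex ℝ T3 := convex_convexHull ℝ _
    have r1 : R = T1 ∪ (T2 ∪ T3) := Set.union_assoc _ _ _
    have r2 : R = T2 ∪ (T1 ∪ T3) := by
      rw [r1, ← Set.union_assoc, Set.union_comm T1 T2, Set.union_assoc]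
    have r3 : R = T3 ∪ (T1 ∪ T2) := Set.union_comm _ _
    rintro x ((((hx | hx) | hx) | hx) | hx)
    · refine ⟨d1 x (cT1.segment_subset v0T1 v1T1 hx), ?_⟩
      rw [r1]
      refine notMem_interior_of_edge (c2'.union c3') ?_ 1 (-(b1 / c1)) 0
        (by nlinarith [mul_self_nonneg (-(b1 / c1))]) ?_
        (by simp) (by simp; field_simp; ring) x hx
      · rintro y ⟨α, β, hα, hβ, hαβ, rfl⟩ (hy | hy)
        · have := ((m2 _).1 hy).2.1
          simp at this
          nlinarith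
        · have := n3 _ hy
          simp at this
          nlinarith
      · intro y hy
        have := ((m1 y).1 hy).2.1
        calc (0 : ℝ) ≤ y.1 - y.2 / c1 * b1 := this
          _ = _ := by ring
    · refine ⟨d1 x (cT1.segment_subset v1T1 v2T1 hx), ?_⟩
      rw [r1]
      refine notMem_interior_of_edge (c2'.union c3') ?_ (-1) ((b1 - 1) / c1) 1
        (by nlinarith [mul_self_nonneg ((b1 - 1) / c1)]) ?_
        (by simp; field_simp; ring) (by simp) x hx
      · rintro y ⟨α, β, hα, hβ, hαβ, rfl⟩ (hy | hy)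
        · have := ((m2 _).1 hy).2.1
          simp at this
          nlinarith
        · have := n3 _ hy
          simp at this
          nlinarith
      · intro y hy
        have := ((m1 y).1 hy).2.2
        calc (0 : ℝ) ≤ 1 - (y.2 / c1 + (y.1 - y.2 / c1 * b1)) := by linarith
          _ = _ := by ring
    · refine ⟨d2 x (cT2.segment_subset v2T2 v3T2 hx), ?_⟩
      rw [r2]
      refine notMem_interior_of_edge (c1'.union c3') ?_ (-1) (-1) 1 (by norm_num) ?_
        (by simp) (by simp) x hx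
      · rintro y ⟨α, β, hα, hβ, hαβ, rfl⟩ (hy | hy)
        · have := ((m1 _).1 hy).1
          simp at this
          linarith
        · have := ((m3 _).1 hy).1
          simp at this
          linarith
      · intro y hy
        have := ((m2 y).1 hy).2.2
        linarith
    · refine ⟨d3 x (cT3.segment_subset v3T3 v4T3 hx), ?_⟩
      rw [r3]
      refine notMem_interior_of_edge (c1'.union c2') ?_ ((c4 - 1) / b4) (-1) 1
        (by nlinarith [mul_self_nonneg ((c4 - 1) / b4)]) ?_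
        (by simp) (by simp; field_simp; ring) x hx
      · rintro y ⟨α, β, hα, hβ, hαβ, rfl⟩ (hy | hy)
        · have := n1 _ hy
          simp at this
          nlinarith
        · have := ((m2 _).1 hy).1
          simp at this
          nlinarith
      · intro y hy
        have := ((m3 y).1 hy).2.2
        calc (0 : ℝ) ≤ 1 - (y.1 / b4 + (y.2 - y.1 / b4 * c4)) := by linarith
          _ = _ := by ring
    · refine ⟨d3 x (cT3.segment_subset v4T3 v0T3 hx), ?_⟩
      rw [r3]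
      refine notMem_interior_of_edge (c1'.union c2') ?_ (-(c4 / b4)) 1 0
        (by nlinarith [mul_self_nonneg (-(c4 / b4))]) ?_
        (by simp; field_simp; ring) (by simp) x hx
      · rintro y ⟨α, β, hα, hβ, hαβ, rfl⟩ (hy | hy)
        · have := n1 _ hy
          simp at this
          nlinarith
        · have := ((m2 _).1 hy).1
          simp at this
          nlinarith
      · intro y hy
        have := ((m3 y).1 hy).2.1
        calc (0 : ℝ) ≤ y.2 - y.1 / b4 * c4 := this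
          _ = _ := by ring

/-- the five points of the plane -/
def pts (b1 c1 b4 c4 : ℝ) : Fin 5 → ℝ × ℝ := ![(0, 0), (b1, c1), (1, 0), (0, 1), (b4, c4)]

theorem pts_injective {b1 c1 b4 c4 s t : ℝ} (hc1 : c1 < 0) (hb4 : b4 < 0)
    (h1 : t * c1 - s * b1 < 0) (h4 : 0 < t * c4 - s * b4) :
    Function.Injective (pts b1 c1 b4 c4) := by
  intro i j hij
  fin_cases i <;> fin_cases j <;> simp [pts, Prod.ext_iff] at hij ⊢ <;>
    (try (obtain ⟨e1, e2⟩ := hij)) <;> (try subst e1) <;> (try subst e2) <;> linarith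

theorem pts_simple {b1 c1 b4 c4 s t : ℝ} (hc1 : c1 < 0) (hb4 : b4 < 0) (hs : 0 < s)
    (ht : 0 < t) (h1 : t * c1 - s * b1 < 0) (h4 : 0 < t * c4 - s * b4) (i j : Fin 5)
    (hij : i < j) :
    segment ℝ (pts b1 c1 b4 c4 i) (pts b1 c1 b4 c4 (i + 1)) ∩
      segment ℝ (pts b1 c1 b4 c4 j) (pts b1 c1 b4 c4 (j + 1)) ⊆
    {pts b1 c1 b4 c4 i, pts b1 c1 b4 c4 (i + 1)} ∩
      {pts b1 c1 b4 c4 j, pts b1 c1 b4 c4 (j + 1)} := by
  rintro x ⟨hx, hy⟩
  obtain ⟨α, β, hα, hβ, hαβ, e⟩ := hx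
  obtain ⟨γ, δ, hγ, hδ, hγδ, e'⟩ := hy
  fin_cases i <;> fin_cases j <;> simp [pts] at hij e e' ⊢
  · -- 0, 1
    rw [← e', Prod.mk.injEq] at e
    obtain ⟨e1, e2⟩ := e
    have hβγ : β = γ := mul_right_cancel₀ hc1.ne e2
    have hδ0 : δ = 0 := by rw [hβγ] at e1; linarith
    have hγ1 : γ = 1 := by linarith
    have hx : x = (b1, c1) := by rw [← e', hγ1, hδ0]; simp
    exact ⟨Or.inr hx, Or.inl hx⟩
  · -- 0, 2
    exfalso
    rw [← e', Prod.mk.injEq] at e
    obtain ⟨e1, e2⟩ := e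
    have hβ0 : β = 0 := by nlinarith
    rw [hβ0] at e1 e2
    linarith
  · -- 0, 3
    exfalso
    rw [← e', Prod.mk.injEq] at e
    obtain ⟨e1, e2⟩ := e
    have k1 : β * (t * c1 - s * b1) = γ * t + δ * (t * c4 - s * b4) := by
      linear_combination t * e2 - s * e1
    have k2 : β * (t * c1 - s * b1) ≤ 0 := mul_nonpos_of_nonneg_of_nonpos hβ h1.le
    rcases eq_or_lt_of_le hγ with hg | hg
    · have : δ = 1 := by linarith
      rw [← hg, this] at k1
      linarith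
    · have k3 : 0 < γ * t := mul_pos hg ht
      have k4 : 0 ≤ δ * (t * c4 - s * b4) := mul_nonneg hδ h4.le
      linarith
  · -- 0, 4
    rw [← e', Prod.mk.injEq] at e
    obtain ⟨e1, e2⟩ := e
    have k1 : β * (t * c1 - s * b1) = γ * (t * c4 - s * b4) := by
      linear_combination t * e2 - s * e1
    have k2 : β * (t * c1 - s * b1) ≤ 0 := mul_nonpos_of_nonneg_of_nonpos hβ h1.le
    have k4 : 0 ≤ γ * (t * c4 - s * b4) := mul_nonneg hγ h4.le
    have k5 : γ * (t * c4 - s * b4) = 0 := by linarith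
    have k6 : γ = 0 := (mul_eq_zero.1 k5).resolve_right h4.ne'
    have hx : x = (0, 0) := by rw [← e', k6]; simp
    exact ⟨Or.inl hx, Or.inr hx⟩
  · -- 1, 2
    rw [← e', Prod.mk.injEq] at e
    obtain ⟨e1, e2⟩ := e
    have hα0 : α = 0 := by nlinarith
    have hδ0 : δ = 0 := by rw [hα0] at e2; linarith
    have hγ1 : γ = 1 := by linarith
    have hx : x = (1, 0) := by rw [← e', hγ1, hδ0]
    exact ⟨Or.inr hx, Or.inl hx⟩
  · -- 1, 3
    exfalso
    rw [← e', Prod.mk.injEq] at e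
    obtain ⟨e1, e2⟩ := e
    have k1 : α * (t * c1 - s * b1) - β * s = γ * t + δ * (t * c4 - s * b4) := by
      linear_combination t * e2 - s * e1
    have k2 : α * (t * c1 - s * b1) ≤ 0 := mul_nonpos_of_nonneg_of_nonpos hα h1.le
    have k3 : 0 ≤ β * s := mul_nonneg hβ hs.le
    rcases eq_or_lt_of_le hγ with hg | hg
    · have : δ = 1 := by linarith
      rw [← hg, this] at k1
      linarith
    · have k3 : 0 < γ * t := mul_pos hg ht
      have k4 : 0 ≤ δ * (t * c4 - s * b4) := mul_nonneg hδ h4.le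
      linarith
  · -- 1, 4
    exfalso
    rw [← e', Prod.mk.injEq] at e
    obtain ⟨e1, e2⟩ := e
    have k1 : α * (t * c1 - s * b1) - β * s = γ * (t * c4 - s * b4) := by
      linear_combination t * e2 - s * e1
    have k4 : 0 ≤ γ * (t * c4 - s * b4) := mul_nonneg hγ h4.le
    rcases eq_or_lt_of_le hα with hg | hg
    · have : β = 1 := by linarith
      rw [← hg, this] at k1
      linarith
    · have k2 : α * (t * c1 - s * b1) < 0 := mul_neg_of_pos_of_neg hg h1
      have k3 : 0 ≤ β * s := mul_nonneg hβ hs.le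
      linarith
  · -- 2, 3
    rw [← e', Prod.mk.injEq] at e
    obtain ⟨e1, e2⟩ := e
    have hδ0 : δ = 0 := by nlinarith
    have hγ1 : γ = 1 := by linarith
    have hx : x = (0, 1) := by rw [← e', hγ1, hδ0]; simp
    exact ⟨Or.inr hx, Or.inl hx⟩
  · -- 2, 4
    exfalso
    rw [← e', Prod.mk.injEq] at e
    obtain ⟨e1, e2⟩ := e
    have hγ0 : γ = 0 := by nlinarith
    rw [hγ0] at e1 e2
    linarith
  · -- 3, 4
    rw [← e', Prod.mk.injEq] at e
    obtain ⟨e1, e2⟩ := e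
    have hβγ : β = γ := mul_right_cancel₀ hb4.ne e1
    have hα0 : α = 0 := by rw [hβγ] at e2; linarith
    have hγ1 : γ = 1 := by linarith
    have hx : x = (b4, c4) := by rw [← e', hγ1]; simp
    exact ⟨Or.inr hx, Or.inl hx⟩

/-- J3: a pentagon with a fan triangulation from the vertex `v 0`. -/
theorem isPolygon_fan (v : Fin 5 → E3) (hplane : Coplanar ℝ (Set.range v))
    (hcorner : ∀ i, ¬ Collinear ℝ {v i, v (i + 1), v (i + 2)})
    (h12 : ∃ l : E3 →ᵃ[ℝ] ℝ, l (v 0) = 0 ∧ l (v 2) = 0 ∧ l (v 1) < 0 ∧ 0 < l (v 3))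
    (h23 : ∃ l : E3 →ᵃ[ℝ] ℝ, l (v 0) = 0 ∧ l (v 3) = 0 ∧ l (v 2) < 0 ∧ 0 < l (v 4))
    (h13 : ∃ l : E3 →ᵃ[ℝ] ℝ, l (v 0) = 0 ∧ l (v 1) < 0 ∧ l (v 2) < 0 ∧
      0 < l (v 3) ∧ 0 < l (v 4)) :
    IsPolygon v (convexHull ℝ {v 0, v 1, v 2} ∪ convexHull ℝ {v 0, v 2, v 3} ∪
      convexHull ℝ {v 0, v 3, v 4}) := by
  obtain ⟨l12, a0, a2, a1, a3⟩ := h12
  obtain ⟨l23, d0, d3, d2, d4⟩ := h23
  obtain ⟨l13, g0, g1, g2, g3, g4⟩ := h13
  -- parametrisation of the plane
  set u : E3 := v 2 - v 0 with hu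
  set w : E3 := v 3 - v 0 with hw
  have lval : ∀ (l : E3 →ᵃ[ℝ] ℝ), l (v 0) = 0 → ∀ x y : ℝ,
      l (x • u + y • w + v 0) = x * l (v 2) + y * l (v 3) := by
    intro l hl x y
    have e1 := l.map_vadd (v 0) (x • u + y • w)
    have e2 : l.linear u = l (v 2) := by
      have := l.linearMap_vsub (v 2) (v 0)
      simp only [vsub_eq_sub, hl, sub_zero] at this
      exact this
    have e3 : l.linear w = l (v 3) := by
      have := l.linearMap_vsub (v 3) (v 0)
      simp only [vsub_eq_sub, hl, sub_zero] at this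
      exact this
    simp only [vadd_eq_add, map_add, map_smul, smul_eq_mul, e2, e3, hl, add_zero] at e1
    exact e1
  let Φ : ℝ × ℝ →ᵃ[ℝ] E3 := ((LinearMap.toSpanSingleton ℝ E3 u).coprod
    (LinearMap.toSpanSingleton ℝ E3 w)).toAffineMap + AffineMap.const ℝ (ℝ × ℝ) (v 0)
  have hΦ : ∀ q : ℝ × ℝ, Φ q = q.1 • u + q.2 • w + v 0 := by
    intro q
    simp [Φ]
  have hinj : Function.Injective Φ := by
    intro q q' hqq
    have k1 := congrArg l12 hqq
    have k2 := congrArg l23 hqq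
    rw [hΦ, hΦ, lval _ a0, lval _ a0, a2] at k1
    rw [hΦ, hΦ, lval _ d0, lval _ d0, d3] at k2
    simp only [mul_zero, zero_add, add_zero] at k1 k2
    exact Prod.ext (mul_right_cancel₀ d2.ne k2) (mul_right_cancel₀ a3.ne' k1)
  -- every point `v i` lies in the plane
  have hli : LinearIndependent ℝ ![u, w] := by
    rw [LinearIndependent.pair_iff]
    intro x y hxy
    have k1 := lval l12 a0 x y
    have k2 := lval l23 d0 x y
    rw [hxy, zero_add, a0, a2] at k1
    rw [hxy, zero_add, d0, d3] at k2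
    constructor
    · have : x * l23 (v 2) = 0 := by linarith
      exact (mul_eq_zero.1 this).resolve_right d2.ne
    · have : y * l12 (v 3) = 0 := by linarith
      exact (mul_eq_zero.1 this).resolve_right a3.ne'
  have hmemS : ∀ i j, v i - v j ∈ vectorSpan ℝ (Set.range v) := fun i j =>
    vsub_mem_vectorSpan ℝ (Set.mem_range_self i) (Set.mem_range_self j)
  have hspan : Submodule.span ℝ {u, w} = vectorSpan ℝ (Set.range v) := by
    have h1 : Submodule.span ℝ {u, w} ≤ vectorSpan ℝ (Set.range v) := by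
      rw [Submodule.span_le]
      rintro z (rfl | rfl)
      · exact hmemS 2 0
      · exact hmemS 3 0
    have h2 : Module.finrank ℝ (Submodule.span ℝ {u, w}) = 2 := by
      have := finrank_span_eq_card hli
      rw [Matrix.range_cons_cons_empty] at this
      simpa using this
    apply Submodule.eq_of_le_of_finrank_le h1
    rw [h2]
    exact coplanar_iff_finrank_le_two.1 hplane
  have hex : ∀ i, ∃ b c : ℝ, v i = Φ (b, c) := by
    intro i
    have := hmemS i 0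
    rw [← hspan, Submodule.mem_span_pair] at this
    obtain ⟨b, c, hbc⟩ := this
    exact ⟨b, c, by rw [hΦ]; simp only; rw [hbc]; abel⟩
  obtain ⟨b1, c1, hv1⟩ := hex 1
  obtain ⟨b4, c4, hv4⟩ := hex 4
  have hv0 : v 0 = Φ (0, 0) := by rw [hΦ]; simp
  have hv2 : v 2 = Φ (1, 0) := by rw [hΦ]; simp [hu]
  have hv3 : v 3 = Φ (0, 1) := by rw [hΦ]; simp [hw]
  have hc1 : c1 < 0 := by
    have := a1
    rw [hv1, hΦ, lval _ a0, a2] at this
    simp only [mul_zero, zero_add] at this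
    nlinarith
  have hb4 : b4 < 0 := by
    have := d4
    rw [hv4, hΦ, lval _ d0, d3] at this
    simp only [mul_zero, add_zero] at this
    nlinarith
  have hs : 0 < - l13 (v 2) := by linarith
  have h1 : l13 (v 3) * c1 - (- l13 (v 2)) * b1 < 0 := by
    have := g1
    rw [hv1, hΦ, lval _ g0] at this
    simp only at this
    linarith
  have h4 : 0 < l13 (v 3) * c4 - (- l13 (v 2)) * b4 := by
    have := g4
    rw [hv4, hΦ, lval _ g0] at this
    simp only at this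
    linarith
  have hv : ∀ i, v i = Φ (pts b1 c1 b4 c4 i) := by
    intro i
    fin_cases i
    · exact hv0
    · exact hv1
    · exact hv2
    · exact hv3
    · exact hv4
  have hseg : ∀ i j, segment ℝ (v i) (v j) =
      Φ '' segment ℝ (pts b1 c1 b4 c4 i) (pts b1 c1 b4 c4 j) := by
    intro i j
    rw [image_segment, ← hv, ← hv]
  have hR : convexHull ℝ {v 0, v 1, v 2} ∪ convexHull ℝ {v 0, v 2, v 3} ∪
      convexHull ℝ {v 0, v 3, v 4} = Φ '' (convexHull ℝ {((0, 0) : ℝ × ℝ), (b1, c1), (1, 0)} ∪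
      convexHull ℝ {((0, 0) : ℝ × ℝ), (1, 0), (0, 1)} ∪
      convexHull ℝ {((0, 0) : ℝ × ℝ), (0, 1), (b4, c4)}) := by
    rw [Set.image_union, Set.image_union, AffineMap.image_convexHull, AffineMap.image_convexHull,
      AffineMap.image_convexHull]
    simp only [Set.image_insert_eq, Set.image_singleton]
    rw [← hv0, ← hv1, ← hv2, ← hv3, ← hv4]
  obtain ⟨hne, hfr⟩ := planar_frontier hc1 hb4 hs g3 h1 h4
  have hcompact : IsCompact (convexHull ℝ {((0, 0) : ℝ × ℝ), (b1, c1), (1, 0)} ∪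
      convexHull ℝ {((0, 0) : ℝ × ℝ), (1, 0), (0, 1)} ∪
      convexHull ℝ {((0, 0) : ℝ × ℝ), (0, 1), (b4, c4)}) :=
    ((isCompact_T _ _ _).union (isCompact_T _ _ _)).union (isCompact_T _ _ _)
  have hsimple : ∀ i j : Fin 5, i < j →
      segment ℝ (v i) (v (i + 1)) ∩ segment ℝ (v j) (v (j + 1)) ⊆
      {v i, v (i + 1)} ∩ {v j, v (j + 1)} := by
    intro i j hij
    rw [hseg, hseg, ← Set.image_inter hinj]
    refine (Set.image_mono (pts_simple hc1 hb4 hs g3 h1 h4 i j hij)).trans ?_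
    rintro x ⟨y, ⟨hy1, hy2⟩, rfl⟩
    refine ⟨?_, ?_⟩
    · rcases hy1 with hy1 | hy1
      · left; rw [hy1, hv]
      · right; rw [Set.mem_singleton_iff] at hy1 ⊢; rw [hy1, hv (i + 1)]
    · rcases hy2 with hy2 | hy2
      · left; rw [hy2, hv]
      · right; rw [Set.mem_singleton_iff] at hy2 ⊢; rw [hy2, hv (j + 1)]
  refine ⟨?_, ?_, hcorner, ?_, ?_, ?_, ?_⟩
  · intro i j hij
    rw [hv i, hv j] at hij
    exact pts_injective hc1 hb4 h1 h4 (hinj hij)
  · intro i j hij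
    rcases lt_or_gt_of_ne hij with h | h
    · exact hsimple i j h
    · rw [Set.inter_comm, Set.inter_comm {v i, v (i + 1)}]
      exact hsimple j i h
  · exact ((isCompact_T _ _ _).union (isCompact_T _ _ _)).union (isCompact_T _ _ _)
  · -- coplanar
    have k1 : Coplanar ℝ (affineSpan ℝ (Set.range v) : Set E3) := by
      unfold Coplanar at hplane ⊢
      have : vectorSpan ℝ (affineSpan ℝ (Set.range v) : Set E3) =
          vectorSpan ℝ (Set.range v) := by
        rw [← direction_affineSpan ℝ (Set.range v)]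
        rfl
      rw [this]
      exact hplane
    refine k1.subset ?_
    have k2 : ∀ s : Set E3, s ⊆ Set.range v →
        convexHull ℝ s ⊆ (affineSpan ℝ (Set.range v) : Set E3) := fun s hs =>
      (convexHull_mono hs).trans (convexHull_subset_affineSpan _)
    refine Set.union_subset (Set.union_subset (k2 _ ?_) (k2 _ ?_)) (k2 _ ?_) <;>
    · rintro z (rfl | rfl | rfl) <;> exact Set.mem_range_self _
  · rw [hR, intrinsicInterior_param Φ hinj _ hne]
    exact hne.image _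
  · rw [hR, intrinsicFrontier_param Φ hinj _ hne hcompact, hfr]
    simp only [Set.image_union]
    have s0 := hseg 0 1
    have s1 := hseg 1 2
    have s2 := hseg 2 3
    have s3 := hseg 3 4
    have s4 := hseg 4 0
    simp only [pts, Matrix.cons_val] at s0 s1 s2 s3 s4
    rw [← s0, ← s1, ← s2, ← s3, ← s4]
    ext x
    rw [Set.mem_iUnion]
    constructor
    · rintro ((((h | h) | h) | h) | h)
      · exact ⟨0, h⟩
      · exact ⟨1, h⟩
      · exact ⟨2, h⟩
      · exact ⟨3, h⟩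
      · exact ⟨4, h⟩
    · rintro ⟨i, h⟩
      fin_cases i
      · left; left; left; left; exact h
      · left; left; left; right; exact h
      · left; left; right; exact h
      · left; right; exact h
      · right; exact h

end Pool.Agent.MPf7203b
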