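import Pool.Agent.Lib.MP_f7203b_co.Sound
import Pool.Agent.Lib.MP_f7203b_co.Pentagon

section

/-!
Existence of the exact real solution.
-/

namespace Pool.Agent.MPf7203b

theorem exists_solution : ∃ z : Fin 24 → ℝ, (∀ i, |z i - zh i| ≤ (100 : ℤ)) ∧
    ∀ k, qval (eqQ k) (eqL k) (eqC k) z = 0 := by
  refine exists_zero_of_int eqQ eqL eqC zh Yh Mh 1000000000000 100 600 (by norm_num) (by norm_num)
    ?_ ?_ ?_ ?_ ?_
  · decide +kernel
  · decide +kernel
  · decide +kernel
  · decide +kernel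
  · decide +kernel

end Pool.Agent.MPf7203b
end

section

/-!
General geometric lemmas.
-/

namespace Pool.Agent.MPf7203b

/-- Points in a plane are coplanar. -/
theorem coplanar_of_plane {a b c d : ℝ} (hne : ¬(a = 0 ∧ b = 0 ∧ c = 0)) {s : Set E3}
    (h : ∀ x ∈ s, a * x 0 + b * x 1 + c * x 2 = d) : Coplanar ℝ s := by
  have hle : vectorSpan ℝ s ≤ LinearMap.ker (lin a b c) := by
    rw [vectorSpan_def, Submodule.span_le]
    rintro _ ⟨x, hx, y, hy, rfl⟩
    rw [SetLike.mem_coe, LinearMap.mem_ker]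
    have h1 := h x hx
    have h2 := h y hy
    simp only [vsub_eq_sub, map_sub, lin_apply]
    linarith
  have hsurj : Function.Surjective (lin a b c) := by
    refine LinearMap.surjective_of_ne_zero ?_
    intro h0
    apply hne
    have e0 := congrArg (fun f : E3 →ₗ[ℝ] ℝ => f (EuclideanSpace.single 0 1)) h0
    have e1 := congrArg (fun f : E3 →ₗ[ℝ] ℝ => f (EuclideanSpace.single 1 1)) h0
    have e2 := congrArg (fun f : E3 →ₗ[ℝ] ℝ => f (EuclideanSpace.single 2 1)) h0
    simp at e0 e1 e2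
    exact ⟨e0, e1, e2⟩
  have hker : Module.finrank ℝ (LinearMap.ker (lin a b c)) = 2 := by
    have h1 := LinearMap.finrank_range_add_finrank_ker (lin a b c)
    rw [LinearMap.range_eq_top.mpr hsurj, finrank_top, Module.finrank_self] at h1
    have h2 : Module.finrank ℝ E3 = 3 := by simp
    omega
  rw [coplanar_iff_finrank_le_two, ← hker]
  exact Submodule.finrank_mono hle

/-- In a coplanar set, an affine functional constant on three non-collinear points is constant. -/
theorem eq_of_coplanar {s : Set E3} (hs : Coplanar ℝ s) {p0 p1 p2 : E3} (h0 : p0 ∈ s)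
    (h1 : p1 ∈ s) (h2 : p2 ∈ s) (hnc : ¬ Collinear ℝ {p0, p1, p2}) (l : E3 →ᵃ[ℝ] ℝ) {d : ℝ}
    (e0 : l p0 = d) (e1 : l p1 = d) (e2 : l p2 = d) {x : E3} (hx : x ∈ s) : l x = d := by
  have hsub : ({p0, p1, p2} : Set E3) ⊆ s := by
    intro y hy
    simp only [Set.mem_insert_iff, Set.mem_singleton_iff] at hy
    rcases hy with rfl | rfl | rfl <;> assumption
  have hle : vectorSpan ℝ ({p0, p1, p2} : Set E3) ≤ vectorSpan ℝ s := vectorSpan_mono ℝ hsub
  have heq : vectorSpan ℝ ({p0, p1, p2} : Set E3) = vectorSpan ℝ s := by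
    refine Submodule.eq_of_le_of_finrank_le hle ?_
    rw [collinear_iff_finrank_le_one] at hnc
    rw [coplanar_iff_finrank_le_two] at hs
    omega
  have hmem : x -ᵥ p0 ∈ vectorSpan ℝ ({p0, p1, p2} : Set E3) := by
    rw [heq]; exact vsub_mem_vectorSpan ℝ hx h0
  have hker : vectorSpan ℝ ({p0, p1, p2} : Set E3) ≤ LinearMap.ker l.linear := by
    rw [vectorSpan_def, Submodule.span_le]
    rintro _ ⟨y, hy, z, hz, rfl⟩
    rw [SetLike.mem_coe, LinearMap.mem_ker]
    have hy' : l y = d := by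
      simp only [Set.mem_insert_iff, Set.mem_singleton_iff] at hy
      rcases hy with rfl | rfl | rfl <;> assumption
    have hz' : l z = d := by
      simp only [Set.mem_insert_iff, Set.mem_singleton_iff] at hz
      rcases hz with rfl | rfl | rfl <;> assumption
    change l.linear (y -ᵥ z) = 0
    rw [AffineMap.linearMap_vsub, hy', hz']
    simp
  have h3 := hker hmem
  rw [LinearMap.mem_ker, AffineMap.linearMap_vsub, e0] at h3
  have h4 : l x - d = 0 := h3
  linarith

theorem not_collinear_of_det {u : ℤ × ℤ × ℤ} {a b c : E3} (h : detR u a b c ≠ 0) :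
    ¬ Collinear ℝ {a, b, c} := by
  intro hc
  apply h
  obtain ⟨p, v, hp⟩ := (collinear_iff_exists_forall_eq_smul_vadd _).mp hc
  obtain ⟨ra, ha⟩ := hp a (by simp)
  obtain ⟨rb, hb⟩ := hp b (by simp)
  obtain ⟨rc, hc'⟩ := hp c (by simp)
  subst ha hb hc'
  simp only [detR, vadd_eq_add, PiLp.add_apply, PiLp.smul_apply, smul_eq_mul]
  ring

theorem bary_unique {u : ℤ × ℤ × ℤ} {a b c : E3} (h : detR u a b c ≠ 0)
    {α β γ α' β' γ' : ℝ} (hs : α + β + γ = α' + β' + γ')
    (he : α • a + β • b + γ • c = α' • a + β' • b + γ' • c) : α = α' ∧ β = β' ∧ γ = γ' := by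
  have h0 := congrArg (fun x : E3 => x 0) he
  have h1 := congrArg (fun x : E3 => x 1) he
  have h2 := congrArg (fun x : E3 => x 2) he
  simp only [PiLp.add_apply, PiLp.smul_apply, smul_eq_mul] at h0 h1 h2
  have k0 : (β - β') * (b 0 - a 0) + (γ - γ') * (c 0 - a 0) = 0 := by
    linear_combination h0 - a 0 * hs
  have k1 : (β - β') * (b 1 - a 1) + (γ - γ') * (c 1 - a 1) = 0 := by
    linear_combination h1 - a 1 * hs
  have k2 : (β - β') * (b 2 - a 2) + (γ - γ') * (c 2 - a 2) = 0 := by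
    linear_combination h2 - a 2 * hs
  have e1 : (β - β') * detR u a b c = 0 := by
    simp only [detR]
    linear_combination k0 * (u.2.1 * (c 2 - a 2) - u.2.2 * (c 1 - a 1)) +
      k1 * (u.2.2 * (c 0 - a 0) - u.1 * (c 2 - a 2)) +
      k2 * (u.1 * (c 1 - a 1) - u.2.1 * (c 0 - a 0))
  have e2 : (γ - γ') * detR u a b c = 0 := by
    simp only [detR]
    linear_combination -k0 * (u.2.1 * (b 2 - a 2) - u.2.2 * (b 1 - a 1)) -
      k1 * (u.2.2 * (b 0 - a 0) - u.1 * (b 2 - a 2)) -
      k2 * (u.1 * (b 1 - a 1) - u.2.1 * (b 0 - a 0))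
  have hβ : β = β' := by
    rcases mul_eq_zero.mp e1 with h5 | h5
    · linarith
    · exact absurd h5 h
  have hγ : γ = γ' := by
    rcases mul_eq_zero.mp e2 with h5 | h5
    · linarith
    · exact absurd h5 h
  exact ⟨by linarith, hβ, hγ⟩

section complex

variable {V : Type} [Fintype V]

/-- The linear extension of a map on the vertices. -/
noncomputable def ext (pt : V → E3) (x : V → ℝ) : E3 := ∑ i, x i • pt i

theorem continuous_ext (pt : V → E3) : Continuous (ext pt) := by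
  unfold ext
  exact continuous_finsetSum _ fun i _ => (continuous_apply i).smul continuous_const

theorem affine_ext (pt : V → E3) (l : E3 →ᵃ[ℝ] ℝ) {x : V → ℝ} (hx : ∑ i, x i = 1) :
    l (ext pt x) = ∑ i, x i * l (pt i) := by
  have h1 : ∀ y : E3, l y = l.linear y + l 0 := fun y => by
    have := l.map_vadd 0 y
    simpa using this
  rw [h1, ext, map_sum]
  simp only [map_smul, smul_eq_mul]
  have h2 : ∑ i, x i * l (pt i) = ∑ i, x i * l.linear (pt i) + (∑ i, x i) * l 0 := by
    rw [Finset.sum_mul, ← Finset.sum_add_distrib]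
    exact Finset.sum_congr rfl fun i _ => by rw [h1 (pt i)]; ring
  rw [h2, hx, one_mul]

theorem injOn_realiz (pt : V → E3) {ι : Type} (tri : ι → Finset V)
    (hsep : ∀ a b, a ≠ b → ∃ l : E3 →ᵃ[ℝ] ℝ,
      (∀ i ∈ tri a, l (pt i) ≤ 0 ∧ (l (pt i) = 0 → i ∈ tri b)) ∧
      (∀ i ∈ tri b, 0 ≤ l (pt i) ∧ (l (pt i) = 0 → i ∈ tri a)))
    (hind : ∀ a, ∀ x y : V → ℝ, (∀ i, x i ≠ 0 → i ∈ tri a) → (∀ i, y i ≠ 0 → i ∈ tri a) →
      ∑ i, x i = ∑ i, y i → ext pt x = ext pt y → x = y) :
    Set.InjOn (ext pt) (realiz (Set.range tri)) := by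
  rintro x ⟨hx0, hx1, _, ⟨a, rfl⟩, hxa⟩ y ⟨hy0, hy1, _, ⟨b, rfl⟩, hyb⟩ hxy
  by_cases hab : a = b
  · subst hab
    exact hind a x y hxa hyb (hx1.trans hy1.symm) hxy
  · obtain ⟨l, hl1, hl2⟩ := hsep a b hab
    have ex := affine_ext pt l hx1
    have ey := affine_ext pt l hy1
    have tx : ∀ i, x i * l (pt i) ≤ 0 := by
      intro i
      by_cases hi : x i = 0
      · simp [hi]
      · exact mul_nonpos_of_nonneg_of_nonpos (hx0 i) (hl1 i (hxa i hi)).1
    have ty : ∀ i, 0 ≤ y i * l (pt i) := by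
      intro i
      by_cases hi : y i = 0
      · simp [hi]
      · exact mul_nonneg (hy0 i) (hl2 i (hyb i hi)).1
    have hxy' : l (ext pt x) = l (ext pt y) := by rw [hxy]
    have sx : ∑ i, x i * l (pt i) ≤ 0 := Finset.sum_nonpos fun i _ => tx i
    have sy : 0 ≤ ∑ i, y i * l (pt i) := Finset.sum_nonneg fun i _ => ty i
    have zx : ∑ i, x i * l (pt i) = 0 := by linarith
    have zy : ∑ i, y i * l (pt i) = 0 := by linarith
    have ax : ∀ i, x i * l (pt i) = 0 := by
      intro i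
      have := (Finset.sum_eq_zero_iff_of_nonpos (fun i _ => tx i)).mp zx i (Finset.mem_univ i)
      exact this
    have ay : ∀ i, y i * l (pt i) = 0 := by
      intro i
      exact (Finset.sum_eq_zero_iff_of_nonneg (fun i _ => ty i)).mp zy i (Finset.mem_univ i)
    refine hind a x y hxa ?_ (hx1.trans hy1.symm) hxy
    intro i hi
    exact (hl2 i (hyb i hi)).2 ((mul_eq_zero.mp (ay i)).resolve_left hi)

theorem mem_hull_iff [DecidableEq V] (pt : V → E3) (a b c : V) (x : E3) :
    x ∈ convexHull ℝ {pt a, pt b, pt c} ↔ ∃ y : V → ℝ, (∀ i, 0 ≤ y i) ∧ ∑ i, y i = 1 ∧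
      (∀ i, y i ≠ 0 → i ∈ ({a, b, c} : Finset V)) ∧ ext pt y = x := by
  constructor
  · intro hx
    obtain ⟨α, β, γ, hα, hβ, hγ, hs, hx'⟩ := mem_convexHull_triple.mp hx
    refine ⟨Pi.single a α + Pi.single b β + Pi.single c γ, ?_, ?_, ?_, ?_⟩
    · intro i
      simp only [Pi.add_apply, Pi.single_apply]
      split_ifs <;> positivity
    · simp only [Pi.add_apply, Finset.sum_add_distrib, Finset.sum_pi_single', Finset.mem_univ,
        if_true]
      simpa using hs
    · intro i hi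
      by_contra hn
      simp only [Finset.mem_insert, Finset.mem_singleton, not_or] at hn
      apply hi
      simp [Pi.single_apply, hn.1, hn.2.1, hn.2.2]
    · unfold ext
      simp only [Pi.add_apply, add_smul, Finset.sum_add_distrib]
      have key : ∀ (j : V) (r : ℝ), ∑ i, (Pi.single j r : V → ℝ) i • pt i = r • pt j := by
        intro j r
        rw [Finset.sum_eq_single j]
        · simp
        · intro i _ hij
          simp [Pi.single_apply, hij]
        · simp
      rw [key, key, key]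
      exact hx'.symm
  · rintro ⟨y, hy0, hy1, hys, rfl⟩
    have e1 : ∑ i ∈ ({a, b, c} : Finset V), y i = 1 := by
      rw [← hy1]
      refine Finset.sum_subset (Finset.subset_univ _) ?_
      intro i _ hi
      by_contra hne
      exact hi (hys i hne)
    have e2 : ext pt y = ∑ i ∈ ({a, b, c} : Finset V), y i • pt i := by
      symm
      refine Finset.sum_subset (Finset.subset_univ _) ?_
      intro i _ hi
      have : y i = 0 := by
        by_contra hne
        exact hi (hys i hne)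
      simp [this]
    rw [e2]
    refine (convex_convexHull ℝ _).sum_mem (fun i _ => hy0 i) e1 ?_
    intro i hi
    apply subset_convexHull
    simp only [Finset.mem_insert, Finset.mem_singleton] at hi
    rcases hi with rfl | rfl | rfl <;> simp

end complex

end Pool.Agent.MPf7203b
end

section

/-!
Combinatorial facts, checked by the kernel.
-/

namespace Pool.Agent.MPf7203b

/-- Vertex `i` of face `f`. -/
def fN (f i : ℕ) : ℕ := (FL.getD f []).getD i 0

/-- Vertex `i` of face `f`. -/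
def Fc (f : Fin 48) (i : Fin 5) : Fin 48 := ⟨fN f i % 48, Nat.mod_lt _ (by norm_num)⟩

/-- Sign and variable of the coordinate `c` of the vertex `i`. -/
def vs (i c : ℕ) : ℤ × Fin 24 := (VS.getD i []).getD c (0, 0)

/-- Sign and variable of the coefficient `c` of the plane of the face `f`. -/
def ns (f c : ℕ) : ℤ × Fin 24 := (NS.getD f []).getD c (0, 0)

/-- The approximate coordinates of the vertex `i`. -/
def ptI (i : ℕ) : PT :=
  (i, (vs i 0).1 * zh (vs i 0).2, (vs i 1).1 * zh (vs i 1).2, (vs i 2).1 * zh (vs i 2).2)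

theorem Fc_val : ∀ f i, (Fc f i).val = fN f i := by decide +kernel

theorem vs_sign : ∀ i : Fin 48, ∀ c : Fin 3, (vs i c).1 = 1 ∨ (vs i c).1 = -1 := by
  decide +kernel

theorem ns_sign : ∀ i : Fin 48, ∀ c : Fin 3, (ns i c).1 = 1 ∨ (ns i c).1 = -1 := by
  decide +kernel

theorem zh_small : ∀ i : Fin 48, ∀ c : Fin 3,
    -120000000 ≤ zh (vs i c).2 ∧ zh (vs i c).2 ≤ 120000000 := by
  decide +kernel

theorem zh_small' : ∀ i : Fin 48, ∀ c : Fin 3,
    -720000000 ≤ zh (ns i c).2 ∧ zh (ns i c).2 ≤ 720000000 := by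
  decide +kernel

/-- The vertex indices of the triangle `k` of the face `f`. -/
def idx (a : Fin 48 × Fin 3) : List ℕ := [fN a.1 0, fN a.1 (a.2 + 1), fN a.1 (a.2 + 2)]

/-- The triangle `k` of the face `f`. -/
def tri (a : Fin 48 × Fin 3) : Finset (Fin 48) :=
  {Fc a.1 0, Fc a.1 ⟨a.2 + 1, by omega⟩, Fc a.1 ⟨a.2 + 2, by omega⟩}

theorem TL_length : TL.length = 144 := by decide +kernel

/-- The default triangle. -/
def t0 : NP × NP × NP := ((0, 0, 0, 0, 0), (0, 0, 0, 0, 0), (0, 0, 0, 0, 0))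

theorem TL_spec : ∀ a : Fin 48 × Fin 3,
    [toPT (TL.getD (3 * a.1.val + a.2.val) t0).1, toPT (TL.getD (3 * a.1.val + a.2.val) t0).2.1,
      toPT (TL.getD (3 * a.1.val + a.2.val) t0).2.2] = (idx a).map ptI := by
  decide +kernel

theorem TL_ok : ∀ t ∈ TL, (okNP t.1 ∧ okNP t.2.1 ∧ okNP t.2.2) ∧
    (t.1.1 < 48 ∧ t.2.1.1 < 48 ∧ t.2.2.1 < 48) ∧
    (toPT t.1 = ptI t.1.1 ∧ toPT t.2.1 = ptI t.2.1.1 ∧ toPT t.2.2 = ptI t.2.2.1) := by
  decide +kernel

/-- The terms of the equation saying that the vertex `i` of the face `f` lies in the plane of the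
face. -/
def terms (f i : ℕ) : List (ℤ × Fin 24 × Fin 24) :=
  [((ns f 0).1 * (vs (fN f i) 0).1, (ns f 0).2, (vs (fN f i) 0).2),
   ((ns f 1).1 * (vs (fN f i) 1).1, (ns f 1).2, (vs (fN f i) 1).2),
   ((ns f 2).1 * (vs (fN f i) 2).1, (ns f 2).2, (vs (fN f i) 2).2)]

theorem terms_spec : ∀ f : Fin 48, ∀ i : Fin 5, ∃ k : Fin 24, (terms f i).Perm (eqQ k) ∧
    eqL k = [] ∧ eqC k = 10000000000000000 := by
  decide +kernel

/-- Nondegeneracy certificate of a triple. -/
def nd (u : ℤ × ℤ × ℤ) (a b c : ℕ) : Bool :=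
  decide (200000000000 * nrmI u < detI u (ptI a) (ptI b) (ptI c)) ||
  decide (detI u (ptI a) (ptI b) (ptI c) < -200000000000 * nrmI u)

theorem corner_nd : ∀ f : Fin 48, ∀ i : Fin 5,
    nd (UL.getD f (0, 0, 0)) (Fc f i) (Fc f (i + 1)) (Fc f (i + 2)) = true := by
  decide +kernel

theorem tri_nd : ∀ a : Fin 48 × Fin 3, nd (UL.getD a.1 (0, 0, 0)) (fN a.1 0) (fN a.1 (a.2 + 1))
    (fN a.1 (a.2 + 2)) = true := by
  decide +kernel

/-- The approximate value of the plane function of the face `f` at the vertex `n`. -/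
def planeI (f n : ℕ) : ℤ :=
  ((ns f 0).1 * zh (ns f 0).2) * ((vs n 0).1 * zh (vs n 0).2) +
  ((ns f 1).1 * zh (ns f 1).2) * ((vs n 1).1 * zh (vs n 1).2) +
  ((ns f 2).1 * zh (ns f 2).2) * ((vs n 2).1 * zh (vs n 2).2)

/-- The face across the edge `i` of the face `f`. -/
def nbF (f : Fin 48) (i : Fin 5) : Fin 48 :=
  ⟨((NBF.getD f []).getD i (0, 0)).1 % 48, Nat.mod_lt _ (by norm_num)⟩

/-- The position of the edge `i` of the face `f` in the face across it. -/
def nbP (f : Fin 48) (i : Fin 5) : Fin 5 :=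
  ⟨((NBF.getD f []).getD i (0, 0)).2 % 5, Nat.mod_lt _ (by norm_num)⟩

theorem nb_spec : ∀ f i, nbF f i ≠ f ∧
    ((Fc (nbF f i) (nbP f i) = Fc f i ∧ Fc (nbF f i) (nbP f i + 1) = Fc f (i + 1)) ∨
    (Fc (nbF f i) (nbP f i) = Fc f (i + 1) ∧ Fc (nbF f i) (nbP f i + 1) = Fc f i)) := by
  decide +kernel

theorem plane_ne : ∀ f : Fin 48, ∀ i : Fin 5,
    planeI f (fN (nbF f i) ((NC.getD f []).getD i 0 % 5)) < 10000000000000000 - 300000000000 ∨
    10000000000000000 + 300000000000 < planeI f (fN (nbF f i) ((NC.getD f []).getD i 0 % 5)) := by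
  decide +kernel

/-- The 240 directed edges: the code of the unordered pair, the face, the position. -/
def edgeCodes : List (ℕ × ℕ × ℕ) :=
  (List.range 48).flatMap fun f => (List.range 5).map fun i =>
    (48 * min (fN f i) (fN f ((i + 1) % 5)) + max (fN f i) (fN f ((i + 1) % 5)), f, i)

end Pool.Agent.MPf7203b
end

section

/-!
More combinatorial facts, checked by the kernel.
-/

namespace Pool.Agent.MPf7203b

/-- `{a, b}` is an edge of the face `f`. -/
def isEdge (f a b : ℕ) : Bool :=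
  (List.range 5).any fun i =>
    or (and (Nat.beq (fN f i) a) (Nat.beq (fN f ((i + 1) % 5)) b))
      (and (Nat.beq (fN f i) b) (Nat.beq (fN f ((i + 1) % 5)) a))

/-- Check of the intersection of a triangle of the face `f` and a triangle of the face `g`. -/
def interOK (f g : ℕ) (s t : List ℕ) : Bool :=
  match s.filter (fun a => t.any (Nat.beq a)) with
  | [] => true
  | [_] => true
  | [a, b] => and (isEdge f a b) (isEdge g a b)
  | _ => false

/-- The vertex indices of the triangle `k` of the face `f`. -/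
def idN (f k : ℕ) : List ℕ := [fN f 0, fN f (k + 1), fN f (k + 2)]

/-- The triangles with their faces. -/
def TI : List (ℕ × List ℕ) :=
  (List.range 48).flatMap fun f => (List.range 3).map fun k => (f, idN f k)

theorem inter_all : (TI.all fun s => TI.all fun t =>
    or (Nat.beq s.1 t.1) (interOK s.1 t.1 s.2 t.2)) = true := by
  decide +kernel

/-- The directed edges in a compact form: first vertex, second vertex, face, position. -/
def EL : List (ℕ × ℕ × ℕ × ℕ) :=
  (List.range 48).flatMap fun f => (List.range 5).map fun i =>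
    (fN f i, fN f ((i + 1) % 5), f, i)

/-- Check of a pair of directed edges: if they have the same endpoints then they are equal or
neighbours. -/
def edgeOK (e e' : ℕ × ℕ × ℕ × ℕ) : Bool :=
  or (not (or (and (Nat.beq e.1 e'.1) (Nat.beq e.2.1 e'.2.1))
      (and (Nat.beq e.1 e'.2.1) (Nat.beq e.2.1 e'.1))))
    (or (and (Nat.beq e.2.2.1 e'.2.2.1) (Nat.beq e.2.2.2 e'.2.2.2))
      (Nat.beq (nbF ⟨e.2.2.1 % 48, Nat.mod_lt _ (by norm_num)⟩
        ⟨e.2.2.2 % 5, Nat.mod_lt _ (by norm_num)⟩) e'.2.2.1))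

theorem edge_all : (EL.all fun e => EL.all fun e' => edgeOK e e') = true := by
  decide +kernel

/-- The neighbours of a vertex. -/
def nbV (v : Fin 48) : List (Fin 48) := (NBV.getD v []).map fun n => Fin.ofNat 48 n

theorem nbV_spec : ∀ v, (nbV v).Nodup ∧ (nbV v).length = 5 ∧ v ∉ nbV v := by
  decide +kernel

theorem nbV_edge : ∀ g : Fin 48, ∀ j : Fin 5, Fc g (j + 1) ∈ nbV (Fc g j) ∧
    Fc g j ∈ nbV (Fc g (j + 1)) := by
  decide +kernel

/-- A face and position of the edge from the vertex to its neighbour number `j`. -/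
def ep (v : Fin 48) (j : ℕ) : Fin 48 × Fin 5 := (EP.getD v []).getD j (0, 0)

theorem ep_spec : ∀ v : Fin 48, ∀ j : Fin 5,
    (Fc (ep v j).1 (ep v j).2 = v ∧ Fc (ep v j).1 ((ep v j).2 + 1) = (nbV v).getD j 0) ∨
    (Fc (ep v j).1 (ep v j).2 = (nbV v).getD j 0 ∧ Fc (ep v j).1 ((ep v j).2 + 1) = v) := by
  decide +kernel

/-- The link of a vertex. -/
def lk (v : Fin 48) : List (Fin 48) := (LK.getD v []).map fun n => Fin.ofNat 48 n

/-- The triangles at a vertex. -/
def lt (v : Fin 48) : List (Fin 48 × Fin 3) := LT.getD v []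

theorem lk_spec : ∀ v, (lk v).Nodup ∧ 3 ≤ (lk v).length ∧ v ∉ lk v ∧
    (lt v).length = (lk v).length := by
  decide +kernel

theorem lk_tri : ∀ v, ∀ j ∈ List.range (lk v).length,
    tri ((lt v).getD j (0, 0)) = {v, (lk v).getD j 0, (lk v).getD ((j + 1) % (lk v).length) 0} := by
  decide +kernel

theorem lt_mem : ∀ a : Fin 48 × Fin 3, ∀ v ∈ tri a, a ∈ lt v := by
  decide +kernel

/-- The parent face. -/
def par (f : Fin 48) : Fin 48 := Fin.ofNat 48 (PAR.getD f 0)

theorem par_spec : ∀ f, par (par (par (par f))) = 0 ∧ ∃ i j, Fc f i = Fc (par f) j := by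
  decide +kernel

theorem Fc_inj : ∀ f, ∀ i j : Fin 5, Fc f i = Fc f j → i = j := by
  decide +kernel

theorem Fc_surj : ∀ v : Fin 48, ∃ f i, Fc f i = v := by
  decide +kernel

end Pool.Agent.MPf7203b
end

section

/-!
The exact vertices, their separation and incidence properties.
-/

namespace Pool.Agent.MPf7203b

/-- The exact vertex with index `i`. -/
noncomputable def pN (z : Fin 24 → ℝ) (i : ℕ) : E3 :=
  WithLp.toLp 2 fun c : Fin 3 => ((vs i c).1 : ℝ) * z (vs i c).2

theorem pN_apply (z : Fin 24 → ℝ) (i : ℕ) (c : Fin 3) :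
    pN z i c = ((vs i c).1 : ℝ) * z (vs i c).2 := rfl

theorem sign_near {s : ℤ} (hs : s = 1 ∨ s = -1) {a : ℝ} {b : ℤ} (h : |a - b| ≤ 100) :
    |(s : ℝ) * a - ((s * b : ℤ) : ℝ)| ≤ 100 := by
  have e : (s : ℝ) * a - ((s * b : ℤ) : ℝ) = s * (a - b) := by push_cast; ring
  rw [e, abs_mul]
  rcases hs with rfl | rfl <;> simpa using h

theorem sign_small {s : ℤ} (hs : s = 1 ∨ s = -1) {b : ℤ} {B : ℤ} (h : -B ≤ b ∧ b ≤ B) :
    |s * b| ≤ B := by
  rw [abs_le]
  rcases hs with rfl | rfl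
  · exact ⟨by linarith [h.1], by linarith [h.2]⟩
  · exact ⟨by linarith [h.2], by linarith [h.1]⟩

section

variable {z : Fin 24 → ℝ} (hz : ∀ i, |z i - zh i| ≤ (100 : ℤ))
include hz

theorem near_pN {i : ℕ} (hi : i < 48) : Near (pN z i) (ptI i) := by
  have hz' : ∀ i, |z i - zh i| ≤ 100 := fun i => by simpa using hz i
  have hs := vs_sign ⟨i, hi⟩
  have hb := zh_small ⟨i, hi⟩
  refine ⟨?_, ?_, ?_, ?_, ?_, ?_⟩
  · exact sign_near (hs 0) (hz' _)
  · exact sign_near (hs 1) (hz' _)
  · exact sign_near (hs 2) (hz' _)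
  · exact sign_small (hs 0) (hb 0)
  · exact sign_small (hs 1) (hb 1)
  · exact sign_small (hs 2) (hb 2)

theorem good_TL : ∀ t ∈ TL, Good (pN z) t := by
  intro t ht
  obtain ⟨ho, ⟨h1, h2, h3⟩, e1, e2, e3⟩ := TL_ok t ht
  refine ⟨⟨?_, ?_, ?_⟩, ho⟩
  · rw [e1]; exact near_pN hz h1
  · rw [e2]; exact near_pN hz h2
  · rw [e3]; exact near_pN hz h3

theorem mem_tri_iff (a : Fin 48 × Fin 3) (i : Fin 48) : i ∈ tri a ↔ i.val ∈ idx a := by
  simp only [tri, idx, Finset.mem_insert, Finset.mem_singleton, List.mem_cons,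
    List.not_mem_nil, or_false, Fin.ext_iff, Fc_val, Fin.val_zero]

omit hz in
theorem tlist_TL (a : Fin 48 × Fin 3) :
    tlist (TL.getD (3 * a.1.val + a.2.val) t0) = (idx a).map ptI := TL_spec a

theorem sepT_TL {a b : Fin 48 × Fin 3} (hab : a ≠ b) :
    SepT (pN z) ((idx a).map ptI) ((idx b).map ptI) := by
  have hp := pairwise_of_chkAll TL (good_TL hz) codes chkAll_true
  rw [List.pairwise_iff_getElem] at hp
  have la : 3 * a.1.val + a.2.val < TL.length := by rw [TL_length]; omega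
  have lb : 3 * b.1.val + b.2.val < TL.length := by rw [TL_length]; omega
  have ea := tlist_TL a
  have eb := tlist_TL b
  rw [List.getD_eq_getElem _ _ la] at ea
  rw [List.getD_eq_getElem _ _ lb] at eb
  rcases lt_trichotomy (3 * a.1.val + a.2.val) (3 * b.1.val + b.2.val) with h | h | h
  · rw [← ea, ← eb]
    exact hp _ _ la lb h
  · exfalso
    apply hab
    have h1 : a.1.val = b.1.val := by omega
    have h2 : a.2.val = b.2.val := by omega
    exact Prod.ext (Fin.ext h1) (Fin.ext h2)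
  · rw [← ea, ← eb]
    exact (hp _ _ lb la h).symm

/-- The separation property of the triangles. -/
theorem sep_tri (a b : Fin 48 × Fin 3) (hab : a ≠ b) : ∃ l : E3 →ᵃ[ℝ] ℝ,
    (∀ i ∈ tri a, l (pN z i) ≤ 0 ∧ (l (pN z i) = 0 → i ∈ tri b)) ∧
    (∀ i ∈ tri b, 0 ≤ l (pN z i) ∧ (l (pN z i) = 0 → i ∈ tri a)) := by
  obtain ⟨l, h1, h2⟩ := sepT_TL hz hab
  refine ⟨l, ?_, ?_⟩
  · intro i hi
    rw [mem_tri_iff hz] at hi
    obtain ⟨h3, h4⟩ := h1 (ptI i) (List.mem_map_of_mem hi)
    refine ⟨h3, fun h5 => ?_⟩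
    obtain ⟨q, hq, hq'⟩ := h4 h5
    obtain ⟨n, hn, rfl⟩ := List.mem_map.mp hq
    rw [mem_tri_iff hz]
    have : n = i.val := hq'
    rwa [← this]
  · intro i hi
    rw [mem_tri_iff hz] at hi
    obtain ⟨h3, h4⟩ := h2 (ptI i) (List.mem_map_of_mem hi)
    refine ⟨h3, fun h5 => ?_⟩
    obtain ⟨q, hq, hq'⟩ := h4 h5
    obtain ⟨n, hn, rfl⟩ := List.mem_map.mp hq
    rw [mem_tri_iff hz]
    have : n = i.val := hq'
    rwa [← this]

theorem detR_ne {u : ℤ × ℤ × ℤ} {a b c : ℕ} (ha : a < 48) (hb : b < 48) (hc : c < 48)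
    (h : nd u a b c = true) : detR u (pN z a) (pN z b) (pN z c) ≠ 0 := by
  have h1 := abs_le.mp (det_near (near_pN hz ha) (near_pN hz hb) (near_pN hz hc) u)
  unfold nd at h
  rcases Bool.or_eq_true _ _ ▸ h with h2 | h2
  · have h3 : 200000000000 * (nrmI u : ℝ) < detI u (ptI a) (ptI b) (ptI c) := by
      exact_mod_cast of_decide_eq_true h2
    intro h0
    rw [h0] at h1
    linarith [h1.1]
  · have h3 : (detI u (ptI a) (ptI b) (ptI c) : ℝ) < -200000000000 * nrmI u := by
      exact_mod_cast of_decide_eq_true h2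
    intro h0
    rw [h0] at h1
    linarith [h1.2]

end

theorem fN_lt (f : Fin 48) (i : Fin 5) : fN f i < 48 := by
  rw [← Fc_val]; exact (Fc f i).2

/-- The exact coefficient `c` of the plane of the face `f`. -/
noncomputable def nR (z : Fin 24 → ℝ) (f : ℕ) (c : Fin 3) : ℝ :=
  ((ns f c).1 : ℝ) * z (ns f c).2

/-- The exact incidences. -/
theorem plane_eq {z : Fin 24 → ℝ} (he : ∀ k, qval (eqQ k) (eqL k) (eqC k) z = 0) (f : Fin 48)
    (i : Fin 5) : nR z f 0 * pN z (Fc f i) 0 + nR z f 1 * pN z (Fc f i) 1 +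
      nR z f 2 * pN z (Fc f i) 2 = 10000000000000000 := by
  obtain ⟨k, hk, hL, hC⟩ := terms_spec f i
  have h1 := he k
  rw [hL, hC] at h1
  simp only [qval, List.map_nil, List.sum_nil, add_zero] at h1
  have h2 : ((terms f i).map fun t => (t.1 : ℝ) * z t.2.1 * z t.2.2).sum =
      ((eqQ k).map fun t => (t.1 : ℝ) * z t.2.1 * z t.2.2).sum := (hk.map _).sum_eq
  rw [← h2] at h1
  simp only [terms, List.map_cons, List.map_nil, List.sum_cons, List.sum_nil] at h1
  simp only [pN_apply, nR, Fc_val]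
  push_cast at h1
  have h3 : ((0 : Fin 3) : ℕ) = 0 := rfl
  have h4 : ((1 : Fin 3) : ℕ) = 1 := rfl
  have h5 : ((2 : Fin 3) : ℕ) = 2 := rfl
  rw [h3, h4, h5]
  linarith

theorem prod_near' {a b A B : ℝ} (ha : |a - A| ≤ 100) (hb : |b - B| ≤ 100)
    (hA : |A| ≤ 720000000) (hB : |B| ≤ 120000000) : |a * b - A * B| ≤ 100000000000 := by
  have e : a * b - A * B = (a - A) * (b - B) + A * (b - B) + B * (a - A) := by ring
  rw [e]
  have h1 : |(a - A) * (b - B)| ≤ 100 * 100 := by
    rw [abs_mul]; exact mul_le_mul ha hb (abs_nonneg _) (by norm_num)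
  have h2 : |A * (b - B)| ≤ 720000000 * 100 := by
    rw [abs_mul]; exact mul_le_mul hA hb (abs_nonneg _) (by norm_num)
  have h3 : |B * (a - A)| ≤ 120000000 * 100 := by
    rw [abs_mul]; exact mul_le_mul hB ha (abs_nonneg _) (by norm_num)
  refine (abs_add_three _ _ _).trans ?_
  linarith

theorem plane_near {z : Fin 24 → ℝ} (hz : ∀ i, |z i - zh i| ≤ (100 : ℤ)) (f n : Fin 48) :
    |(nR z f 0 * pN z n 0 + nR z f 1 * pN z n 1 + nR z f 2 * pN z n 2) - planeI f n| ≤
      300000000000 := by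
  have hz' : ∀ i, |z i - zh i| ≤ 100 := fun i => by simpa using hz i
  have key : ∀ c : Fin 3, |nR z f c * pN z n c -
      (((ns f c).1 * zh (ns f c).2 : ℤ) : ℝ) * (((vs n c).1 * zh (vs n c).2 : ℤ) : ℝ)| ≤
      100000000000 := by
    intro c
    refine prod_near' ?_ ?_ ?_ ?_
    · exact sign_near (ns_sign f c) (hz' _)
    · exact sign_near (vs_sign n c) (hz' _)
    · have := sign_small (ns_sign f c) (zh_small' f c)
      exact_mod_cast this
    · have := sign_small (vs_sign n c) (zh_small n c)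
      exact_mod_cast this
  have e : (nR z f 0 * pN z n 0 + nR z f 1 * pN z n 1 + nR z f 2 * pN z n 2) - planeI f n =
      (nR z f 0 * pN z n 0 -
      (((ns f 0).1 * zh (ns f 0).2 : ℤ) : ℝ) * (((vs n 0).1 * zh (vs n 0).2 : ℤ) : ℝ)) +
      (nR z f 1 * pN z n 1 -
      (((ns f 1).1 * zh (ns f 1).2 : ℤ) : ℝ) * (((vs n 1).1 * zh (vs n 1).2 : ℤ) : ℝ)) +
      (nR z f 2 * pN z n 2 -
      (((ns f 2).1 * zh (ns f 2).2 : ℤ) : ℝ) * (((vs n 2).1 * zh (vs n 2).2 : ℤ) : ℝ)) := by
    simp only [planeI]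
    push_cast
    ring
  rw [e]
  refine (abs_add_three _ _ _).trans ?_
  have k0 := key 0
  have k1 := key 1
  have k2 := key 2
  have h3 : ((0 : Fin 3) : ℕ) = 0 := rfl
  have h4 : ((1 : Fin 3) : ℕ) = 1 := rfl
  have h5 : ((2 : Fin 3) : ℕ) = 2 := rfl
  rw [h3] at k0
  rw [h4] at k1
  rw [h5] at k2
  linarith

end Pool.Agent.MPf7203b
end

section

/-!
The polyhedron.
-/

namespace Pool.Agent.MPf7203b

/-- The vertices. -/
noncomputable def pt (z : Fin 24 → ℝ) (i : Fin 48) : E3 := pN z i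

/-- The vertices of the faces. -/
noncomputable def vert (z : Fin 24 → ℝ) (f : Fin 48) (i : Fin 5) : E3 := pt z (Fc f i)

/-- The faces. -/
noncomputable def reg (z : Fin 24 → ℝ) (f : Fin 48) : Set E3 :=
  convexHull ℝ {vert z f 0, vert z f 1, vert z f 2} ∪
  convexHull ℝ {vert z f 0, vert z f 2, vert z f 3} ∪
  convexHull ℝ {vert z f 0, vert z f 3, vert z f 4}

theorem mem_tri_face : ∀ (f : Fin 48) (k : Fin 3) (i : Fin 5), Fc f i ∈ tri (f, k) ↔
    i.val = 0 ∨ i.val = k.val + 1 ∨ i.val = k.val + 2 := by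
  decide +kernel

theorem exists_tri_mem : ∀ i : Fin 48, ∃ a, i ∈ tri a := by
  decide +kernel

theorem mem_tri {a : Fin 48 × Fin 3} {i : Fin 48} (h : i ∈ tri a) : ∃ j, Fc a.1 j = i := by
  simp only [tri, Finset.mem_insert, Finset.mem_singleton] at h
  rcases h with rfl | rfl | rfl
  · exact ⟨_, rfl⟩
  · exact ⟨_, rfl⟩
  · exact ⟨_, rfl⟩

theorem vert_mem_reg (z : Fin 24 → ℝ) (f : Fin 48) (i : Fin 5) : vert z f i ∈ reg z f := by
  unfold reg
  fin_cases i
  · exact Or.inl (Or.inl (subset_convexHull ℝ _ (by simp)))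
  · exact Or.inl (Or.inl (subset_convexHull ℝ _ (by simp)))
  · exact Or.inl (Or.inl (subset_convexHull ℝ _ (by simp)))
  · exact Or.inl (Or.inr (subset_convexHull ℝ _ (by simp)))
  · exact Or.inr (subset_convexHull ℝ _ (by simp))

theorem mem_reg_iff (z : Fin 24 → ℝ) (f : Fin 48) (x : E3) : x ∈ reg z f ↔
    ∃ (k : Fin 3) (y : Fin 48 → ℝ), (∀ i, 0 ≤ y i) ∧ ∑ i, y i = 1 ∧
      (∀ i, y i ≠ 0 → i ∈ tri (f, k)) ∧ ext (pt z) y = x := by
  unfold reg vert
  rw [Set.mem_union, Set.mem_union, mem_hull_iff, mem_hull_iff, mem_hull_iff]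
  constructor
  · rintro ((⟨y, h⟩ | ⟨y, h⟩) | ⟨y, h⟩)
    · exact ⟨0, y, h⟩
    · exact ⟨1, y, h⟩
    · exact ⟨2, y, h⟩
  · rintro ⟨k, y, h⟩
    fin_cases k
    · exact Or.inl (Or.inl ⟨y, h⟩)
    · exact Or.inl (Or.inr ⟨y, h⟩)
    · exact Or.inr ⟨y, h⟩

theorem iUnion_reg (z : Fin 24 → ℝ) :
    (⋃ f, reg z f) = ext (pt z) '' realiz (Set.range tri) := by
  ext x
  simp only [Set.mem_iUnion, mem_reg_iff, Set.mem_image, realiz, Set.mem_setOf_eq,
    Set.mem_range]
  constructor
  · rintro ⟨f, k, y, h0, h1, h2, h3⟩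
    exact ⟨y, ⟨h0, h1, tri (f, k), ⟨(f, k), rfl⟩, h2⟩, h3⟩
  · rintro ⟨y, ⟨h0, h1, _, ⟨a, rfl⟩, h2⟩, h3⟩
    exact ⟨a.1, a.2, y, h0, h1, h2, h3⟩

section

variable {z : Fin 24 → ℝ} (hz : ∀ i, |z i - zh i| ≤ (100 : ℤ))
include hz

theorem inj_realiz : Set.InjOn (ext (pt z)) (realiz (Set.range tri)) := by
  refine injOn_realiz (pt z) tri (fun a b hab => sep_tri hz a b hab) ?_
  intro a x y hx hy hs he
  obtain ⟨f, k⟩ := a
  have hAB : Fc f 0 ≠ Fc f ⟨k + 1, by omega⟩ := fun h => by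
    have h2 : (_ : ℕ) = _ := congrArg Fin.val (Fc_inj f _ _ h)
    simp only [Fin.val_zero] at h2
    omega
  have hAC : Fc f 0 ≠ Fc f ⟨k + 2, by omega⟩ := fun h => by
    have h2 : (_ : ℕ) = _ := congrArg Fin.val (Fc_inj f _ _ h)
    simp only [Fin.val_zero] at h2
    omega
  have hBC : Fc f ⟨k + 1, by omega⟩ ≠ Fc f ⟨k + 2, by omega⟩ := fun h => by
    have h2 : (_ : ℕ) = _ := congrArg Fin.val (Fc_inj f _ _ h)
    simp only at h2
    omega
  have hsum : ∀ (w : Fin 48 → ℝ), (∀ i, w i ≠ 0 → i ∈ tri (f, k)) →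
      ∑ i, w i = w (Fc f 0) + w (Fc f ⟨k + 1, by omega⟩) + w (Fc f ⟨k + 2, by omega⟩) := by
    intro w hw
    have : ∑ i, w i = ∑ i ∈ tri (f, k), w i := by
      symm
      refine Finset.sum_subset (Finset.subset_univ _) ?_
      intro i _ hi
      by_contra hne
      exact hi (hw i hne)
    rw [this, tri, Finset.sum_insert (by simp [hAB, hAC]), Finset.sum_insert (by simp [hBC]),
      Finset.sum_singleton]
    ring
  have hext : ∀ (w : Fin 48 → ℝ), (∀ i, w i ≠ 0 → i ∈ tri (f, k)) →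
      ext (pt z) w = w (Fc f 0) • pt z (Fc f 0) +
        w (Fc f ⟨k + 1, by omega⟩) • pt z (Fc f ⟨k + 1, by omega⟩) +
        w (Fc f ⟨k + 2, by omega⟩) • pt z (Fc f ⟨k + 2, by omega⟩) := by
    intro w hw
    have : ext (pt z) w = ∑ i ∈ tri (f, k), w i • pt z i := by
      symm
      refine Finset.sum_subset (Finset.subset_univ _) ?_
      intro i _ hi
      have h0 : w i = 0 := by
        by_contra hne
        exact hi (hw i hne)
      simp [h0]
    rw [this, tri, Finset.sum_insert (by simp [hAB, hAC]), Finset.sum_insert (by simp [hBC]),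
      Finset.sum_singleton, add_assoc]
  rw [hsum x hx, hsum y hy] at hs
  rw [hext x hx, hext y hy] at he
  have hd : detR (UL.getD f (0, 0, 0)) (pt z (Fc f 0)) (pt z (Fc f ⟨k + 1, by omega⟩))
      (pt z (Fc f ⟨k + 2, by omega⟩)) ≠ 0 := by
    have h1 := tri_nd (f, k)
    have e0 : fN f 0 = (Fc f 0).val := (Fc_val f 0).symm
    have e1 : fN f (k + 1) = (Fc f ⟨k + 1, by omega⟩).val := (Fc_val f ⟨k + 1, by omega⟩).symm
    have e2 : fN f (k + 2) = (Fc f ⟨k + 2, by omega⟩).val := (Fc_val f ⟨k + 2, by omega⟩).symm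
    simp only [e0, e1, e2] at h1
    exact detR_ne hz (Fc f 0).2 (Fc f ⟨k + 1, by omega⟩).2 (Fc f ⟨k + 2, by omega⟩).2 h1
  obtain ⟨e0, e1, e2⟩ := bary_unique hd hs he
  funext i
  by_cases hi : i ∈ tri (f, k)
  · simp only [tri, Finset.mem_insert, Finset.mem_singleton] at hi
    rcases hi with rfl | rfl | rfl
    · exact e0
    · exact e1
    · exact e2
  · have hx0 : x i = 0 := by
      by_contra hne
      exact hi (hx i hne)
    have hy0 : y i = 0 := by
      by_contra hne
      exact hi (hy i hne)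
    rw [hx0, hy0]

theorem pt_injective : Function.Injective (pt z) := by
  intro i j hij
  have hmem : ∀ i : Fin 48, (Pi.single i 1 : Fin 48 → ℝ) ∈ realiz (Set.range tri) := by
    intro i
    obtain ⟨a, ha⟩ := exists_tri_mem i
    refine ⟨fun j => ?_, by simp, tri a, ⟨a, rfl⟩, fun j hj => ?_⟩
    · simp only [Pi.single_apply]
      split_ifs <;> norm_num
    · have : j = i := by
        by_contra hne
        exact hj (by simp [hne])
      rw [this]; exact ha
  have hext : ∀ i : Fin 48, ext (pt z) (Pi.single i 1) = pt z i := by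
    intro i
    unfold ext
    rw [Finset.sum_eq_single i]
    · simp
    · intro j _ hj
      simp [hj]
    · simp
  have h := inj_realiz hz (hmem i) (hmem j) (by rw [hext, hext, hij])
  by_contra hne
  have := congrFun h i
  simp [hne] at this

theorem mk_eq_iff {f g : Fin 48} {i j : Fin 5} :
    s(vert z f i, vert z f (i + 1)) = s(vert z g j, vert z g (j + 1)) ↔
    s(Fc f i, Fc f (i + 1)) = s(Fc g j, Fc g (j + 1)) := by
  have hinj := pt_injective hz
  simp only [vert, Sym2.eq_iff]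
  constructor
  · rintro (⟨h1, h2⟩ | ⟨h1, h2⟩)
    · exact Or.inl ⟨hinj h1, hinj h2⟩
    · exact Or.inr ⟨hinj h1, hinj h2⟩
  · rintro (⟨h1, h2⟩ | ⟨h1, h2⟩)
    · exact Or.inl ⟨by rw [h1], by rw [h2]⟩
    · exact Or.inr ⟨by rw [h1], by rw [h2]⟩

theorem corner_vert (f : Fin 48) (i : Fin 5) :
    ¬ Collinear ℝ {vert z f i, vert z f (i + 1), vert z f (i + 2)} :=
  not_collinear_of_det (detR_ne hz (Fc f i).2 (Fc f (i + 1)).2 (Fc f (i + 2)).2 (corner_nd f i))

theorem isPolygon_face (he : ∀ k, qval (eqQ k) (eqL k) (eqC k) z = 0) (f : Fin 48) :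
    IsPolygon (vert z f) (reg z f) := by
  refine isPolygon_fan (vert z f) ?_ (corner_vert hz f) ?_ ?_ ?_
  · refine coplanar_of_plane (a := nR z f 0) (b := nR z f 1) (c := nR z f 2)
      (d := 10000000000000000) ?_ ?_
    · rintro ⟨h0, h1, h2⟩
      have := plane_eq he f 0
      rw [h0, h1, h2] at this
      norm_num at this
    · rintro _ ⟨i, rfl⟩
      exact plane_eq he f i
  · obtain ⟨l, h1, h2⟩ := sep_tri hz (f, 0) (f, 1) (by simp)
    have a0 := h1 _ ((mem_tri_face f 0 0).mpr (by decide))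
    have a1 := h1 _ ((mem_tri_face f 0 1).mpr (by decide))
    have a2 := h1 _ ((mem_tri_face f 0 2).mpr (by decide))
    have b0 := h2 _ ((mem_tri_face f 1 0).mpr (by decide))
    have b2 := h2 _ ((mem_tri_face f 1 2).mpr (by decide))
    have b3 := h2 _ ((mem_tri_face f 1 3).mpr (by decide))
    refine ⟨l, le_antisymm a0.1 b0.1, le_antisymm a2.1 b2.1, ?_, ?_⟩
    · exact lt_of_le_of_ne a1.1 fun h => absurd ((mem_tri_face f 1 1).mp (a1.2 h)) (by decide)
    · exact lt_of_le_of_ne b3.1 fun h =>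
        absurd ((mem_tri_face f 0 3).mp (b3.2 h.symm)) (by decide)
  · obtain ⟨l, h1, h2⟩ := sep_tri hz (f, 1) (f, 2) (by simp)
    have a0 := h1 _ ((mem_tri_face f 1 0).mpr (by decide))
    have a2 := h1 _ ((mem_tri_face f 1 2).mpr (by decide))
    have a3 := h1 _ ((mem_tri_face f 1 3).mpr (by decide))
    have b0 := h2 _ ((mem_tri_face f 2 0).mpr (by decide))
    have b3 := h2 _ ((mem_tri_face f 2 3).mpr (by decide))
    have b4 := h2 _ ((mem_tri_face f 2 4).mpr (by decide))
    refine ⟨l, le_antisymm a0.1 b0.1, le_antisymm a3.1 b3.1, ?_, ?_⟩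
    · exact lt_of_le_of_ne a2.1 fun h => absurd ((mem_tri_face f 2 2).mp (a2.2 h)) (by decide)
    · exact lt_of_le_of_ne b4.1 fun h =>
        absurd ((mem_tri_face f 1 4).mp (b4.2 h.symm)) (by decide)
  · obtain ⟨l, h1, h2⟩ := sep_tri hz (f, 0) (f, 2) (by simp)
    have a0 := h1 _ ((mem_tri_face f 0 0).mpr (by decide))
    have a1 := h1 _ ((mem_tri_face f 0 1).mpr (by decide))
    have a2 := h1 _ ((mem_tri_face f 0 2).mpr (by decide))
    have b0 := h2 _ ((mem_tri_face f 2 0).mpr (by decide))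
    have b3 := h2 _ ((mem_tri_face f 2 3).mpr (by decide))
    have b4 := h2 _ ((mem_tri_face f 2 4).mpr (by decide))
    refine ⟨l, le_antisymm a0.1 b0.1, ?_, ?_, ?_, ?_⟩
    · exact lt_of_le_of_ne a1.1 fun h => absurd ((mem_tri_face f 2 1).mp (a1.2 h)) (by decide)
    · exact lt_of_le_of_ne a2.1 fun h => absurd ((mem_tri_face f 2 2).mp (a2.2 h)) (by decide)
    · exact lt_of_le_of_ne b3.1 fun h =>
        absurd ((mem_tri_face f 0 3).mp (b3.2 h.symm)) (by decide)
    · exact lt_of_le_of_ne b4.1 fun h =>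
        absurd ((mem_tri_face f 0 4).mp (b4.2 h.symm)) (by decide)

end

end Pool.Agent.MPf7203b
end

section

/-!
The polyhedron is equivelar of type `{5,5}`.
-/

namespace Pool.Agent.MPf7203b

theorem isEdge_imp {f : Fin 48} {a b : ℕ} (h : isEdge f a b = true) :
    ∃ i : Fin 5, ((Fc f i).val = a ∧ (Fc f (i + 1)).val = b) ∨
      ((Fc f i).val = b ∧ (Fc f (i + 1)).val = a) := by
  unfold isEdge at h
  obtain ⟨i, hi, h⟩ := List.any_eq_true.mp h
  rw [List.mem_range] at hi
  have e1 : (Fc f ⟨i, hi⟩).val = fN f i := Fc_val f ⟨i, hi⟩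
  have e2 : (Fc f (⟨i, hi⟩ + 1)).val = fN f ((i + 1) % 5) := by
    rw [Fc_val]
    congr 1
  refine ⟨⟨i, hi⟩, ?_⟩
  rw [e1, e2]
  rcases Bool.or_eq_true _ _ ▸ h with h1 | h1
  · obtain ⟨h2, h3⟩ := Bool.and_eq_true _ _ ▸ h1
    exact Or.inl ⟨Nat.eq_of_beq_eq_true h2, Nat.eq_of_beq_eq_true h3⟩
  · obtain ⟨h2, h3⟩ := Bool.and_eq_true _ _ ▸ h1
    exact Or.inr ⟨Nat.eq_of_beq_eq_true h2, Nat.eq_of_beq_eq_true h3⟩

theorem idN_eq (f : Fin 48) (k : Fin 3) : idN f k = idx (f, k) := rfl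

theorem inter_comb {f g : Fin 48} (hfg : f ≠ g) (k l : Fin 3) :
    (∃ a : ℕ, ∀ i : Fin 48, i ∈ tri (f, k) → i ∈ tri (g, l) → i.val = a) ∨
    (∃ a b : ℕ, isEdge f a b = true ∧ isEdge g a b = true ∧
      ∀ i : Fin 48, i ∈ tri (f, k) → i ∈ tri (g, l) → i.val = a ∨ i.val = b) := by
  have hm : ∀ (f : Fin 48) (k : Fin 3), (f.val, idN f k) ∈ TI := by
    intro f k
    unfold TI
    rw [List.mem_flatMap]
    refine ⟨f, List.mem_range.mpr f.2, ?_⟩
    rw [List.mem_map]
    exact ⟨k, List.mem_range.mpr k.2, rfl⟩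
  have h := inter_all
  rw [List.all_eq_true] at h
  have h1 := h _ (hm f k)
  rw [List.all_eq_true] at h1
  have h2 := h1 _ (hm g l)
  have h3 : interOK f g (idN f k) (idN g l) = true := by
    rcases Bool.or_eq_true _ _ ▸ h2 with h4 | h4
    · exact absurd (Fin.ext (Nat.eq_of_beq_eq_true h4)) hfg
    · exact h4
  have hmem : ∀ i : Fin 48, i ∈ tri (f, k) → i ∈ tri (g, l) →
      i.val ∈ (idN f k).filter (fun a => (idN g l).any (Nat.beq a)) := by
    intro i hi hi'
    have e1 : i.val ∈ idN f k := by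
      simp only [tri, Finset.mem_insert, Finset.mem_singleton, Fin.ext_iff, Fc_val] at hi
      simpa [idN] using hi
    have e2 : i.val ∈ idN g l := by
      simp only [tri, Finset.mem_insert, Finset.mem_singleton, Fin.ext_iff, Fc_val] at hi'
      simpa [idN] using hi'
    rw [List.mem_filter]
    refine ⟨e1, ?_⟩
    rw [List.any_eq_true]
    exact ⟨i.val, e2, Nat.beq_refl _⟩
  unfold interOK at h3
  split at h3
  · rename_i he
    left
    refine ⟨0, fun i hi hi' => ?_⟩
    have := hmem i hi hi'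
    rw [he] at this
    simp at this
  · rename_i a he
    left
    refine ⟨a, fun i hi hi' => ?_⟩
    have := hmem i hi hi'
    rw [he] at this
    simpa using this
  · rename_i a b he
    right
    obtain ⟨h4, h5⟩ := Bool.and_eq_true _ _ ▸ h3
    refine ⟨a, b, h4, h5, fun i hi hi' => ?_⟩
    have := hmem i hi hi'
    rw [he] at this
    simpa using this
  · exact absurd h3 (by simp)

theorem edge_unique {f g : Fin 48} {i j : Fin 5}
    (h : s(Fc f i, Fc f (i + 1)) = s(Fc g j, Fc g (j + 1))) : (f = g ∧ i = j) ∨ nbF f i = g := by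
  have hm : ∀ (f : Fin 48) (i : Fin 5),
      ((Fc f i).val, (Fc f (i + 1)).val, f.val, i.val) ∈ EL := by
    intro f i
    unfold EL
    rw [List.mem_flatMap]
    refine ⟨f, List.mem_range.mpr f.2, ?_⟩
    rw [List.mem_map]
    refine ⟨i, List.mem_range.mpr i.2, ?_⟩
    rw [Fc_val, Fc_val]
    rfl
  have h1 := edge_all
  rw [List.all_eq_true] at h1
  have h2 := h1 _ (hm f i)
  rw [List.all_eq_true] at h2
  have h3 := h2 _ (hm g j)
  unfold edgeOK at h3
  simp only at h3
  rcases Bool.or_eq_true _ _ ▸ h3 with h4 | h4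
  · exfalso
    rw [Bool.not_eq_true'] at h4
    rw [Bool.or_eq_false_iff] at h4
    obtain ⟨h5, h6⟩ := h4
    rw [Sym2.eq_iff] at h
    rcases h with ⟨e1, e2⟩ | ⟨e1, e2⟩
    · rw [e1, e2, Nat.beq_refl, Nat.beq_refl] at h5
      simp at h5
    · rw [e1, e2, Nat.beq_refl, Nat.beq_refl] at h6
      simp at h6
  · rcases Bool.or_eq_true _ _ ▸ h4 with h5 | h5
    · obtain ⟨h6, h7⟩ := Bool.and_eq_true _ _ ▸ h5
      exact Or.inl ⟨Fin.ext (Nat.eq_of_beq_eq_true h6), Fin.ext (Nat.eq_of_beq_eq_true h7)⟩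
    · right
      have h6 := Nat.eq_of_beq_eq_true h5
      have e1 : (⟨f.val % 48, Nat.mod_lt _ (by norm_num)⟩ : Fin 48) = f :=
        Fin.ext (Nat.mod_eq_of_lt f.2)
      have e2 : (⟨i.val % 5, Nat.mod_lt _ (by norm_num)⟩ : Fin 5) = i :=
        Fin.ext (Nat.mod_eq_of_lt i.2)
      rw [e1, e2] at h6
      exact Fin.ext h6

theorem link_tri (v : Fin 48) : ∃ k : ℕ, 3 ≤ k ∧ ∃ w : ZMod k → Fin 48,
    Function.Injective w ∧ (∀ j, w j ≠ v) ∧
    ∀ t, (t ∈ Set.range tri ∧ v ∈ t) ↔ ∃ j, t = {v, w j, w (j + 1)} := by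
  obtain ⟨hnd, h3, hv, hlen⟩ := lk_spec v
  have : NeZero (lk v).length := ⟨by omega⟩
  have hval : ∀ j : ZMod (lk v).length, j.val < (lk v).length := fun j => ZMod.val_lt j
  have hval1 : ∀ j : ZMod (lk v).length, (j + 1).val = (j.val + 1) % (lk v).length := by
    intro j
    have : j + 1 = ((j.val + 1 : ℕ) : ZMod (lk v).length) := by
      push_cast
      rw [ZMod.natCast_zmod_val]
    rw [this, ZMod.val_natCast]
  refine ⟨(lk v).length, h3, fun j => (lk v).getD j.val 0, ?_, ?_, ?_⟩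
  · intro i j hij
    simp only [List.getD_eq_getElem _ _ (hval i), List.getD_eq_getElem _ _ (hval j)] at hij
    exact ZMod.val_injective _ ((hnd.getElem_inj_iff).mp hij)
  · intro j hj
    simp only [List.getD_eq_getElem _ _ (hval j)] at hj
    have h9 := List.getElem_mem (hval j)
    rw [hj] at h9
    exact hv h9
  · intro t
    constructor
    · rintro ⟨⟨a, rfl⟩, hva⟩
      have h4 := lt_mem a v hva
      obtain ⟨j, hj, hja⟩ := List.getElem_of_mem h4
      have hj' : j < (lk v).length := by rw [← hlen]; exact hj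
      refine ⟨(j : ZMod (lk v).length), ?_⟩
      have h5 := lk_tri v j (List.mem_range.mpr hj')
      rw [List.getD_eq_getElem _ _ hj, hja] at h5
      have e1 : ((j : ZMod (lk v).length)).val = j := ZMod.val_cast_of_lt hj'
      simp only [hval1, e1]
      exact h5
    · rintro ⟨j, rfl⟩
      have h5 := lk_tri v j.val (List.mem_range.mpr (hval j))
      simp only [hval1]
      rw [← h5]
      refine ⟨⟨_, rfl⟩, ?_⟩
      rw [h5]
      simp

section

variable {z : Fin 24 → ℝ} (hz : ∀ i, |z i - zh i| ≤ (100 : ℤ))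
include hz

theorem inter_faces {f g : Fin 48} (hfg : f ≠ g) {x : E3} (hx : x ∈ reg z f ∩ reg z g) :
    (∃ i j, vert z f i = x ∧ vert z g j = x) ∨
    ∃ i j, s(vert z f i, vert z f (i + 1)) = s(vert z g j, vert z g (j + 1)) ∧
      x ∈ segment ℝ (vert z f i) (vert z f (i + 1)) := by
  obtain ⟨hxf, hxg⟩ := hx
  obtain ⟨k, y, hy0, hy1, hys, hyx⟩ := (mem_reg_iff z f x).mp hxf
  obtain ⟨l, y', hy0', hy1', hys', hyx'⟩ := (mem_reg_iff z g x).mp hxg
  have hyy : y = y' := inj_realiz hz ⟨hy0, hy1, _, ⟨_, rfl⟩, hys⟩ ⟨hy0', hy1', _, ⟨_, rfl⟩, hys'⟩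
    (hyx.trans hyx'.symm)
  subst hyy
  have hex : ∃ i, y i ≠ 0 := by
    by_contra hne
    push Not at hne
    simp [hne] at hy1
  rcases inter_comb hfg k l with ⟨a, ha⟩ | ⟨a, b, hea, heb, hab⟩
  · left
    obtain ⟨i, hi⟩ := hex
    have hia := ha i (hys i hi) (hys' i hi)
    have hall : ∀ j, j ≠ i → y j = 0 := by
      intro j hj
      by_contra hne
      exact hj (Fin.ext ((ha j (hys j hne) (hys' j hne)).trans hia.symm))
    have hyi : y i = 1 := by
      rw [← hy1]
      exact (Finset.sum_eq_single i (fun j _ hj => hall j hj) (by simp)).symm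
    have hxi : x = pt z i := by
      rw [← hyx, ext, Finset.sum_eq_single i (fun j _ hj => by rw [hall j hj, zero_smul])
        (by simp), hyi, one_smul]
    obtain ⟨j, hj⟩ := mem_tri (hys i hi)
    obtain ⟨j', hj'⟩ := mem_tri (hys' i hi)
    refine ⟨j, j', ?_, ?_⟩
    · rw [vert, hj, hxi]
    · rw [vert, hj', hxi]
  · right
    obtain ⟨i, hi⟩ := isEdge_imp hea
    obtain ⟨j, hj⟩ := isEdge_imp heb
    refine ⟨i, j, (mk_eq_iff hz).mpr ?_, ?_⟩
    · rw [Sym2.eq_iff]
      rcases hi with ⟨h1, h2⟩ | ⟨h1, h2⟩ <;> rcases hj with ⟨h3, h4⟩ | ⟨h3, h4⟩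
      · exact Or.inl ⟨Fin.ext (h1.trans h3.symm), Fin.ext (h2.trans h4.symm)⟩
      · exact Or.inr ⟨Fin.ext (h1.trans h4.symm), Fin.ext (h2.trans h3.symm)⟩
      · exact Or.inr ⟨Fin.ext (h1.trans h4.symm), Fin.ext (h2.trans h3.symm)⟩
      · exact Or.inl ⟨Fin.ext (h1.trans h3.symm), Fin.ext (h2.trans h4.symm)⟩
    · have hsupp : ∀ m, y m ≠ 0 → m = Fc f i ∨ m = Fc f (i + 1) := by
        intro m hm
        rcases hab m (hys m hm) (hys' m hm) with h5 | h5 <;> rcases hi with ⟨h1, h2⟩ | ⟨h1, h2⟩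
        · exact Or.inl (Fin.ext (h5.trans h1.symm))
        · exact Or.inr (Fin.ext (h5.trans h2.symm))
        · exact Or.inr (Fin.ext (h5.trans h2.symm))
        · exact Or.inl (Fin.ext (h5.trans h1.symm))
      have hne : Fc f i ≠ Fc f (i + 1) := by
        intro h
        have := Fc_inj f _ _ h
        revert this
        clear * -
        revert i
        decide
      have e1 : ∑ m ∈ ({Fc f i, Fc f (i + 1)} : Finset (Fin 48)), y m = 1 := by
        rw [← hy1]
        refine Finset.sum_subset (Finset.subset_univ _) ?_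
        intro m _ hm
        by_contra h0
        rcases hsupp m h0 with h | h <;> simp [h] at hm
      have e2 : ∑ m ∈ ({Fc f i, Fc f (i + 1)} : Finset (Fin 48)), y m • pt z m = x := by
        rw [← hyx, ext]
        refine Finset.sum_subset (Finset.subset_univ _) ?_
        intro m _ hm
        have : y m = 0 := by
          by_contra h0
          rcases hsupp m h0 with h | h <;> simp [h] at hm
        rw [this, zero_smul]
      rw [Finset.sum_pair hne] at e1 e2
      exact ⟨y (Fc f i), y (Fc f (i + 1)), hy0 _, hy0 _, e1, e2⟩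

theorem two_faces (f : Fin 48) (i : Fin 5) : ∃! g, g ≠ f ∧
    ∃ j, s(vert z g j, vert z g (j + 1)) = s(vert z f i, vert z f (i + 1)) := by
  refine ⟨nbF f i, ⟨(nb_spec f i).1, nbP f i, (mk_eq_iff hz).mpr ?_⟩, ?_⟩
  · rw [Sym2.eq_iff]
    exact (nb_spec f i).2
  · rintro g ⟨hg, j, hj⟩
    rcases edge_unique ((mk_eq_iff hz).mp hj.symm) with ⟨h, -⟩ | h
    · exact absurd h.symm hg
    · exact h.symm

theorem not_coplanar_faces (he : ∀ k, qval (eqQ k) (eqL k) (eqC k) z = 0) {f g : Fin 48}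
    {i j : Fin 5} (hfg : f ≠ g)
    (h : s(vert z f i, vert z f (i + 1)) = s(vert z g j, vert z g (j + 1))) :
    ¬ Coplanar ℝ (reg z f ∪ reg z g) := by
  intro hc
  have hg : nbF f i = g := by
    rcases edge_unique ((mk_eq_iff hz).mp h) with ⟨h1, -⟩ | h1
    · exact absurd h1 hfg
    · exact h1
  set l := aff (nR z f 0) (nR z f 1) (nR z f 2) 10000000000000000 with hl
  have hv : ∀ i, l (vert z f i) = 0 := by
    intro i
    rw [hl, aff_apply]
    have := plane_eq he f i
    simp only [vert, pt]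
    linarith
  set k : Fin 5 := ⟨(NC.getD f []).getD i 0 % 5, Nat.mod_lt _ (by norm_num)⟩ with hk
  have h0 := eq_of_coplanar hc (p0 := vert z f 0) (p1 := vert z f 1) (p2 := vert z f 2)
    (Or.inl (vert_mem_reg z f 0)) (Or.inl (vert_mem_reg z f 1)) (Or.inl (vert_mem_reg z f 2))
    (corner_vert hz f 0) l (hv 0) (hv 1) (hv 2) (Or.inr (vert_mem_reg z g k))
  rw [hl, aff_apply] at h0
  have h1 := abs_le.mp (plane_near hz f (Fc g k))
  have h2 := plane_ne f i
  rw [hg] at h2
  have h3 : fN g ((NC.getD f []).getD i 0 % 5) = (Fc g k).val := (Fc_val g k).symm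
  rw [h3] at h2
  simp only [vert, pt] at h0
  rcases h2 with h2 | h2
  · have h4 : (planeI f (Fc g k) : ℝ) < 10000000000000000 - 300000000000 := by exact_mod_cast h2
    linarith [h1.2]
  · have h4 : (10000000000000000 : ℝ) + 300000000000 < planeI f (Fc g k) := by exact_mod_cast h2
    linarith [h1.1]

theorem valence_eq (f : Fin 48) (i : Fin 5) :
    {e : Sym2 E3 | (∃ g j, e = s(vert z g j, vert z g (j + 1))) ∧ vert z f i ∈ e}.ncard = 5 := by
  have hinj := pt_injective hz
  have hset : {e : Sym2 E3 | (∃ g j, e = s(vert z g j, vert z g (j + 1))) ∧ vert z f i ∈ e} =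
      (fun w => s(pt z (Fc f i), pt z w)) '' ((nbV (Fc f i)).toFinset : Set (Fin 48)) := by
    ext e
    simp only [Set.mem_setOf_eq, Set.mem_image, Finset.mem_coe, List.mem_toFinset]
    constructor
    · rintro ⟨⟨g, j, rfl⟩, hmem⟩
      rw [Sym2.mem_iff] at hmem
      obtain ⟨h1, h2⟩ := nbV_edge g j
      rcases hmem with h | h
      · have h' : Fc f i = Fc g j := hinj h
        refine ⟨Fc g (j + 1), by rw [h']; exact h1, ?_⟩
        rw [h']
        rfl
      · have h' : Fc f i = Fc g (j + 1) := hinj h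
        refine ⟨Fc g j, by rw [h']; exact h2, ?_⟩
        rw [h', Sym2.eq_swap]
        rfl
    · rintro ⟨w, hw, rfl⟩
      refine ⟨?_, by simp [vert]⟩
      obtain ⟨hnd, hlen, -⟩ := nbV_spec (Fc f i)
      obtain ⟨j, hj, hjw⟩ := List.getElem_of_mem hw
      have hj5 : j < 5 := by rw [← hlen]; exact hj
      have h1 := ep_spec (Fc f i) ⟨j, hj5⟩
      simp only [List.getD_eq_getElem _ _ hj, hjw] at h1
      refine ⟨(ep (Fc f i) j).1, (ep (Fc f i) j).2, ?_⟩
      simp only [vert]
      rw [Sym2.eq_iff]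
      rcases h1 with ⟨h2, h3⟩ | ⟨h2, h3⟩
      · exact Or.inl ⟨by rw [h2], by rw [h3]⟩
      · exact Or.inr ⟨by rw [h3], by rw [h2]⟩
  rw [hset, Set.ncard_image_of_injective, Set.ncard_coe_finset]
  · obtain ⟨hnd, hlen, -⟩ := nbV_spec (Fc f i)
    rw [List.toFinset_card_of_nodup hnd, hlen]
  · intro w w' h
    simp only [Sym2.eq_iff] at h
    rcases h with ⟨-, h⟩ | ⟨h1, h2⟩
    · exact hinj h
    · exact hinj (h2.trans h1)

omit hz in
theorem isCompact_reg (f : Fin 48) : IsCompact (reg z f) := by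
  unfold reg
  have h : ∀ a b c : E3, IsCompact (convexHull ℝ {a, b, c}) := fun a b c => isCompact_T a b c
  exact ((h _ _ _).union (h _ _ _)).union (h _ _ _)

omit hz in
theorem isConnected_reg (f : Fin 48) : IsConnected (reg z f) := by
  unfold reg
  have h : ∀ b c : E3, IsConnected (convexHull ℝ {vert z f 0, b, c}) := fun b c =>
    ⟨⟨vert z f 0, subset_convexHull ℝ _ (by simp)⟩, (convex_convexHull ℝ _).isPreconnected⟩
  have hm : ∀ b c : E3, vert z f 0 ∈ convexHull ℝ {vert z f 0, b, c} := fun b c =>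
    subset_convexHull ℝ _ (by simp)
  exact ((h _ _).union ⟨vert z f 0, hm _ _, hm _ _⟩ (h _ _)).union
    ⟨vert z f 0, Or.inl (hm _ _), hm _ _⟩ (h _ _)

omit hz in
theorem isConnected_iUnion : IsConnected (⋃ f, reg z f) := by
  refine IsConnected.iUnion_of_reflTransGen (fun f => isConnected_reg f) ?_
  have hstep : ∀ f, (reg z f ∩ reg z (par f)).Nonempty := by
    intro f
    obtain ⟨-, i, j, hij⟩ := par_spec f
    refine ⟨vert z f i, vert_mem_reg z f i, ?_⟩
    have : vert z f i = vert z (par f) j := by rw [vert, hij, vert]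
    rw [this]
    exact vert_mem_reg z (par f) j
  have hstep' : ∀ f, (reg z (par f) ∩ reg z f).Nonempty := fun f => by
    rw [Set.inter_comm]; exact hstep f
  have h0 : ∀ f, Relation.ReflTransGen (fun f g : Fin 48 => (reg z f ∩ reg z g).Nonempty) f 0 := by
    intro f
    have h1 := (par_spec f).1
    rw [← h1]
    exact (((Relation.ReflTransGen.single (hstep f)).tail (hstep _)).tail (hstep _)).tail
      (hstep _)
  have h0' : ∀ f, Relation.ReflTransGen (fun f g : Fin 48 => (reg z f ∩ reg z g).Nonempty) 0 f := by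
    intro f
    have h1 := (par_spec f).1
    rw [← h1]
    exact (((Relation.ReflTransGen.single (hstep' _)).tail (hstep' _)).tail (hstep' _)).tail
      (hstep' _)
  intro f g
  exact (h0 f).trans (h0' g)

theorem isEquivelar (he : ∀ k, qval (eqQ k) (eqL k) (eqC k) z = 0) :
    IsEquivelar 5 5 (vert z) (reg z) where
  polygon := isPolygon_face hz he
  inter := fun _ _ hfg _ hx => inter_faces hz hfg hx
  two_faces := two_faces hz
  not_coplanar := fun _ _ _ _ hfg h => not_coplanar_faces hz he hfg h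
  valence := valence_eq hz
  compact := isCompact_iUnion fun f => isCompact_reg f
  connected := isConnected_iUnion
  manifold := by
    rw [iUnion_reg]
    exact surface_of_links (Set.range tri) link_tri (ext (pt z)) (continuous_ext _)
      (inj_realiz hz)

end

end Pool.Agent.MPf7203b
end

section

/-!
Numbers of vertices and edges.
-/

namespace Pool.Agent.MPf7203b

/-- The edges in the interior order: each edge once, as a face and a position. -/
def EO : List (Fin 48 × Fin 5) :=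
  ((List.finRange 48).flatMap fun f => (List.finRange 5).map fun i => (f, i)).filter fun a =>
    decide (a.1 < nbF a.1 a.2)

theorem EO_length : EO.length = 120 := by decide +kernel

theorem EO_nodup : EO.Nodup := by decide +kernel

theorem mem_EO (a : Fin 48 × Fin 5) : a ∈ EO ↔ a.1 < nbF a.1 a.2 := by
  unfold EO
  rw [List.mem_filter]
  simp

section

variable {z : Fin 24 → ℝ} (hz : ∀ i, |z i - zh i| ≤ (100 : ℤ))
include hz

theorem ncard_vertices : {x : E3 | ∃ f i, vert z f i = x}.ncard = 48 := by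
  have h : {x : E3 | ∃ f i, vert z f i = x} = pt z '' Set.univ := by
    ext x
    simp only [Set.mem_setOf_eq, Set.image_univ, Set.mem_range]
    constructor
    · rintro ⟨f, i, rfl⟩
      exact ⟨Fc f i, rfl⟩
    · rintro ⟨v, rfl⟩
      obtain ⟨f, i, h⟩ := Fc_surj v
      exact ⟨f, i, by rw [vert, h]⟩
  rw [h, Set.ncard_image_of_injective _ (pt_injective hz), Set.ncard_univ, Nat.card_eq_fintype_card,
    Fintype.card_fin]

theorem ncard_edges :
    {e : Sym2 E3 | ∃ f i, e = s(vert z f i, vert z f (i + 1))}.ncard = 120 := by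
  have h : {e : Sym2 E3 | ∃ f i, e = s(vert z f i, vert z f (i + 1))} =
      (fun a : Fin 48 × Fin 5 => s(vert z a.1 a.2, vert z a.1 (a.2 + 1))) ''
        (EO.toFinset : Set (Fin 48 × Fin 5)) := by
    ext e
    simp only [Set.mem_setOf_eq, Set.mem_image, Finset.mem_coe, List.mem_toFinset, mem_EO]
    constructor
    · rintro ⟨f, i, rfl⟩
      rcases lt_or_gt_of_ne (nb_spec f i).1 with h | h
      · have e1 : s(vert z (nbF f i) (nbP f i), vert z (nbF f i) (nbP f i + 1)) =
            s(vert z f i, vert z f (i + 1)) := by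
          rw [mk_eq_iff hz, Sym2.eq_iff]
          exact (nb_spec f i).2
        refine ⟨(nbF f i, nbP f i), ?_, e1⟩
        rcases edge_unique ((mk_eq_iff hz).mp e1) with ⟨h1, -⟩ | h1
        · exact absurd h1 (nb_spec f i).1
        · rw [h1]; exact h
      · exact ⟨(f, i), h, rfl⟩
    · rintro ⟨⟨f, i⟩, -, rfl⟩
      exact ⟨f, i, rfl⟩
  rw [h, Set.ncard_image_of_injOn, Set.ncard_coe_finset, List.toFinset_card_of_nodup EO_nodup,
    EO_length]
  rintro ⟨f, i⟩ hf ⟨g, j⟩ hg he
  simp only [Finset.mem_coe, List.mem_toFinset, mem_EO] at hf hg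
  have h1 := (mk_eq_iff hz).mp he
  rcases edge_unique h1 with ⟨h2, h3⟩ | h2
  · exact Prod.ext h2 h3
  · exfalso
    rcases edge_unique h1.symm with ⟨h3, h4⟩ | h3
    · subst h3
      exact (nb_spec _ _).1 h2
    · rw [h2] at hf
      rw [h3] at hg
      exact lt_asymm hf hg

end

end Pool.Agent.MPf7203b
end
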