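import Mathlib

/-!
Definitions for problem `MP_f7203b_co`: planar polygons and equivelar polyhedra in Euclidean
3-space.
-/

namespace Pool.Agent.MPf7203b

/-- Euclidean 3-space. -/
abbrev E3 : Type := EuclideanSpace ℝ (Fin 3)

/-- `IsPolygon v R`: the point set `R` is a planar polygon (with its interior, not necessarily
convex) whose vertices are the `p` points `v 0, …, v (p - 1)` in cyclic order and whose edges are
the segments from `v i` to `v (i + 1)`, indices modulo `p`. -/
structure IsPolygon {p : ℕ} [NeZero p] (v : Fin p → E3) (R : Set E3) : Prop where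
  /-- The `p` vertices are distinct. -/
  injective : Function.Injective v
  /-- The boundary does not meet itself: a point on two different edges is an endpoint of both. -/
  simple : ∀ i j, i ≠ j → segment ℝ (v i) (v (i + 1)) ∩ segment ℝ (v j) (v (j + 1)) ⊆
    {v i, v (i + 1)} ∩ {v j, v (j + 1)}
  /-- Two edges sharing a vertex are not collinear. -/
  corner : ∀ i, ¬ Collinear ℝ {v i, v (i + 1), v (i + 2)}
  /-- The polygon is compact, -/
  compact : IsCompact R
  /-- lies in a plane, -/
  planar : Coplanar ℝ R
  /-- has an interior point relative to its plane, -/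
  solid : (intrinsicInterior ℝ R).Nonempty
  /-- and its boundary relative to its plane is the union of the edges. -/
  boundary : intrinsicFrontier ℝ R = ⋃ i, segment ℝ (v i) (v (i + 1))

/-- `IsEquivelar p q v R`: the `n` planar polygons `R f`, with vertices `v f i`, are the faces of
an equivelar polyhedron in Euclidean 3-space in which every face is a `p`-gon and every vertex is
`q`-valent. An edge is given by the unordered pair of its endpoints. -/
structure IsEquivelar (p q : ℕ) [NeZero p] {n : ℕ} (v : Fin n → Fin p → E3)
    (R : Fin n → Set E3) : Prop where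
  /-- Every face is a planar `p`-gon. -/
  polygon : ∀ f, IsPolygon (v f) (R f)
  /-- A point common to two faces is a common vertex or lies on a common edge. -/
  inter : ∀ f g, f ≠ g → ∀ x ∈ R f ∩ R g, (∃ i j, v f i = x ∧ v g j = x) ∨
    ∃ i j, s(v f i, v f (i + 1)) = s(v g j, v g (j + 1)) ∧ x ∈ segment ℝ (v f i) (v f (i + 1))
  /-- Every edge of a face is an edge of exactly one other face. -/
  two_faces : ∀ f i, ∃! g, g ≠ f ∧ ∃ j, s(v g j, v g (j + 1)) = s(v f i, v f (i + 1))
  /-- Two faces sharing an edge are not coplanar. -/
  not_coplanar : ∀ f g i j, f ≠ g → s(v f i, v f (i + 1)) = s(v g j, v g (j + 1)) →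
    ¬ Coplanar ℝ (R f ∪ R g)
  /-- Every vertex is incident with exactly `q` edges. -/
  valence : ∀ f i, {e : Sym2 E3 | (∃ g j, e = s(v g j, v g (j + 1))) ∧ v f i ∈ e}.ncard = q
  /-- The union of the faces is compact, -/
  compact : IsCompact (⋃ f, R f)
  /-- connected, -/
  connected : IsConnected (⋃ f, R f)
  /-- and a topological 2-manifold (without boundary). -/
  manifold : Nonempty (ChartedSpace (EuclideanSpace ℝ (Fin 2)) (⋃ f, R f : Set E3))

end Pool.Agent.MPf7203b
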