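import Mathlib

section

/-!
Existence of an exact real zero of a system of quadratic equations near an approximate zero
(Krawczyk / Newton-Kantorovich), with all the numerical conditions stated over the integers.
-/

namespace Pool.Agent.MPf7203b

open Metric Finset

theorem exists_zero_of_contraction {n : ℕ} (F : (Fin n → ℝ) → Fin n → ℝ) (z0 : Fin n → ℝ)
    (Y : Matrix (Fin n) (Fin n) ℝ) {r κ : ℝ} (hr : 0 ≤ r) (hκ0 : 0 ≤ κ) (hκ : κ < 1)
    (hY : ∀ u, Y.mulVec u = 0 → u = 0)
    (hc : ∀ z ∈ closedBall z0 r, ∀ z' ∈ closedBall z0 r,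
      ‖(z - z') - Y.mulVec (F z - F z')‖ ≤ κ * ‖z - z'‖)
    (h0 : ‖Y.mulVec (F z0)‖ ≤ (1 - κ) * r) : ∃ z ∈ closedBall z0 r, F z = 0 := by
  set Φ : (Fin n → ℝ) → (Fin n → ℝ) := fun z => z - Y.mulVec (F z) with hΦ
  have hsub : ∀ z z', Φ z - Φ z' = (z - z') - Y.mulVec (F z - F z') := by
    intro z z'
    simp only [hΦ, Matrix.mulVec_sub]
    abel
  have hz0 : z0 ∈ closedBall z0 r := mem_closedBall_self hr
  have hmaps : Set.MapsTo Φ (closedBall z0 r) (closedBall z0 r) := by
    intro z hz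
    have h1 := hc z hz z0 hz0
    rw [← hsub] at h1
    have h2 : ‖Φ z0 - z0‖ ≤ (1 - κ) * r := by
      have : Φ z0 - z0 = -(Y.mulVec (F z0)) := by simp [hΦ]
      rw [this, norm_neg]; exact h0
    have h3 : ‖z - z0‖ ≤ r := by simpa [dist_eq_norm] using hz
    rw [mem_closedBall, dist_eq_norm]
    calc ‖Φ z - z0‖ = ‖(Φ z - Φ z0) + (Φ z0 - z0)‖ := by congr 1; abel
      _ ≤ ‖Φ z - Φ z0‖ + ‖Φ z0 - z0‖ := norm_add_le _ _
      _ ≤ κ * ‖z - z0‖ + (1 - κ) * r := add_le_add h1 h2
      _ ≤ κ * r + (1 - κ) * r := by gcongr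
      _ = r := by ring
  have hcon : ContractingWith ⟨κ, hκ0⟩ (hmaps.restrict Φ _ _) := by
    refine ⟨by exact_mod_cast hκ, ?_⟩
    refine LipschitzWith.of_dist_le_mul ?_
    intro z z'
    have h1 := hc z z.2 z' z'.2
    rw [← hsub] at h1
    have h2 : dist (Φ z) (Φ z') ≤ κ * dist (z : Fin n → ℝ) z' := by
      simpa [dist_eq_norm] using h1
    exact h2
  obtain ⟨y, hy, hfix, -⟩ := ContractingWith.exists_fixedPoint' (isClosed_closedBall.isComplete)
    hmaps hcon hz0 (edist_ne_top _ _)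
  refine ⟨y, hy, hY _ ?_⟩
  have : Φ y = y := hfix
  simp only [hΦ] at this
  exact sub_eq_self.mp this

/-- If `X` is close to a left inverse of `Y` then `Y` is injective. -/
theorem mulVec_injective_of_approx {n : ℕ} (X Y : Matrix (Fin n) (Fin n) ℝ) {κ : ℝ} (hκ : κ < 1)
    (h : ∀ i, ∑ j, |(if i = j then (1 : ℝ) else 0) - (X * Y) i j| ≤ κ) (u : Fin n → ℝ)
    (hu : Y.mulVec u = 0) : u = 0 := by
  by_contra hne
  have hpos : 0 < ‖u‖ := norm_pos_iff.mpr hne
  have hle : ‖u‖ ≤ κ * ‖u‖ := by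
    have hκ0 : 0 ≤ κ := by
      rcases Nat.eq_zero_or_pos n with hn | hn
      · subst hn
        exact absurd (Subsingleton.elim u 0) hne
      · exact le_trans (Finset.sum_nonneg fun j _ => abs_nonneg _) (h ⟨0, hn⟩)
    rw [pi_norm_le_iff_of_nonneg (by positivity)]
    intro i
    have h1 : u i = ∑ j, ((if i = j then (1 : ℝ) else 0) - (X * Y) i j) * u j := by
      have h2 : ((X * Y).mulVec u) i = 0 := by
        rw [← Matrix.mulVec_mulVec, hu]; simp
      have h3 : ∑ j, (X * Y) i j * u j = 0 := h2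
      simp [sub_mul, Finset.sum_sub_distrib, h3]
    rw [h1, Real.norm_eq_abs]
    calc |∑ j, ((if i = j then (1 : ℝ) else 0) - (X * Y) i j) * u j|
        ≤ ∑ j, |((if i = j then (1 : ℝ) else 0) - (X * Y) i j) * u j| :=
          Finset.abs_sum_le_sum_abs _ _
      _ ≤ ∑ j, |(if i = j then (1 : ℝ) else 0) - (X * Y) i j| * ‖u‖ := by
          refine Finset.sum_le_sum fun j _ => ?_
          rw [abs_mul]
          exact mul_le_mul_of_nonneg_left (norm_le_pi_norm u j) (abs_nonneg _)
      _ = (∑ j, |(if i = j then (1 : ℝ) else 0) - (X * Y) i j|) * ‖u‖ := by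
          rw [Finset.sum_mul]
      _ ≤ κ * ‖u‖ := by gcongr; exact h i
  nlinarith

/-- The value at `z` of the quadratic polynomial with quadratic terms `Q` (triples
`(s, a, b)` standing for `s * z a * z b`), linear terms `L` (pairs `(s, a)` standing for `s * z a`)
and constant term `-C`. -/
def qval {n : ℕ} (Q : List (ℤ × Fin n × Fin n)) (L : List (ℤ × Fin n)) (C : ℤ) (z : Fin n → ℝ) :
    ℝ :=
  (Q.map fun t => (t.1 : ℝ) * z t.2.1 * z t.2.2).sum + (L.map fun t => (t.1 : ℝ) * z t.2).sum - C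

/-- The partial derivative with respect to `z j` at the integer point `x`. -/
def qder {n : ℕ} (Q : List (ℤ × Fin n × Fin n)) (L : List (ℤ × Fin n)) (x : Fin n → ℤ)
    (j : Fin n) : ℤ :=
  (Q.map fun t => t.1 * ((if t.2.1 = j then x t.2.2 else 0) +
    (if t.2.2 = j then x t.2.1 else 0))).sum +
  (L.map fun t => if t.2 = j then t.1 else 0).sum

theorem qval_sub_bound {n : ℕ} (Q : List (ℤ × Fin n × Fin n)) (L : List (ℤ × Fin n)) (C : ℤ)
    (x : Fin n → ℤ) (z z' : Fin n → ℝ) {r d : ℝ}
    (hz : ∀ i, |z i - x i| ≤ r) (hz' : ∀ i, |z' i - x i| ≤ r)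
    (hzz : ∀ i, |z i - z' i| ≤ d) :
    |qval Q L C z - qval Q L C z' - ∑ j, (qder Q L x j : ℝ) * (z j - z' j)| ≤
      ((Q.map fun t => |t.1|).sum : ℤ) * (2 * r) * d := by
  have hQ : |(Q.map fun t => (t.1 : ℝ) * z t.2.1 * z t.2.2).sum -
      (Q.map fun t => (t.1 : ℝ) * z' t.2.1 * z' t.2.2).sum -
      ∑ j, (((Q.map fun t => t.1 * ((if t.2.1 = j then x t.2.2 else 0) +
        (if t.2.2 = j then x t.2.1 else 0))).sum : ℤ) : ℝ) * (z j - z' j)| ≤
      ((Q.map fun t => |t.1|).sum : ℤ) * (2 * r) * d := by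
    induction Q with
    | nil => simp
    | cons t Q ih =>
      obtain ⟨s, a, b⟩ := t
      simp only [List.map_cons, List.sum_cons, Int.cast_add, add_mul, Finset.sum_add_distrib,
        Int.cast_mul]
      have e1 : ∑ j, (s : ℝ) * (((if a = j then x b else 0 : ℤ) : ℝ) +
          ((if b = j then x a else 0 : ℤ) : ℝ)) * (z j - z' j) =
          s * (x b * (z a - z' a) + x a * (z b - z' b)) := by
        have h1 : ∀ j, (s : ℝ) * (((if a = j then x b else 0 : ℤ) : ℝ) +
          ((if b = j then x a else 0 : ℤ) : ℝ)) * (z j - z' j) =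
          (if a = j then (s : ℝ) * x b * (z j - z' j) else 0) +
          (if b = j then (s : ℝ) * x a * (z j - z' j) else 0) := by
          intro j
          split_ifs <;> push_cast <;> ring
        simp only [h1, Finset.sum_add_distrib, Finset.sum_ite_eq, Finset.mem_univ, if_true]
        ring
      rw [e1]
      have e2 : |(s : ℝ) * z a * z b - s * z' a * z' b -
          s * (x b * (z a - z' a) + x a * (z b - z' b))| ≤ (|s| : ℤ) * (2 * r) * d := by
        have e3 : (s : ℝ) * z a * z b - s * z' a * z' b -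
          s * (x b * (z a - z' a) + x a * (z b - z' b)) =
          s * ((z a - x a) * (z b - z' b) + (z' b - x b) * (z a - z' a)) := by ring
        rw [e3, abs_mul]
        have h1 : |(z a - x a) * (z b - z' b) + (z' b - x b) * (z a - z' a)| ≤ 2 * r * d := by
          calc _ ≤ |(z a - x a) * (z b - z' b)| + |(z' b - x b) * (z a - z' a)| := abs_add_le _ _
            _ = |z a - x a| * |z b - z' b| + |z' b - x b| * |z a - z' a| := by
                rw [abs_mul, abs_mul]
            _ ≤ r * d + r * d := by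
                have hr : 0 ≤ r := le_trans (abs_nonneg _) (hz a)
                gcongr
                · exact hz a
                · exact hzz b
                · exact hz' b
                · exact hzz a
            _ = 2 * r * d := by ring
        rw [Int.cast_abs, mul_assoc]
        exact mul_le_mul_of_nonneg_left h1 (abs_nonneg _)
      have e4 : (s : ℝ) * z a * z b + (Q.map fun t => (t.1 : ℝ) * z t.2.1 * z t.2.2).sum -
          (s * z' a * z' b + (Q.map fun t => (t.1 : ℝ) * z' t.2.1 * z' t.2.2).sum) -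
          (s * (x b * (z a - z' a) + x a * (z b - z' b)) +
          ∑ j, (((Q.map fun t => t.1 * ((if t.2.1 = j then x t.2.2 else 0) +
          (if t.2.2 = j then x t.2.1 else 0))).sum : ℤ) : ℝ) * (z j - z' j)) =
          ((s : ℝ) * z a * z b - s * z' a * z' b -
          s * (x b * (z a - z' a) + x a * (z b - z' b))) +
          ((Q.map fun t => (t.1 : ℝ) * z t.2.1 * z t.2.2).sum -
          (Q.map fun t => (t.1 : ℝ) * z' t.2.1 * z' t.2.2).sum -
          ∑ j, (((Q.map fun t => t.1 * ((if t.2.1 = j then x t.2.2 else 0) +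
          (if t.2.2 = j then x t.2.1 else 0))).sum : ℤ) : ℝ) * (z j - z' j)) := by ring
      rw [e4]
      exact (abs_add_le _ _).trans (add_le_add e2 ih)
  have hL : ∀ L : List (ℤ × Fin n), (L.map fun t => (t.1 : ℝ) * z t.2).sum -
      (L.map fun t => (t.1 : ℝ) * z' t.2).sum =
      ∑ j, (((L.map fun t => if t.2 = j then t.1 else 0).sum : ℤ) : ℝ) * (z j - z' j) := by
    intro L
    induction L with
    | nil => simp
    | cons t L ih =>
      obtain ⟨s, a⟩ := t
      simp only [List.map_cons, List.sum_cons, Int.cast_add, add_mul, Finset.sum_add_distrib]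
      have h1 : ∑ j, ((if a = j then s else 0 : ℤ) : ℝ) * (z j - z' j) = s * (z a - z' a) := by
        have h2 : ∀ j, ((if a = j then s else 0 : ℤ) : ℝ) * (z j - z' j) =
            if a = j then (s : ℝ) * (z j - z' j) else 0 := by
          intro j; split_ifs <;> simp
        simp only [h2, Finset.sum_ite_eq, Finset.mem_univ, if_true]
      rw [h1, ← ih]
      ring
  have key : qval Q L C z - qval Q L C z' - ∑ j, (qder Q L x j : ℝ) * (z j - z' j) =
      (Q.map fun t => (t.1 : ℝ) * z t.2.1 * z t.2.2).sum -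
      (Q.map fun t => (t.1 : ℝ) * z' t.2.1 * z' t.2.2).sum -
      ∑ j, (((Q.map fun t => t.1 * ((if t.2.1 = j then x t.2.2 else 0) +
        (if t.2.2 = j then x t.2.1 else 0))).sum : ℤ) : ℝ) * (z j - z' j) := by
    simp only [qval, qder, Int.cast_add, add_mul, Finset.sum_add_distrib]
    rw [← hL L]
    ring
  rw [key]
  exact hQ

end Pool.Agent.MPf7203b
end

section

/-!
The existence theorem with integer hypotheses.
-/

namespace Pool.Agent.MPf7203b

open Metric Finset

/-- The integer value of a quadratic polynomial at an integer point. -/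
def qvalZ {n : ℕ} (Q : List (ℤ × Fin n × Fin n)) (L : List (ℤ × Fin n)) (C : ℤ) (x : Fin n → ℤ) :
    ℤ :=
  (Q.map fun t => t.1 * x t.2.1 * x t.2.2).sum + (L.map fun t => t.1 * x t.2).sum - C

theorem qval_intCast {n : ℕ} (Q : List (ℤ × Fin n × Fin n)) (L : List (ℤ × Fin n)) (C : ℤ)
    (x : Fin n → ℤ) : qval Q L C (fun i => (x i : ℝ)) = qvalZ Q L C x := by
  have h1 : (Q.map fun t => (t.1 : ℝ) * (x t.2.1 : ℝ) * (x t.2.2 : ℝ)).sum =
      ((Q.map fun t => t.1 * x t.2.1 * x t.2.2).sum : ℤ) := by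
    induction Q with
    | nil => simp
    | cons t Q ih => simp only [List.map_cons, List.sum_cons, ih]; push_cast; ring
  have h2 : (L.map fun t => (t.1 : ℝ) * (x t.2 : ℝ)).sum =
      ((L.map fun t => t.1 * x t.2).sum : ℤ) := by
    induction L with
    | nil => simp
    | cons t L ih => simp only [List.map_cons, List.sum_cons, ih]; push_cast; ring
  simp only [qval, qvalZ, h1, h2]
  push_cast
  ring

theorem exists_zero_of_int {n : ℕ} (Q : Fin n → List (ℤ × Fin n × Fin n))
    (L : Fin n → List (ℤ × Fin n)) (C : Fin n → ℤ) (x : Fin n → ℤ) (Y M : Fin n → Fin n → ℤ)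
    (q r η : ℤ) (hq : 0 < q) (hr : 0 < r)
    (hM : ∀ k j, qder (Q k) (L k) x j = M k j)
    (hη : ∀ k, ((Q k).map fun t => |t.1|).sum * (2 * r) ≤ η)
    (h1 : ∀ i, 2 * (∑ j, |(if i = j then q else 0) - ∑ k, Y i k * M k j| +
      η * ∑ k, |Y i k|) ≤ q)
    (h2 : ∀ i, 2 * ∑ j, |(if i = j then q else 0) - ∑ k, M i k * Y k j| ≤ q)
    (h0 : ∀ i, 2 * |∑ k, Y i k * qvalZ (Q k) (L k) (C k) x| ≤ q * r) :
    ∃ z : Fin n → ℝ, (∀ i, |z i - x i| ≤ r) ∧ ∀ k, qval (Q k) (L k) (C k) z = 0 := by
  have hqR : (0 : ℝ) < q := by exact_mod_cast hq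
  have hrR : (0 : ℝ) < r := by exact_mod_cast hr
  set F : (Fin n → ℝ) → Fin n → ℝ := fun z k => qval (Q k) (L k) (C k) z with hF
  set z0 : Fin n → ℝ := fun i => (x i : ℝ) with hz0
  set Yr : Matrix (Fin n) (Fin n) ℝ := Matrix.of fun i k => (Y i k : ℝ) / q with hYr
  set Mr : Matrix (Fin n) (Fin n) ℝ := Matrix.of fun i k => (M i k : ℝ) with hMr
  have hball : ∀ z, z ∈ closedBall z0 (r : ℝ) → ∀ i, |z i - x i| ≤ r := by
    intro z hz i
    rw [mem_closedBall, dist_pi_le_iff hrR.le] at hz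
    simpa [Real.dist_eq] using hz i
  -- injectivity of `Yr`
  have hinj : ∀ u, Yr.mulVec u = 0 → u = 0 := by
    refine fun u hu => mulVec_injective_of_approx Mr Yr (κ := 1 / 2) (by norm_num) ?_ u hu
    intro i
    have h := h2 i
    have h' : 2 * ∑ j, |(if i = j then (q : ℝ) else 0) - ∑ k, (M i k : ℝ) * Y k j| ≤ q := by
      exact_mod_cast h
    have e : ∀ j, |(if i = j then (1 : ℝ) else 0) - (Mr * Yr) i j| =
        |(if i = j then (q : ℝ) else 0) - ∑ k, (M i k : ℝ) * Y k j| / q := by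
      intro j
      rw [← abs_of_pos hqR, ← abs_div, abs_of_pos hqR]
      congr 1
      rw [Matrix.mul_apply, sub_div, Finset.sum_div]
      congr 1
      · split_ifs
        · rw [div_self hqR.ne']
        · simp
      · refine Finset.sum_congr rfl fun k _ => ?_
        simp only [hMr, hYr, Matrix.of_apply]
        ring
    simp only [e]
    rw [← Finset.sum_div, div_le_iff₀ hqR]
    linarith
  -- contraction
  have hcon : ∀ z ∈ closedBall z0 (r : ℝ), ∀ z' ∈ closedBall z0 (r : ℝ),
      ‖(z - z') - Yr.mulVec (F z - F z')‖ ≤ (1 / 2) * ‖z - z'‖ := by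
    intro z hz z' hz'
    have hd : ∀ i, |z i - z' i| ≤ ‖z - z'‖ := fun i => by
      have := norm_le_pi_norm (z - z') i
      simpa [Real.norm_eq_abs] using this
    have hb : ∀ k, |F z k - F z' k - ∑ j, (M k j : ℝ) * (z j - z' j)| ≤ η * ‖z - z'‖ := by
      intro k
      have := qval_sub_bound (Q k) (L k) (C k) x z z' (hball z hz)
        (hball z' hz') hd
      simp only [hM] at this
      refine this.trans ?_
      have h3 : (((Q k).map fun t => |t.1|).sum : ℤ) * (2 * (r : ℝ)) ≤ η := by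
        exact_mod_cast hη k
      exact mul_le_mul_of_nonneg_right h3 (norm_nonneg _)
    rw [pi_norm_le_iff_of_nonneg (by positivity)]
    intro i
    rw [Real.norm_eq_abs]
    have e1 : ((z - z') - Yr.mulVec (F z - F z')) i =
        ∑ j, ((if i = j then (q : ℝ) else 0) - ∑ k, (Y i k : ℝ) * M k j) / q * (z j - z' j) -
        ∑ k, (Y i k : ℝ) / q * (F z k - F z' k - ∑ j, (M k j : ℝ) * (z j - z' j)) := by
      have e2 : Yr.mulVec (F z - F z') i = ∑ k, (Y i k : ℝ) / q * (F z k - F z' k) := rfl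
      have e3 : ∑ k, (Y i k : ℝ) / q * (F z k - F z' k - ∑ j, (M k j : ℝ) * (z j - z' j)) =
          ∑ k, (Y i k : ℝ) / q * (F z k - F z' k) -
          ∑ k, (Y i k : ℝ) / q * ∑ j, (M k j : ℝ) * (z j - z' j) := by
        rw [← Finset.sum_sub_distrib]
        exact Finset.sum_congr rfl fun k _ => by ring
      have e4 : ∑ j, ((if i = j then (q : ℝ) else 0) - ∑ k, (Y i k : ℝ) * M k j) / q *
          (z j - z' j) = (z i - z' i) -
          ∑ k, (Y i k : ℝ) / q * ∑ j, (M k j : ℝ) * (z j - z' j) := by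
        have e5 : ∀ j, ((if i = j then (q : ℝ) else 0) - ∑ k, (Y i k : ℝ) * M k j) / q *
            (z j - z' j) = (if i = j then (z j - z' j) else 0) -
            ∑ k, (Y i k : ℝ) / q * ((M k j : ℝ) * (z j - z' j)) := by
          intro j
          rw [sub_div, sub_mul, Finset.sum_div, Finset.sum_mul]
          congr 1
          · split_ifs
            · rw [div_self hqR.ne', one_mul]
            · simp
          · exact Finset.sum_congr rfl fun k _ => by ring
        simp only [e5, Finset.sum_sub_distrib, Finset.sum_ite_eq, Finset.mem_univ, if_true]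
        rw [Finset.sum_comm]
        simp only [Finset.mul_sum]
      rw [e3, e4, Pi.sub_apply, Pi.sub_apply, e2]
      ring
    rw [e1]
    have b1 : |∑ j, ((if i = j then (q : ℝ) else 0) - ∑ k, (Y i k : ℝ) * M k j) / q *
        (z j - z' j)| ≤
        (∑ j, |(if i = j then (q : ℝ) else 0) - ∑ k, (Y i k : ℝ) * M k j|) / q *
        ‖z - z'‖ := by
      refine (Finset.abs_sum_le_sum_abs _ _).trans ?_
      rw [Finset.sum_div, Finset.sum_mul]
      refine Finset.sum_le_sum fun j _ => ?_
      rw [abs_mul, abs_div, abs_of_pos hqR]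
      exact mul_le_mul_of_nonneg_left (hd j) (by positivity)
    have b2 : |∑ k, (Y i k : ℝ) / q * (F z k - F z' k - ∑ j, (M k j : ℝ) * (z j - z' j))| ≤
        (∑ k, |(Y i k : ℝ)|) / q * (η * ‖z - z'‖) := by
      refine (Finset.abs_sum_le_sum_abs _ _).trans ?_
      rw [Finset.sum_div, Finset.sum_mul]
      refine Finset.sum_le_sum fun k _ => ?_
      rw [abs_mul, abs_div, abs_of_pos hqR]
      exact mul_le_mul_of_nonneg_left (hb k) (by positivity)
    have h' : 2 * (∑ j, |(if i = j then (q : ℝ) else 0) - ∑ k, (Y i k : ℝ) * M k j| +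
      η * ∑ k, |(Y i k : ℝ)|) ≤ q := by
      exact_mod_cast h1 i
    refine (abs_sub _ _).trans ((add_le_add b1 b2).trans ?_)
    have e6 : (∑ j, |(if i = j then (q : ℝ) else 0) - ∑ k, (Y i k : ℝ) * M k j|) / q *
        ‖z - z'‖ + (∑ k, |(Y i k : ℝ)|) / q * (η * ‖z - z'‖) =
        ((∑ j, |(if i = j then (q : ℝ) else 0) - ∑ k, (Y i k : ℝ) * M k j| +
          η * ∑ k, |(Y i k : ℝ)|) / q) * ‖z - z'‖ := by ring
    rw [e6]
    refine mul_le_mul_of_nonneg_right ?_ (norm_nonneg _)
    rw [div_le_iff₀ hqR]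
    linarith
  have hstart : ‖Yr.mulVec (F z0)‖ ≤ (1 - 1 / 2) * (r : ℝ) := by
    rw [pi_norm_le_iff_of_nonneg (by positivity)]
    intro i
    have e2 : Yr.mulVec (F z0) i = (∑ k, (Y i k : ℝ) * qvalZ (Q k) (L k) (C k) x) / q := by
      have e3 : Yr.mulVec (F z0) i = ∑ k, Yr i k * F z0 k := rfl
      rw [Finset.sum_div, e3]
      refine Finset.sum_congr rfl fun k _ => ?_
      simp only [hYr, Matrix.of_apply, hF, hz0, qval_intCast]
      ring
    rw [e2, Real.norm_eq_abs, abs_div, abs_of_pos hqR, div_le_iff₀ hqR]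
    have h' : 2 * |∑ k, (Y i k : ℝ) * qvalZ (Q k) (L k) (C k) x| ≤ q * r := by
      exact_mod_cast h0 i
    linarith
  obtain ⟨z, hz, hzero⟩ := exists_zero_of_contraction F z0 Yr hrR.le (by norm_num) (by norm_num)
    hinj hcon hstart
  exact ⟨z, hball z hz, fun k => congrFun hzero k⟩

end Pool.Agent.MPf7203b
end
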