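import Mathlib
import Pool.Agent.Lib.MP_f7203b_co.Kraw2
import Pool.Agent.Lib.MP_f7203b_co.Defs
import Pool.Agent.Lib.MP_f7203b_co.CertData

section

/-!
Numerical data of the approximate realization: coordinates are given in units of `10 ^ (-8)`.
The variables `0, ..., 11` are the coordinates of the four orbit representatives of vertices, the
variables `12, ..., 23` are the coefficients `n` of the planes `n . x = 1` of the four orbit
representatives of faces.
-/

namespace Pool.Agent.MPf7203b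

/-- The approximate solution. -/
def zl : List ℤ :=
  [-23100419, -28361517, -5006166, 102701486, -14550582, -115400094, 58383704, -19068742,
  -50332726, -59785842, 63883707, -24480710, 503706686, -707661687, -312709668, -549937667,
  -615850301, -672542323, 599071681, 208967308, 417050333, 362428797, -56055475, 242960078]

/-- The quadratic terms of the equations. -/
def el : List (List (ℤ × Fin 24 × Fin 24)) :=
  [[(1, 12, 0), (1, 13, 1), (1, 14, 2)], [(1, 12, 5), (-1, 13, 3), (-1, 14, 4)], [(1, 12, 11),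
  (1, 13, 9), (1, 14, 10)], [(-1, 12, 2), (1, 13, 0), (-1, 14, 1)], [(1, 12, 8), (-1, 13, 6),
  (-1, 14, 7)], [(1, 15, 4), (1, 16, 5), (1, 17, 3)], [(-1, 15, 10), (1, 16, 11), (-1, 17, 9)],
  [(-1, 15, 6), (1, 16, 7), (-1, 17, 8)], [(1, 15, 5), (1, 16, 3), (1, 17, 4)], [(1, 15, 9), (1,
  16, 10), (1, 17, 11)], [(1, 18, 6), (1, 19, 7), (1, 20, 8)], [(-1, 18, 0), (1, 19, 1), (-1, 20,
  2)], [(-1, 18, 8), (-1, 19, 6), (1, 20, 7)], [(1, 18, 4), (1, 19, 5), (1, 20, 3)], [(-1, 18,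
  2), (1, 19, 0), (-1, 20, 1)], [(-1, 21, 2), (1, 22, 0), (-1, 23, 1)], [(1, 21, 6), (1, 22, 7),
  (1, 23, 8)], [(1, 21, 10), (1, 22, 11), (1, 23, 9)], [(1, 21, 3), (1, 22, 4), (1, 23, 5)], [(1,
  21, 11), (1, 22, 9), (1, 23, 10)], [], [], [], []]

/-- The linear terms of the equations. -/
def ll : List (List (ℤ × Fin 24)) :=
  [[], [], [], [], [], [], [], [], [], [], [], [], [], [], [], [], [], [], [], [], [(100000000,
  2)], [(100000000, 10)], [(100000000, 14)], [(100000000, 15)]]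

/-- The constant terms of the equations. -/
def cl : List ℤ :=
  [10000000000000000, 10000000000000000, 10000000000000000, 10000000000000000, 10000000000000000,
  10000000000000000, 10000000000000000, 10000000000000000, 10000000000000000, 10000000000000000,
  10000000000000000, 10000000000000000, 10000000000000000, 10000000000000000, 10000000000000000,
  10000000000000000, 10000000000000000, 10000000000000000, 10000000000000000, 10000000000000000,
  -500616600000000, 6388370700000000, -31270966800000000, -54993766700000000]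

/-- The Jacobian matrix at the approximate solution. -/
def Ml : List (List ℤ) :=
  [[503706686, -707661687, -312709668, 0, 0, 0, 0, 0, 0, 0, 0, 0, -23100419, -28361517, -5006166,
  0, 0, 0, 0, 0, 0, 0, 0, 0], [0, 0, 0, 707661687, 312709668, 503706686, 0, 0, 0, 0, 0, 0,
  -115400094, -102701486, 14550582, 0, 0, 0, 0, 0, 0, 0, 0, 0], [0, 0, 0, 0, 0, 0, 0, 0, 0,
  -707661687, -312709668, 503706686, -24480710, -59785842, 63883707, 0, 0, 0, 0, 0, 0, 0, 0, 0],
  [-707661687, 312709668, -503706686, 0, 0, 0, 0, 0, 0, 0, 0, 0, 5006166, -23100419, 28361517, 0,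
  0, 0, 0, 0, 0, 0, 0, 0], [0, 0, 0, 0, 0, 0, 707661687, 312709668, 503706686, 0, 0, 0,
  -50332726, -58383704, 19068742, 0, 0, 0, 0, 0, 0, 0, 0, 0], [0, 0, 0, -672542323, -549937667,
  -615850301, 0, 0, 0, 0, 0, 0, 0, 0, 0, -14550582, -115400094, 102701486, 0, 0, 0, 0, 0, 0], [0,
  0, 0, 0, 0, 0, 0, 0, 0, 672542323, 549937667, -615850301, 0, 0, 0, -63883707, -24480710,
  59785842, 0, 0, 0, 0, 0, 0], [0, 0, 0, 0, 0, 0, 549937667, -615850301, 672542323, 0, 0, 0, 0,
  0, 0, -58383704, -19068742, 50332726, 0, 0, 0, 0, 0, 0], [0, 0, 0, -615850301, -672542323,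
  -549937667, 0, 0, 0, 0, 0, 0, 0, 0, 0, -115400094, 102701486, -14550582, 0, 0, 0, 0, 0, 0], [0,
  0, 0, 0, 0, 0, 0, 0, 0, -549937667, -615850301, -672542323, 0, 0, 0, -59785842, 63883707,
  -24480710, 0, 0, 0, 0, 0, 0], [0, 0, 0, 0, 0, 0, 599071681, 208967308, 417050333, 0, 0, 0, 0,
  0, 0, 0, 0, 0, 58383704, -19068742, -50332726, 0, 0, 0], [-599071681, 208967308, -417050333, 0,
  0, 0, 0, 0, 0, 0, 0, 0, 0, 0, 0, 0, 0, 0, 23100419, -28361517, 5006166, 0, 0, 0], [0, 0, 0, 0,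
  0, 0, -208967308, 417050333, -599071681, 0, 0, 0, 0, 0, 0, 0, 0, 0, 50332726, -58383704,
  -19068742, 0, 0, 0], [0, 0, 0, 417050333, 599071681, 208967308, 0, 0, 0, 0, 0, 0, 0, 0, 0, 0,
  0, 0, -14550582, -115400094, 102701486, 0, 0, 0], [208967308, -417050333, -599071681, 0, 0, 0,
  0, 0, 0, 0, 0, 0, 0, 0, 0, 0, 0, 0, 5006166, -23100419, 28361517, 0, 0, 0], [-56055475,
  -242960078, -362428797, 0, 0, 0, 0, 0, 0, 0, 0, 0, 0, 0, 0, 0, 0, 0, 0, 0, 0, 5006166,
  -23100419, 28361517], [0, 0, 0, 0, 0, 0, 362428797, -56055475, 242960078, 0, 0, 0, 0, 0, 0, 0,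
  0, 0, 0, 0, 0, 58383704, -19068742, -50332726], [0, 0, 0, 0, 0, 0, 0, 0, 0, 242960078,
  362428797, -56055475, 0, 0, 0, 0, 0, 0, 0, 0, 0, 63883707, -24480710, -59785842], [0, 0, 0,
  362428797, -56055475, 242960078, 0, 0, 0, 0, 0, 0, 0, 0, 0, 0, 0, 0, 0, 0, 0, 102701486,
  -14550582, -115400094], [0, 0, 0, 0, 0, 0, 0, 0, 0, -56055475, 242960078, 362428797, 0, 0, 0,
  0, 0, 0, 0, 0, 0, -24480710, -59785842, 63883707], [0, 0, 100000000, 0, 0, 0, 0, 0, 0, 0, 0, 0,
  0, 0, 0, 0, 0, 0, 0, 0, 0, 0, 0, 0], [0, 0, 0, 0, 0, 0, 0, 0, 0, 0, 100000000, 0, 0, 0, 0, 0,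
  0, 0, 0, 0, 0, 0, 0, 0], [0, 0, 0, 0, 0, 0, 0, 0, 0, 0, 0, 0, 0, 0, 100000000, 0, 0, 0, 0, 0,
  0, 0, 0, 0], [0, 0, 0, 0, 0, 0, 0, 0, 0, 0, 0, 0, 0, 0, 0, 100000000, 0, 0, 0, 0, 0, 0, 0, 0]]

/-- An approximate inverse of the Jacobian matrix, times `10 ^ 12`. -/
def Yl : List (List ℤ) :=
  [[-3199, 480, -522, 1258, 747, 248, -1764, 1789, -103, 473, 509, -4826, 1249, -180, 3248, 1212,
  -4294, 4262, -445, -736, 55, -2681, -396, 117], [-4211, 624, -520, 1466, 901, 281, -1830, 1813,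
  -90, 493, 313, -4342, 1269, -224, 2985, 1180, -4295, 4486, -592, -779, -1738, -2895, -557,
  121], [0, 0, 0, 0, 0, 0, 0, 0, 0, 0, 0, 0, 0, 0, 0, 0, 0, 0, 0, 0, 10000, 0, 0, 0], [3093,
  3572, -1077, 4852, -8603, 1905, 2706, -7004, 2159, -1083, 6071, -2904, -4982, 2335, -520,
  -4369, 14518, -12588, 300, 2139, 3055, 15502, 588, -240], [5814, -155, 3523, -4307, -4454,
  -721, 5738, -5877, 235, -1236, 1168, 8175, -4136, 1166, -6373, -4507, 13299, -8119, -1979,
  1306, -23936, -1897, 134, -338], [-7016, -4423, -238, -4129, 13067, -2688, -5356, 11766, -3190,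
  1733, -8230, -441, 8347, -3525, 3849, 8135, -24950, 17392, 2286, -2864, 7970, -16698, -876,
  412], [1548, 615, -679, 1316, -1658, -69, 1286, -1576, 283, -557, -322, 56, 300, -132, 98,
  -2935, 9095, -6547, -696, 1084, 1652, 8473, 365, -115], [1624, -1128, 1751, -3206, 671, -376,
  2517, -2449, 20, -479, 76, 4124, -1576, 371, -2995, -170, 1371, -2832, 1113, 517, -12426,
  -2308, -92, -139], [-1826, -984, 268, -1253, 2840, 34, -1788, 2262, -371, 648, 617, -371, -479,
  231, 1, 3383, -10274, 6937, 1090, -1136, -1297, -7715, -306, 143], [-845, 313, -885, 1345, 233,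
  -86, -552, 649, 198, -492, 239, -1896, 453, -54, 1260, 397, -1573, 1877, -372, -330, 5210,
  -8761, 52, -51], [0, 0, 0, 0, 0, 0, 0, 0, 0, 0, 0, 0, 0, 0, 0, 0, 0, 0, 0, 0, 0, 10000, 0, 0],
  [1662, -359, 1427, -2026, -834, -486, 1622, -1470, 399, -1336, -105, 3119, -1030, 211, -2195,
  -998, 3440, -3230, 235, 554, -8772, -2325, -42, -231], [-27155, -774, -5089, 46289, 1448, 1151,
  -14486, 16269, -1496, 3789, 12221, -64408, 11275, -105, 41018, 12867, -41213, 32592, 1224,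
  -5470, 171987, -17746, -11401, 950], [35118, -6421, 7851, -51942, -10382, -3548, 26131, -26727,
  1625, -6986, -8713, 75094, -18652, 2469, -50199, -18384, 64474, -62780, 5874, 10817, -205991,
  39083, 14388, -1728], [0, 0, 0, 0, 0, 0, 0, 0, 0, 0, 0, 0, 0, 0, 0, 0, 0, 0, 0, 0, 0, 0, 10000,
  0], [0, 0, 0, 0, 0, 0, 0, 0, 0, 0, 0, 0, 0, 0, 0, 0, 0, 0, 0, 0, 0, 0, 0, 10000], [24229,
  -4570, 19984, -27938, -13140, -8776, 32638, -21932, 7859, -6874, -588, 43883, -15379, 3352,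
  -31267, -15116, 51038, -45891, 2136, 7833, -124047, -12038, -459, 11729], [36541, -9099, 32833,
  -47439, -16597, -7631, 53008, -31422, 5095, -11043, -4006, 71426, -21999, 4163, -49584, -20944,
  74025, -73182, 7472, 12630, -199754, -22300, -1203, 13685], [-28132, 19771, 15856, 5617,
  -39572, 2268, 19887, -28845, 4277, -3769, 30882, -6674, -20585, -5395, 61679, -22445, 58121,
  -16901, -20921, 2147, 200642, -26954, -8462, -1124], [9044, 12783, 22127, -10739, -45289,
  -1153, 43098, -52136, 5574, -10090, 18561, 28564, -36785, -2820, 13376, -38559, 115649, -74882,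
  -14384, 12175, 33703, 11853, -3861, -2674], [-26023, 12564, 11421, 2550, -22165, 968, 17680,
  -23888, 3225, -3791, 10513, -3849, -16877, -3308, 55226, -19029, 52417, -23446, -13450, 3508,
  177294, -8409, -6924, -1056], [-52609, 6509, 4869, 4579, 7308, 728, -16109, 17059, 1428, -2061,
  4593, -45311, 11915, -1772, 30575, 67673, -40874, 47028, -6894, -30690, 98012, -4755, -9384,
  190], [-22950, 2794, 5406, -1616, 1337, -1542, -3804, 5052, 2601, -6916, 2535, -16595, 3516,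
  -287, 10831, 31901, -12440, 4599, -3566, -26100, 31391, 41974, -4806, -838], [-51808, 7422,
  -1945, 12919, 8991, 1516, -19419, 20174, 893, -116, 4937, -52251, 14097, -2195, 35412, 61800,
  -48200, 42299, -7636, -23967, 121272, 4927, -7810, 554]]

/-- The approximate solution as a function. -/
def zh (i : Fin 24) : ℤ := zl.getD i.val 0

/-- The quadratic terms as a function. -/
def eqQ (k : Fin 24) : List (ℤ × Fin 24 × Fin 24) := el.getD k.val []

/-- The linear terms as a function. -/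
def eqL (k : Fin 24) : List (ℤ × Fin 24) := ll.getD k.val []

/-- The constant terms as a function. -/
def eqC (k : Fin 24) : ℤ := cl.getD k.val 0

/-- The Jacobian matrix as a function. -/
def Mh (i k : Fin 24) : ℤ := (Ml.getD i.val []).getD k.val 0

/-- The approximate inverse as a function. -/
def Yh (i k : Fin 24) : ℤ := (Yl.getD i.val []).getD k.val 0

end Pool.Agent.MPf7203b
end

section

section

/-!
A fan of `k` sectors of the plane, with its hat functions.
-/

namespace Pool.Agent.MPf7203b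

/-- the rays: `(j, 1)` for `j ≤ n`, and `(-n, -2)` -/
noncomputable def fz (n : ℕ) (j : ℕ) : ℂ := if j = n + 1 then ⟨-n, -2⟩ else ⟨j, 1⟩

/-- the hat functions -/
noncomputable def fh (n : ℕ) (j : ℕ) (z : ℂ) : ℝ :=
  if j = n + 1 then max 0 (max (z.re / n - z.im) (-(z.re / n)))
  else max 0 (min (if j = 0 then z.im - 2 * (z.re / n) else z.re - ((j : ℝ) - 1) * z.im)
                  (if j = n then 2 * (z.re / n) - z.im else ((j : ℝ) + 1) * z.im - z.re))

theorem continuous_fh (n j : ℕ) : Continuous (fh n j) := by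
  have h1 : Continuous (fun z : ℂ => z.re) := Complex.continuous_re
  have h2 : Continuous (fun z : ℂ => z.im) := Complex.continuous_im
  unfold fh
  split_ifs <;> fun_prop

theorem hat_case1 (n i : ℕ) (hn : 2 ≤ n) (hi : i < n) (α β : ℝ) (hα : 0 ≤ α) (hβ : 0 ≤ β) :
    fh n i (α • fz n i + β • fz n (i + 1)) = α ∧ fh n (i + 1) (α • fz n i + β • fz n (i + 1)) = β ∧
      ∀ j, j ≤ n + 1 → j ≠ i → j ≠ i + 1 → fh n j (α • fz n i + β • fz n (i + 1)) = 0 := by
  have hN : (2 : ℝ) ≤ n := by exact_mod_cast hn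
  have hN0 : (0 : ℝ) < n := by linarith
  have hiN : (i : ℝ) + 1 ≤ n := by exact_mod_cast hi
  have hi0 : (0 : ℝ) ≤ i := Nat.cast_nonneg _
  have hre : (α • fz n i + β • fz n (i + 1)).re = α * i + β * (i + 1) := by
    simp [fz, show i ≠ n + 1 by omega, show i ≠ n by omega]
  have him : (α • fz n i + β • fz n (i + 1)).im = α + β := by
    simp [fz, show i ≠ n + 1 by omega, show i ≠ n by omega]
  have hq : (α * i + β * (i + 1)) / n ≤ α + β := by
    rw [div_le_iff₀ hN0]
    nlinarith [mul_le_mul_of_nonneg_left hiN hα, mul_le_mul_of_nonneg_left hiN hβ]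
  have hq0 : 0 ≤ (α * i + β * (i + 1)) / n := by positivity
  refine ⟨?_, ?_, ?_⟩
  · unfold fh
    rw [if_neg (by omega), hre, him, if_neg (show i ≠ n by omega)]
    by_cases h0 : i = 0
    · subst h0
      rw [if_pos rfl]
      have h1 : (β / n) * 2 ≤ β := by
        rw [div_mul_eq_mul_div, div_le_iff₀ hN0]
        nlinarith
      have e1 : (α * ((0 : ℕ) : ℝ) + β * (((0 : ℕ) : ℝ) + 1)) / n = β / n := by
        norm_num
      rw [e1, min_eq_right, max_eq_right]
      · push_cast; ring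
      · push_cast; linarith
      · push_cast; linarith
    · rw [if_neg h0, min_eq_right, max_eq_right]
      · ring
      · ring_nf; linarith
      · nlinarith
  · unfold fh
    rw [if_neg (by omega), hre, him, if_neg (show i + 1 ≠ 0 by omega)]
    push_cast
    rw [min_eq_left, max_eq_right]
    · ring
    · ring_nf; linarith
    · by_cases h1 : i + 1 = n
      · rw [if_pos h1]
        have h1' : (i : ℝ) + 1 = n := by exact_mod_cast h1
        have h2 : 2 * ((α * i + β * (i + 1)) / n) = 2 * α * (i / n) + 2 * β := by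
          rw [← h1']; field_simp
        have h3 : (1 : ℝ) / 2 ≤ i / n := by
          rw [div_le_div_iff₀ (by norm_num) hN0]
          linarith
        rw [h2]
        nlinarith [mul_le_mul_of_nonneg_left h3 hα]
      · rw [if_neg h1]
        nlinarith
  · intro j hj hj1 hj2
    unfold fh
    rw [hre, him]
    by_cases h0 : j = n + 1
    · rw [if_pos h0]
      apply max_eq_left
      apply max_le
      · linarith
      · linarith
    · rw [if_neg h0]
      apply max_eq_left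
      rcases lt_or_gt_of_ne hj1 with hlt | hgt
      · apply min_le_of_right_le
        rw [if_neg (by omega)]
        have : (j : ℝ) + 1 ≤ i := by exact_mod_cast hlt
        nlinarith [mul_le_mul_of_nonneg_left this hα, mul_le_mul_of_nonneg_left this hβ]
      · apply min_le_of_left_le
        rw [if_neg (by omega)]
        have : (i : ℝ) + 2 ≤ j := by exact_mod_cast (show i + 2 ≤ j by omega)
        nlinarith [mul_le_mul_of_nonneg_left this hα, mul_le_mul_of_nonneg_left this hβ]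

theorem hat_case2 (n : ℕ) (hn : 2 ≤ n) (α β : ℝ) (hα : 0 ≤ α) (hβ : 0 ≤ β) :
    fh n n (α • fz n n + β • fz n (n + 1)) = α ∧ fh n (n + 1) (α • fz n n + β • fz n (n + 1)) = β ∧
      ∀ j, j ≤ n + 1 → j ≠ n → j ≠ n + 1 → fh n j (α • fz n n + β • fz n (n + 1)) = 0 := by
  have hN : (2 : ℝ) ≤ n := by exact_mod_cast hn
  have hN0 : (0 : ℝ) < n := by linarith
  have hre : (α • fz n n + β • fz n (n + 1)).re = n * (α - β) := by
    simp [fz]; ring
  have him : (α • fz n n + β • fz n (n + 1)).im = α - 2 * β := by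
    simp [fz]; ring
  have hq : n * (α - β) / n = α - β := by field_simp
  refine ⟨?_, ?_, ?_⟩
  · unfold fh
    rw [if_neg (by omega), hre, him, if_neg (show n ≠ 0 by omega), if_pos rfl, hq, min_eq_right,
      max_eq_right]
    · ring
    · linarith
    · nlinarith
  · unfold fh
    rw [if_pos rfl, hre, him, hq, max_eq_right, max_eq_left]
    · ring
    · linarith
    · apply le_max_of_le_left; linarith
  · intro j hj hj1 hj2
    unfold fh
    rw [if_neg hj2, if_neg hj1, hre, him, hq]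
    apply max_eq_left
    by_cases h0 : j = 0
    · rw [if_pos h0]
      apply min_le_of_left_le
      linarith
    · rw [if_neg h0]
      have hjn : (j : ℝ) + 1 ≤ n := by exact_mod_cast (show j + 1 ≤ n by omega)
      have hj0 : (1 : ℝ) ≤ j := by exact_mod_cast (show 1 ≤ j by omega)
      rcases le_total (α - 2 * β) 0 with hy | hy
      · rcases le_total (n * (α - β) - (j - 1) * (α - 2 * β)) 0 with h1 | h1
        · exact min_le_of_left_le h1
        · apply min_le_of_right_le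
          nlinarith
      · apply min_le_of_right_le
        nlinarith [mul_le_mul_of_nonneg_left hjn hy, mul_nonneg hN0.le hβ]

theorem hat_case3 (n : ℕ) (hn : 2 ≤ n) (α β : ℝ) (hα : 0 ≤ α) (hβ : 0 ≤ β) :
    fh n (n + 1) (α • fz n (n + 1) + β • fz n 0) = α ∧
    fh n 0 (α • fz n (n + 1) + β • fz n 0) = β ∧
      ∀ j, j ≤ n + 1 → j ≠ n + 1 → j ≠ 0 → fh n j (α • fz n (n + 1) + β • fz n 0) = 0 := by
  have hN : (2 : ℝ) ≤ n := by exact_mod_cast hn
  have hN0 : (0 : ℝ) < n := by linarith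
  have hre : (α • fz n (n + 1) + β • fz n 0).re = n * (- α) := by
    simp [fz]; ring
  have him : (α • fz n (n + 1) + β • fz n 0).im = β - 2 * α := by
    simp [fz]; ring
  have hq : n * (-α) / n = -α := by field_simp
  refine ⟨?_, ?_, ?_⟩
  · unfold fh
    rw [if_pos rfl, hre, him, hq, max_eq_right, max_eq_right]
    · ring
    · linarith
    · apply le_max_of_le_right; linarith
  · unfold fh
    rw [if_neg (by omega), hre, him, if_pos rfl, if_neg (show 0 ≠ n by omega), hq, min_eq_left,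
      max_eq_right]
    · ring
    · linarith
    · push_cast; nlinarith
  · intro j hj hj1 hj2
    unfold fh
    rw [if_neg hj1, if_neg hj2, hre, him, hq]
    apply max_eq_left
    have hj0 : (1 : ℝ) ≤ j := by exact_mod_cast (show 1 ≤ j by omega)
    by_cases h0 : j = n
    · rw [if_pos h0]
      apply min_le_of_right_le
      linarith
    · rw [if_neg h0]
      rcases le_total (β - 2 * α) 0 with hy | hy
      · rcases le_total (n * (-α) - (j - 1) * (β - 2 * α)) 0 with h1 | h1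
        · exact min_le_of_left_le h1
        · apply min_le_of_right_le
          nlinarith
      · apply min_le_of_left_le
        nlinarith [mul_nonneg (sub_nonneg.2 hj0) hy, mul_nonneg hN0.le hα]

theorem fan_cover (n : ℕ) (hn : 1 ≤ n) (z : ℂ) : ∃ (i : ℕ) (α β : ℝ), 0 ≤ α ∧ 0 ≤ β ∧
    ((i ≤ n ∧ z = α • fz n i + β • fz n (i + 1)) ∨
      (i = n + 1 ∧ z = α • fz n (n + 1) + β • fz n 0)) := by
  have hN : (1 : ℝ) ≤ n := by exact_mod_cast hn
  have hN0 : (0 : ℝ) < n := by linarith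
  obtain ⟨x, y⟩ := z
  have hb : ∃ b : ℝ, x = n * b := ⟨x / n, by field_simp⟩
  obtain ⟨b, rfl⟩ := hb
  by_cases hcone : 0 ≤ b ∧ b ≤ y
  · obtain ⟨hb0, hby⟩ := hcone
    rcases eq_or_lt_of_le (hb0.trans hby) with hy | hy
    · subst hy
      have : b = 0 := le_antisymm hby hb0
      subst this
      refine ⟨0, 0, 0, le_rfl, le_rfl, Or.inl ⟨by omega, ?_⟩⟩
      apply Complex.ext <;> simp
    · -- `t = n b / y`
      have ht0 : 0 ≤ n * b / y := by positivity
      have htn : n * b / y ≤ n := by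
        rw [div_le_iff₀ hy]
        exact mul_le_mul_of_nonneg_left hby hN0.le
      have hex : ∃ i : ℕ, i < n ∧ (i : ℝ) * y ≤ n * b ∧ n * b ≤ (i + 1) * y := by
        rcases eq_or_lt_of_le htn with h | h
        · refine ⟨n - 1, by omega, ?_, ?_⟩
          · have h1 : ((n - 1 : ℕ) : ℝ) = (n : ℝ) - 1 := by
              rw [Nat.cast_sub hn]; simp
            have h2 : n * b = n * y := by
              rw [div_eq_iff hy.ne'] at h
              exact h
            rw [h1, h2]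
            nlinarith
          · have h1 : ((n - 1 : ℕ) : ℝ) = (n : ℝ) - 1 := by
              rw [Nat.cast_sub hn]; simp
            have h2 : n * b = n * y := by
              rw [div_eq_iff hy.ne'] at h
              exact h
            rw [h1, h2]
            nlinarith
        · refine ⟨⌊n * b / y⌋₊, ?_, ?_, ?_⟩
          · rw [Nat.floor_lt ht0]
            exact h
          · have := Nat.floor_le ht0
            rw [le_div_iff₀ hy] at this
            exact this
          · have := (Nat.lt_floor_add_one (n * b / y)).le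
            rw [div_le_iff₀ hy] at this
            exact this
      obtain ⟨i, hi, h1, h2⟩ := hex
      refine ⟨i, (i + 1) * y - n * b, n * b - i * y, by linarith, by linarith,
        Or.inl ⟨hi.le, ?_⟩⟩
      apply Complex.ext
      · simp [fz, show i ≠ n + 1 by omega, show i ≠ n by omega]
        ring
      · simp [fz, show i ≠ n + 1 by omega, show i ≠ n by omega]
        ring
  · -- coordinates: a = y - b
    rcases le_total (y - b) b with hab | hab
    · have ha : y - b ≤ 0 := by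
        by_contra hcon
        push Not at hcon
        exact hcone ⟨by linarith, by linarith⟩
      refine ⟨n, b - (y - b), -(y - b), by linarith, by linarith, Or.inl ⟨le_rfl, ?_⟩⟩
      apply Complex.ext
      · simp [fz]
        ring
      · simp [fz]
        ring
    · have hb0 : b ≤ 0 := by
        by_contra hcon
        push Not at hcon
        exact hcone ⟨by linarith, by linarith⟩
      refine ⟨n + 1, -b, (y - b) - b, by linarith, by linarith, Or.inr ⟨rfl, ?_⟩⟩
      apply Complex.ext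
      · simp [fz]
        ring
      · simp [fz]
        ring

theorem val_succ (n : ℕ) (m : ZMod (n + 2)) :
    (m + 1).val = if m.val = n + 1 then 0 else m.val + 1 := by
  have hm : m.val < n + 2 := ZMod.val_lt m
  have h1 : (1 : ZMod (n + 2)).val = 1 := by
    have : Fact (1 < n + 2) := ⟨by omega⟩
    exact ZMod.val_one (n + 2)
  rw [ZMod.val_add, h1]
  split_ifs with h
  · rw [h]; simp
  · exact Nat.mod_eq_of_lt (by omega)

theorem exists_fan_four (k : ℕ) [NeZero k] (hk : 4 ≤ k) :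
    ∃ (ζ : ZMod k → ℂ) (hat : ZMod k → ℂ → ℝ), (∀ j, Continuous (hat j)) ∧
      (∀ z : ℂ, ∃ (m : ZMod k) (α β : ℝ), 0 ≤ α ∧ 0 ≤ β ∧ z = α • ζ m + β • ζ (m + 1)) ∧
      (∀ (m : ZMod k) (α β : ℝ), 0 ≤ α → 0 ≤ β →
        hat m (α • ζ m + β • ζ (m + 1)) = α ∧ hat (m + 1) (α • ζ m + β • ζ (m + 1)) = β ∧
        ∀ j, j ≠ m → j ≠ m + 1 → hat j (α • ζ m + β • ζ (m + 1)) = 0) := by
  obtain ⟨n, rfl⟩ : ∃ n, k = n + 2 := ⟨k - 2, by omega⟩
  have hn : 2 ≤ n := by omega
  refine ⟨fun j => fz n j.val, fun j => fh n j.val, fun j => continuous_fh n _, ?_, ?_⟩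
  · intro z
    obtain ⟨i, α, β, hα, hβ, h | h⟩ := fan_cover n (by omega) z
    · refine ⟨(i : ZMod (n + 2)), α, β, hα, hβ, ?_⟩
      have hv : ((i : ZMod (n + 2))).val = i := ZMod.val_natCast_of_lt (by omega)
      dsimp only
      rw [val_succ, hv, if_neg (by omega)]
      exact h.2
    · refine ⟨(i : ZMod (n + 2)), α, β, hα, hβ, ?_⟩
      have hv : ((i : ZMod (n + 2))).val = i := ZMod.val_natCast_of_lt (by omega)
      dsimp only
      rw [val_succ, hv, if_pos h.1, h.1]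
      exact h.2
  · intro m α β hα hβ
    have hm : m.val < n + 2 := ZMod.val_lt m
    have hval : ∀ j : ZMod (n + 2), j ≠ m → j.val ≠ m.val :=
      fun j hj h => hj (ZMod.val_injective _ h)
    have hval' : ∀ j : ZMod (n + 2), j ≠ m + 1 → j.val ≠ (m + 1).val :=
      fun j hj h => hj (ZMod.val_injective _ h)
    have hlt : ∀ j : ZMod (n + 2), j.val ≤ n + 1 := fun j => by
      have := ZMod.val_lt j; omega
    dsimp only
    rw [val_succ] at hval' ⊢
    by_cases h1 : m.val = n + 1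
    · rw [if_pos h1] at hval' ⊢
      obtain ⟨e1, e2, e3⟩ := hat_case3 n hn α β hα hβ
      rw [h1] at hval ⊢
      exact ⟨e1, e2, fun j hj hj' => e3 _ (hlt j) (hval j hj) (hval' j hj')⟩
    · rw [if_neg h1] at hval' ⊢
      by_cases h2 : m.val = n
      · rw [h2] at hval hval' ⊢
        obtain ⟨e1, e2, e3⟩ := hat_case2 n hn α β hα hβ
        exact ⟨e1, e2, fun j hj hj' => e3 _ (hlt j) (hval j hj) (hval' j hj')⟩
      · obtain ⟨e1, e2, e3⟩ := hat_case1 n m.val hn (by omega) α β hα hβ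
        exact ⟨e1, e2, fun j hj hj' => e3 _ (hlt j) (hval j hj) (hval' j hj')⟩

/-- the hats for `k = 3` -/
noncomputable def gh (j : ℕ) (z : ℂ) : ℝ :=
  if j = 0 then (z.im - z.re) - min 0 (min (z.im - z.re) z.re)
  else if j = 1 then z.re - min 0 (min (z.im - z.re) z.re)
  else -min 0 (min (z.im - z.re) z.re)

theorem continuous_gh (j : ℕ) : Continuous (gh j) := by
  have h1 : Continuous (fun z : ℂ => z.re) := Complex.continuous_re
  have h2 : Continuous (fun z : ℂ => z.im) := Complex.continuous_im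
  unfold gh
  split_ifs <;> fun_prop

theorem exists_fan_three :
    ∃ (ζ : ZMod 3 → ℂ) (hat : ZMod 3 → ℂ → ℝ), (∀ j, Continuous (hat j)) ∧
      (∀ z : ℂ, ∃ (m : ZMod 3) (α β : ℝ), 0 ≤ α ∧ 0 ≤ β ∧ z = α • ζ m + β • ζ (m + 1)) ∧
      (∀ (m : ZMod 3) (α β : ℝ), 0 ≤ α → 0 ≤ β →
        hat m (α • ζ m + β • ζ (m + 1)) = α ∧ hat (m + 1) (α • ζ m + β • ζ (m + 1)) = β ∧
        ∀ j, j ≠ m → j ≠ m + 1 → hat j (α • ζ m + β • ζ (m + 1)) = 0) := by
  refine ⟨fun j => fz 1 j.val, fun j => gh j.val, fun j => continuous_gh _, ?_, ?_⟩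
  · intro z
    obtain ⟨i, α, β, hα, hβ, h | h⟩ := fan_cover 1 le_rfl z
    · refine ⟨(i : ZMod (1 + 2)), α, β, hα, hβ, ?_⟩
      have hv : ((i : ZMod (1 + 2))).val = i := ZMod.val_natCast_of_lt (by omega)
      have := val_succ 1 (i : ZMod (1 + 2))
      rw [hv, if_neg (by omega)] at this
      change z = α • fz 1 ((i : ZMod (1 + 2))).val + β • fz 1 ((i : ZMod (1 + 2)) + 1).val
      rw [this, hv]
      exact h.2
    · refine ⟨(i : ZMod (1 + 2)), α, β, hα, hβ, ?_⟩
      have hv : ((i : ZMod (1 + 2))).val = i := ZMod.val_natCast_of_lt (by omega)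
      have := val_succ 1 (i : ZMod (1 + 2))
      rw [hv, if_pos h.1] at this
      change z = α • fz 1 ((i : ZMod (1 + 2))).val + β • fz 1 ((i : ZMod (1 + 2)) + 1).val
      rw [this, hv, h.1]
      exact h.2
  · intro m α β hα hβ
    have hz0 : fz 1 0 = ⟨0, 1⟩ := by simp [fz]
    have hz1 : fz 1 1 = ⟨1, 1⟩ := by simp [fz]
    have hz2 : fz 1 2 = ⟨-1, -2⟩ := by simp [fz]
    have c0 : α • fz 1 0 + β • fz 1 1 = ⟨β, α + β⟩ := by
      rw [hz0, hz1]; apply Complex.ext <;> simp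
    have c1 : α • fz 1 1 + β • fz 1 2 = ⟨α - β, α - 2 * β⟩ := by
      rw [hz1, hz2]; apply Complex.ext <;> simp <;> ring
    have c2 : α • fz 1 2 + β • fz 1 0 = ⟨-α, β - 2 * α⟩ := by
      rw [hz0, hz2]; apply Complex.ext <;> simp <;> ring
    have m0 : min 0 (min (α + β - β) β) = 0 := min_eq_left (le_min (by linarith) hβ)
    have m1 : min 0 (min (α - 2 * β - (α - β)) (α - β)) = -β := by
      rw [min_eq_left (show α - 2 * β - (α - β) ≤ α - β by linarith),
        min_eq_right (by linarith)]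
      ring
    have m2 : min 0 (min (β - 2 * α - -α) (-α)) = -α := by
      rw [min_eq_right (show -α ≤ β - 2 * α - -α by linarith), min_eq_right (by linarith)]
    have v0 : (0 : ZMod 3).val = 0 := rfl
    have v1 : (1 : ZMod 3).val = 1 := rfl
    have v2 : (2 : ZMod 3).val = 2 := rfl
    have a0 : (0 : ZMod 3) + 1 = 1 := rfl
    have a1 : (1 : ZMod 3) + 1 = 2 := rfl
    have a2 : (2 : ZMod 3) + 1 = 0 := rfl
    have hcases : ∀ m : ZMod 3, m = 0 ∨ m = 1 ∨ m = 2 := by decide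
    dsimp only
    rcases hcases m with rfl | rfl | rfl
    · rw [a0, v0, v1, c0]
      refine ⟨?_, ?_, ?_⟩
      · simp only [gh, if_true, m0]; ring
      · simp only [gh, one_ne_zero, if_false, if_true, m0]; ring
      · intro j hj hj'
        rcases hcases j with rfl | rfl | rfl
        · exact absurd rfl hj
        · exact absurd rfl hj'
        · rw [v2]
          simp only [gh, OfNat.ofNat_ne_zero, OfNat.ofNat_ne_one, if_false, m0]; ring
    · rw [a1, v1, v2, c1]
      refine ⟨?_, ?_, ?_⟩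
      · simp only [gh, one_ne_zero, if_false, if_true, m1]; ring
      · simp only [gh, OfNat.ofNat_ne_zero, OfNat.ofNat_ne_one, if_false, m1]; ring
      · intro j hj hj'
        rcases hcases j with rfl | rfl | rfl
        · rw [v0]
          simp only [gh, if_true, m1]; ring
        · exact absurd rfl hj
        · exact absurd rfl hj'
    · rw [a2, v2, v0, c2]
      refine ⟨?_, ?_, ?_⟩
      · simp only [gh, OfNat.ofNat_ne_zero, OfNat.ofNat_ne_one, if_false, m2]; ring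
      · simp only [gh, if_true, m2]; ring
      · intro j hj hj'
        rcases hcases j with rfl | rfl | rfl
        · exact absurd rfl hj'
        · rw [v1]
          simp only [gh, one_ne_zero, if_false, if_true, m2]; ring
        · exact absurd rfl hj

/-- J1: the fan of `k` sectors of the plane, with its hat functions. -/
theorem exists_fan (k : ℕ) [NeZero k] (hk : 3 ≤ k) :
    ∃ (ζ : ZMod k → ℂ) (hat : ZMod k → ℂ → ℝ), (∀ j, Continuous (hat j)) ∧
      (∀ z : ℂ, ∃ (m : ZMod k) (α β : ℝ), 0 ≤ α ∧ 0 ≤ β ∧ z = α • ζ m + β • ζ (m + 1)) ∧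
      (∀ (m : ZMod k) (α β : ℝ), 0 ≤ α → 0 ≤ β →
        hat m (α • ζ m + β • ζ (m + 1)) = α ∧ hat (m + 1) (α • ζ m + β • ζ (m + 1)) = β ∧
        ∀ j, j ≠ m → j ≠ m + 1 → hat j (α • ζ m + β • ζ (m + 1)) = 0) := by
  rcases eq_or_lt_of_le hk with h | h
  · subst h
    exact exists_fan_three
  · exact exists_fan_four k h

end Pool.Agent.MPf7203b
end

section

/-!
A finite complex of triangles with cyclic vertex links, injected into space, is a surface.
-/

namespace Pool.Agent.MPf7203b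

open Topology

/-- The geometric realization, in barycentric coordinates, of the abstract 2-complex whose
maximal simplices are the members of `K`. -/
def realiz {V : Type} [Fintype V] (K : Set (Finset V)) : Set (V → ℝ) :=
  {x | (∀ i, 0 ≤ x i) ∧ ∑ i, x i = 1 ∧ ∃ t ∈ K, ∀ i, x i ≠ 0 → i ∈ t}

theorem isCompact_realiz {V : Type} [Fintype V] (K : Set (Finset V)) :
    IsCompact (realiz K) := by
  classical
  have h : realiz K = stdSimplex ℝ V ∩ ⋃ t ∈ K, {x : V → ℝ | ∀ i, i ∉ t → x i = 0} := by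
    ext x
    simp only [realiz, stdSimplex, Set.mem_ofPred_eq, Set.mem_inter_iff, Set.mem_iUnion,
      exists_prop]
    constructor
    · rintro ⟨h1, h2, t, ht, h3⟩
      exact ⟨⟨h1, h2⟩, t, ht, fun i hi => by
        by_contra hne
        exact hi (h3 i hne)⟩
    · rintro ⟨⟨h1, h2⟩, t, ht, h3⟩
      exact ⟨h1, h2, t, ht, fun i hi => by
        by_contra hne
        exact hi (h3 i hne)⟩
  rw [h]
  refine (isCompact_stdSimplex ℝ V).inter_right ?_
  refine (Set.toFinite K).isClosed_biUnion ?_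
  intro t _
  have : {x : V → ℝ | ∀ i, i ∉ t → x i = 0} = ⋂ i, ⋂ (_ : i ∉ t), {x : V → ℝ | x i = 0} := by
    ext x
    simp
  rw [this]
  refine isClosed_iInter fun i => isClosed_iInter fun _ => ?_
  exact isClosed_eq (continuous_apply i) continuous_const

/-- The chart of the realization around a vertex. -/
theorem exists_chart {V : Type} [Fintype V] [DecidableEq V] (K : Set (Finset V)) (v : V)
    (k : ℕ) (hk : 3 ≤ k) (w : ZMod k → V) (hw : Function.Injective w) (hwv : ∀ j, w j ≠ v)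
    (hlink : ∀ t, (t ∈ K ∧ v ∈ t) ↔ ∃ j, t = {v, w j, w (j + 1)}) :
    ∃ e : OpenPartialHomeomorph (realiz K) ℂ, e.source = {x | 0 < x.1 v} := by
  classical
  have : NeZero k := ⟨by omega⟩
  have : Fact (1 < k) := ⟨by omega⟩
  have : Nontrivial (ZMod k) := ZMod.nontrivial k
  obtain ⟨ζ, hat, hcont, hcov, hhat⟩ := exists_fan k hk
  have hne : ∀ j : ZMod k, j ≠ j + 1 := fun j h => by
    have : (1 : ZMod k) = 0 := by
      have := h.symm
      simpa using this
    exact one_ne_zero this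
  have hsum2 : ∀ {M : Type} [AddCommMonoid M] (m : ZMod k) (f : ZMod k → M),
      (∀ j, j ≠ m → j ≠ m + 1 → f j = 0) → ∑ j, f j = f m + f (m + 1) := by
    intro M _ m f hf
    rw [← Finset.sum_subset (Finset.subset_univ {m, m + 1}), Finset.sum_pair (hne m)]
    intro j _ hj
    simp only [Finset.mem_insert, Finset.mem_singleton, not_or] at hj
    exact hf j hj.1 hj.2
  have hnn : ∀ j z, 0 ≤ hat j z := by
    intro j z
    obtain ⟨m, α, β, hα, hβ, rfl⟩ := hcov z
    obtain ⟨h1, h2, h3⟩ := hhat m α β hα hβ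
    by_cases hj : j = m
    · rw [hj, h1]
      exact hα
    by_cases hj2 : j = m + 1
    · rw [hj2, h2]
      exact hβ
    rw [h3 j hj hj2]
  -- the inverse map, as a map to functions
  let ψ : ℂ → V → ℝ := fun z i =>
    (if i = v then 1 - ∑ j, hat j z else 0) + ∑ j, if i = w j then hat j z else 0
  have hψv : ∀ z, ψ z v = 1 - ∑ j, hat j z := by
    intro z
    have : ∀ j, (if v = w j then hat j z else 0) = 0 := fun j =>
      if_neg fun h => hwv j h.symm
    simp [ψ, this]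
  have hψw : ∀ z j, ψ z (w j) = hat j z := by
    intro z j
    have h1 : (if w j = v then 1 - ∑ j, hat j z else 0) = 0 := if_neg (hwv j)
    simp only [ψ]
    rw [h1, zero_add, Finset.sum_eq_single j]
    · simp
    · intro b _ hb
      exact if_neg fun h => hb (hw h).symm
    · intro h
      exact absurd (Finset.mem_univ j) h
  have hψo : ∀ z i, i ≠ v → (∀ j, i ≠ w j) → ψ z i = 0 := by
    intro z i h1 h2
    simp only [ψ]
    rw [if_neg h1, zero_add]
    exact Finset.sum_eq_zero fun j _ => if_neg (h2 j)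
  have hψcont : Continuous ψ := by
    refine continuous_pi fun i => ?_
    simp only [ψ]
    refine Continuous.add ?_ (continuous_finsetSum _ fun j _ => ?_)
    · split_ifs
      · exact continuous_const.sub (continuous_finsetSum _ fun j _ => hcont j)
      · exact continuous_const
    · split_ifs
      · exact hcont j
      · exact continuous_const
  have hψmem : ∀ z, ∑ j, hat j z < 1 → ψ z ∈ realiz K := by
    intro z hz
    refine ⟨?_, ?_, ?_⟩
    · intro i
      by_cases hi : i = v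
      · rw [hi, hψv]
        linarith
      by_cases hi2 : ∃ j, i = w j
      · obtain ⟨j, rfl⟩ := hi2
        rw [hψw]
        exact hnn j z
      · push Not at hi2
        rw [hψo z i hi hi2]
    · simp only [ψ]
      rw [Finset.sum_add_distrib, Finset.sum_comm]
      simp
    · obtain ⟨m, α, β, hα, hβ, hzz⟩ := hcov z
      obtain ⟨h1, h2, h3⟩ := hhat m α β hα hβ
      rw [← hzz] at h1 h2 h3
      refine ⟨{v, w m, w (m + 1)}, ((hlink _).2 ⟨m, rfl⟩).1, ?_⟩
      intro i hi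
      simp only [Finset.mem_insert, Finset.mem_singleton]
      by_contra hcon
      push Not at hcon
      apply hi
      by_cases hi2 : ∃ j, i = w j
      · obtain ⟨j, rfl⟩ := hi2
        rw [hψw]
        exact h3 j (fun h => hcon.2.1 (by rw [h])) (fun h => hcon.2.2 (by rw [h]))
      · push Not at hi2
        exact hψo z i hcon.1 hi2
  -- the chart, as a map on functions
  have hφ : ∀ x ∈ realiz K, 0 < x v → ∀ j, hat j (∑ l, x (w l) • ζ l) = x (w j) := by
    rintro x ⟨hx0, hx1, t, ht, hts⟩ hxv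
    obtain ⟨m, rfl⟩ := (hlink t).1 ⟨ht, hts v hxv.ne'⟩
    have hz : ∀ j, j ≠ m → j ≠ m + 1 → x (w j) = 0 := by
      intro j hj1 hj2
      by_contra hne0
      have := hts (w j) hne0
      simp only [Finset.mem_insert, Finset.mem_singleton] at this
      rcases this with h | h | h
      · exact hwv j h
      · exact hj1 (hw h)
      · exact hj2 (hw h)
    have hs : ∑ l, x (w l) • ζ l = x (w m) • ζ m + x (w (m + 1)) • ζ (m + 1) := by
      refine hsum2 m (fun l => x (w l) • ζ l) fun j h1 h2 => ?_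
      rw [hz j h1 h2, zero_smul]
    obtain ⟨h1, h2, h3⟩ := hhat m (x (w m)) (x (w (m + 1))) (hx0 _) (hx0 _)
    intro j
    rw [hs]
    by_cases hj : j = m
    · rw [hj, h1]
    by_cases hj2 : j = m + 1
    · rw [hj2, h2]
    rw [h3 j hj hj2, hz j hj hj2]
  have hxsum : ∀ x ∈ realiz K, 0 < x v → x v + ∑ j, x (w j) = 1 ∧
      ∀ i, i ≠ v → (∀ j, i ≠ w j) → x i = 0 := by
    rintro x ⟨hx0, hx1, t, ht, hts⟩ hxv
    obtain ⟨m, rfl⟩ := (hlink t).1 ⟨ht, hts v hxv.ne'⟩
    have ho : ∀ i, i ≠ v → (∀ j, i ≠ w j) → x i = 0 := by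
      intro i h1 h2
      by_contra hne0
      have := hts i hne0
      simp only [Finset.mem_insert, Finset.mem_singleton] at this
      rcases this with h | h | h
      · exact h1 h
      · exact h2 _ h
      · exact h2 _ h
    refine ⟨?_, ho⟩
    have hinj : ∑ j, x (w j) = ∑ i ∈ Finset.univ.image w, x i := by
      rw [Finset.sum_image]
      intro a _ b _ h
      exact hw h
    have hv : v ∉ Finset.univ.image w := by
      simp only [Finset.mem_image, Finset.mem_univ, true_and, not_exists]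
      exact hwv
    rw [hinj, ← Finset.sum_insert hv, ← hx1]
    refine Finset.sum_subset (Finset.subset_univ _) fun i _ hi => ?_
    simp only [Finset.mem_insert, Finset.mem_image, Finset.mem_univ, true_and, not_or,
      not_exists] at hi
    exact ho i hi.1 fun j h => hi.2 j h.symm
  by_cases hne : Nonempty (realiz K)
  swap
  · -- impossible, but harmless: the realization has a point
    exfalso
    apply hne
    have h0 : ∑ j, hat j 0 < 1 := by
      have : ∀ j, hat j 0 = 0 := by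
        intro j
        obtain ⟨h1, h2, h3⟩ := hhat 0 0 0 le_rfl le_rfl
        simp only [zero_smul, add_zero] at h1 h2 h3
        by_cases hj : j = 0
        · rw [hj, h1]
        by_cases hj2 : j = 0 + 1
        · rw [hj2, h2]
        exact h3 j hj hj2
      simp [this]
    exact ⟨⟨ψ 0, hψmem 0 h0⟩⟩
  let x₀ : realiz K := hne.some
  let e : OpenPartialHomeomorph (realiz K) ℂ :=
    { toFun := fun x => ∑ j, x.1 (w j) • ζ j
      invFun := fun z => if h : ∑ j, hat j z < 1 then ⟨ψ z, hψmem z h⟩ else x₀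
      source := {x | 0 < x.1 v}
      target := {z | ∑ j, hat j z < 1}
      map_source' := by
        intro x hx
        simp only [Set.mem_ofPred_eq] at hx ⊢
        rw [Finset.sum_congr rfl fun j _ => hφ x.1 x.2 hx j]
        have := (hxsum x.1 x.2 hx).1
        linarith
      map_target' := by
        intro z hz
        simp only [Set.mem_ofPred_eq] at hz ⊢
        rw [dif_pos hz]
        change 0 < ψ z v
        rw [hψv]
        linarith
      left_inv' := by
        intro x hx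
        simp only [Set.mem_ofPred_eq] at hx
        have hh := hφ x.1 x.2 hx
        obtain ⟨hs, ho⟩ := hxsum x.1 x.2 hx
        have hlt : ∑ j, hat j (∑ l, x.1 (w l) • ζ l) < 1 := by
          rw [Finset.sum_congr rfl fun j _ => hh j]
          linarith
        rw [dif_pos hlt]
        apply Subtype.ext
        funext i
        change ψ _ i = x.1 i
        by_cases hi : i = v
        · rw [hi, hψv, Finset.sum_congr rfl fun j _ => hh j]
          linarith
        by_cases hi2 : ∃ j, i = w j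
        · obtain ⟨j, rfl⟩ := hi2
          rw [hψw, hh]
        · push Not at hi2
          rw [hψo _ i hi hi2, ho i hi hi2]
      right_inv' := by
        intro z hz
        simp only [Set.mem_ofPred_eq] at hz
        rw [dif_pos hz]
        change ∑ j, ψ z (w j) • ζ j = z
        rw [Finset.sum_congr rfl fun j _ => by rw [hψw]]
        obtain ⟨m, α, β, hα, hβ, hzz⟩ := hcov z
        obtain ⟨h1, h2, h3⟩ := hhat m α β hα hβ
        rw [← hzz] at h1 h2 h3
        rw [hsum2 m (fun l => hat l z • ζ l) fun j hj1 hj2 => by rw [h3 j hj1 hj2, zero_smul]]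
        rw [h1, h2]
        exact hzz.symm
      open_source := by
        have : Continuous fun x : realiz K => x.1 v := (continuous_apply v).comp
          continuous_subtype_val
        exact isOpen_lt continuous_const this
      open_target := isOpen_lt (continuous_finsetSum _ fun j _ => hcont j) continuous_const
      continuousOn_toFun := by
        apply Continuous.continuousOn
        refine continuous_finsetSum _ fun j _ => ?_
        exact ((continuous_apply (w j)).comp continuous_subtype_val).smul continuous_const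
      continuousOn_invFun := by
        rw [IsInducing.subtypeVal.continuousOn_iff]
        refine hψcont.continuousOn.congr ?_
        intro z hz
        simp only [Set.mem_ofPred_eq] at hz
        simp only [Function.comp_apply]
        rw [dif_pos hz] }
  exact ⟨e, rfl⟩

/-- J2: an injective continuous image of a finite complex of triangles with cyclic vertex links is
a topological surface. -/
theorem surface_of_links {V : Type} [Fintype V] [DecidableEq V] (K : Set (Finset V))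
    (hlink : ∀ v : V, ∃ k : ℕ, 3 ≤ k ∧ ∃ w : ZMod k → V, Function.Injective w ∧ (∀ j, w j ≠ v) ∧
      ∀ t, (t ∈ K ∧ v ∈ t) ↔ ∃ j, t = {v, w j, w (j + 1)})
    (L : (V → ℝ) → E3) (hL : Continuous L) (hinj : Set.InjOn L (realiz K)) :
    Nonempty (ChartedSpace (EuclideanSpace ℝ (Fin 2)) (L '' realiz K : Set E3)) := by
  classical
  have : CompactSpace (realiz K) := isCompact_iff_compactSpace.1 (isCompact_realiz K)
  let eq : realiz K ≃ (L '' realiz K : Set E3) := Equiv.Set.imageOfInjOn L (realiz K) hinj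
  have hcont : Continuous eq := by
    refine Continuous.subtype_mk (hL.comp continuous_subtype_val) _
  let hm : realiz K ≃ₜ (L '' realiz K : Set E3) := hcont.homeoOfEquivCompactToT2
  have hchart : ∀ v : V, ∃ e : OpenPartialHomeomorph (realiz K) ℂ, e.source = {x | 0 < x.1 v} := by
    intro v
    obtain ⟨k, hk, w, hw, hwv, hl⟩ := hlink v
    exact exists_chart K v k hk w hw hwv hl
  choose e he using hchart
  have hpt : ∀ x : realiz K, ∃ v : V, 0 < x.1 v := by
    intro x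
    by_contra hcon
    push Not at hcon
    have h1 : ∑ i, x.1 i = 1 := x.2.2.1
    have h2 : ∑ i, x.1 i ≤ 0 := Finset.sum_nonpos fun i _ => hcon i
    linarith
  choose p hp using hpt
  let c : ℂ ≃ₜ EuclideanSpace ℝ (Fin 2) := Complex.orthonormalBasisOneI.repr.toHomeomorph
  exact ⟨
    { atlas := Set.univ
      chartAt := fun y => (hm.symm.transOpenPartialHomeomorph (e (p (hm.symm y)))).transHomeomorph c
      mem_chart_source := by
        intro y
        simp only [OpenPartialHomeomorph.transHomeomorph_source,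
          Homeomorph.transOpenPartialHomeomorph_source, Set.mem_preimage]
        rw [he]
        exact hp _
      chart_mem_atlas := fun _ => Set.mem_univ _ }⟩

end Pool.Agent.MPf7203b
end

section

/-!
Combinatorial data of the polyhedron.
-/

namespace Pool.Agent.MPf7203b

/-- The 48 faces: the vertex indices in cyclic order. -/
def FL : List (List ℕ) :=
  [[28, 0, 16, 38, 6], [30, 1, 18, 39, 4], [33, 2, 21, 41, 7], [32, 3, 20, 43, 5], [31, 4, 19,
  44, 9], [25, 5, 13, 36, 10], [29, 6, 17, 45, 8], [24, 7, 12, 37, 11], [35, 8, 23, 46, 0], [34,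
  9, 22, 47, 1], [26, 10, 14, 40, 3], [27, 11, 15, 42, 2], [35, 14, 36, 17, 45], [34, 15, 37, 19,
  44], [27, 17, 38, 12, 37], [26, 19, 39, 13, 36], [30, 20, 40, 22, 47], [32, 12, 41, 14, 40],
  [28, 21, 42, 23, 46], [33, 13, 43, 15, 42], [29, 22, 44, 16, 38], [31, 23, 45, 18, 39], [25,
  16, 46, 20, 43], [24, 18, 47, 21, 41], [11, 27, 17, 6, 24], [10, 26, 19, 4, 25], [3, 32, 12, 7,
  26], [2, 33, 13, 5, 27], [6, 29, 22, 9, 28], [8, 35, 14, 10, 29], [4, 31, 23, 8, 30], [9, 34,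
  15, 11, 31], [5, 25, 16, 0, 32], [7, 24, 18, 1, 33], [1, 30, 20, 3, 34], [0, 28, 21, 2, 35],
  [38, 6, 24, 41, 12], [39, 4, 25, 43, 13], [41, 7, 26, 36, 14], [43, 5, 27, 37, 15], [44, 9, 28,
  46, 16], [36, 10, 29, 38, 17], [45, 8, 30, 47, 18], [37, 11, 31, 39, 19], [46, 0, 32, 40, 20],
  [47, 1, 33, 42, 21], [40, 3, 34, 44, 22], [42, 2, 35, 45, 23]]

/-- The coordinates of the 48 vertices: signs and variables. -/
def VS : List (List (ℤ × Fin 24)) :=
  [[(1, 0), (1, 1), (1, 2)], [(-1, 0), (-1, 1), (1, 2)], [(1, 2), (1, 0), (1, 1)], [(-1, 2), (-1,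
  0), (1, 1)], [(1, 2), (-1, 0), (-1, 1)], [(1, 1), (1, 2), (1, 0)], [(-1, 2), (1, 0), (-1, 1)],
  [(-1, 1), (-1, 2), (1, 0)], [(1, 1), (-1, 2), (-1, 0)], [(-1, 1), (1, 2), (-1, 0)], [(1, 0),
  (-1, 1), (-1, 2)], [(-1, 0), (1, 1), (-1, 2)], [(1, 3), (1, 4), (1, 5)], [(-1, 3), (-1, 4), (1,
  5)], [(1, 5), (1, 3), (1, 4)], [(-1, 5), (-1, 3), (1, 4)], [(1, 5), (-1, 3), (-1, 4)], [(1, 4),
  (1, 5), (1, 3)], [(-1, 5), (1, 3), (-1, 4)], [(-1, 4), (-1, 5), (1, 3)], [(1, 4), (-1, 5), (-1,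
  3)], [(-1, 4), (1, 5), (-1, 3)], [(1, 3), (-1, 4), (-1, 5)], [(-1, 3), (1, 4), (-1, 5)], [(1,
  6), (1, 7), (1, 8)], [(-1, 6), (-1, 7), (1, 8)], [(1, 8), (1, 6), (1, 7)], [(-1, 8), (-1, 6),
  (1, 7)], [(1, 8), (-1, 6), (-1, 7)], [(1, 7), (1, 8), (1, 6)], [(-1, 8), (1, 6), (-1, 7)],
  [(-1, 7), (-1, 8), (1, 6)], [(1, 7), (-1, 8), (-1, 6)], [(-1, 7), (1, 8), (-1, 6)], [(1, 6),
  (-1, 7), (-1, 8)], [(-1, 6), (1, 7), (-1, 8)], [(1, 9), (1, 10), (1, 11)], [(-1, 9), (-1, 10),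
  (1, 11)], [(1, 11), (1, 9), (1, 10)], [(-1, 11), (-1, 9), (1, 10)], [(1, 11), (-1, 9), (-1,
  10)], [(1, 10), (1, 11), (1, 9)], [(-1, 11), (1, 9), (-1, 10)], [(-1, 10), (-1, 11), (1, 9)],
  [(1, 10), (-1, 11), (-1, 9)], [(-1, 10), (1, 11), (-1, 9)], [(1, 9), (-1, 10), (-1, 11)], [(-1,
  9), (1, 10), (-1, 11)]]

/-- The coefficients of the planes of the 48 faces: signs and variables. -/
def NS : List (List (ℤ × Fin 24)) :=
  [[(1, 12), (1, 13), (1, 14)], [(-1, 12), (-1, 13), (1, 14)], [(1, 14), (1, 12), (1, 13)], [(-1,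
  14), (-1, 12), (1, 13)], [(1, 14), (-1, 12), (-1, 13)], [(1, 13), (1, 14), (1, 12)], [(-1, 14),
  (1, 12), (-1, 13)], [(-1, 13), (-1, 14), (1, 12)], [(1, 13), (-1, 14), (-1, 12)], [(-1, 13),
  (1, 14), (-1, 12)], [(1, 12), (-1, 13), (-1, 14)], [(-1, 12), (1, 13), (-1, 14)], [(1, 15), (1,
  16), (1, 17)], [(-1, 15), (-1, 16), (1, 17)], [(1, 17), (1, 15), (1, 16)], [(-1, 17), (-1, 15),
  (1, 16)], [(1, 17), (-1, 15), (-1, 16)], [(1, 16), (1, 17), (1, 15)], [(-1, 17), (1, 15), (-1,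
  16)], [(-1, 16), (-1, 17), (1, 15)], [(1, 16), (-1, 17), (-1, 15)], [(-1, 16), (1, 17), (-1,
  15)], [(1, 15), (-1, 16), (-1, 17)], [(-1, 15), (1, 16), (-1, 17)], [(1, 18), (1, 19), (1,
  20)], [(-1, 18), (-1, 19), (1, 20)], [(1, 20), (1, 18), (1, 19)], [(-1, 20), (-1, 18), (1,
  19)], [(1, 20), (-1, 18), (-1, 19)], [(1, 19), (1, 20), (1, 18)], [(-1, 20), (1, 18), (-1,
  19)], [(-1, 19), (-1, 20), (1, 18)], [(1, 19), (-1, 20), (-1, 18)], [(-1, 19), (1, 20), (-1,
  18)], [(1, 18), (-1, 19), (-1, 20)], [(-1, 18), (1, 19), (-1, 20)], [(1, 21), (1, 22), (1,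
  23)], [(-1, 21), (-1, 22), (1, 23)], [(1, 23), (1, 21), (1, 22)], [(-1, 23), (-1, 21), (1,
  22)], [(1, 23), (-1, 21), (-1, 22)], [(1, 22), (1, 23), (1, 21)], [(-1, 23), (1, 21), (-1,
  22)], [(-1, 22), (-1, 23), (1, 21)], [(1, 22), (-1, 23), (-1, 21)], [(-1, 22), (1, 23), (-1,
  21)], [(1, 21), (-1, 22), (-1, 23)], [(-1, 21), (1, 22), (-1, 23)]]

/-- The face and the position across each edge. -/
def NBF : List (List (ℕ × ℕ)) :=
  [[(35, 0), (32, 2), (20, 3), (36, 0), (28, 4)], [(34, 0), (33, 2), (21, 3), (37, 0), (30, 4)],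
  [(27, 0), (35, 2), (23, 3), (38, 0), (33, 4)], [(26, 0), (34, 2), (22, 3), (39, 0), (32, 4)],
  [(30, 0), (25, 2), (13, 3), (40, 0), (31, 4)], [(32, 0), (27, 2), (15, 3), (41, 0), (25, 4)],
  [(28, 0), (24, 2), (12, 3), (42, 0), (29, 4)], [(33, 0), (26, 2), (14, 3), (43, 0), (24, 4)],
  [(29, 0), (30, 2), (18, 3), (44, 0), (35, 4)], [(31, 0), (28, 2), (16, 3), (45, 0), (34, 4)],
  [(25, 0), (29, 2), (17, 3), (46, 0), (26, 4)], [(24, 0), (31, 2), (19, 3), (47, 0), (27, 4)],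
  [(29, 1), (38, 3), (41, 4), (6, 2), (47, 2)], [(31, 1), (39, 3), (43, 4), (4, 2), (46, 2)],
  [(24, 1), (41, 3), (36, 4), (7, 2), (39, 2)], [(25, 1), (43, 3), (37, 4), (5, 2), (38, 2)],
  [(34, 1), (44, 3), (46, 4), (9, 2), (42, 2)], [(26, 1), (36, 3), (38, 4), (10, 2), (44, 2)],
  [(35, 1), (45, 3), (47, 4), (8, 2), (40, 2)], [(27, 1), (37, 3), (39, 4), (11, 2), (45, 2)],
  [(28, 1), (46, 3), (40, 4), (0, 2), (41, 2)], [(30, 1), (47, 3), (42, 4), (1, 2), (43, 2)],
  [(32, 1), (40, 3), (44, 4), (3, 2), (37, 2)], [(33, 1), (42, 3), (45, 4), (2, 2), (36, 2)],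
  [(11, 0), (14, 0), (6, 1), (36, 1), (7, 4)], [(10, 0), (15, 0), (4, 1), (37, 1), (5, 4)], [(3,
  0), (17, 0), (7, 1), (38, 1), (10, 4)], [(2, 0), (19, 0), (5, 1), (39, 1), (11, 4)], [(6, 0),
  (20, 0), (9, 1), (40, 1), (0, 4)], [(8, 0), (12, 0), (10, 1), (41, 1), (6, 4)], [(4, 0), (21,
  0), (8, 1), (42, 1), (1, 4)], [(9, 0), (13, 0), (11, 1), (43, 1), (4, 4)], [(5, 0), (22, 0),
  (0, 1), (44, 1), (3, 4)], [(7, 0), (23, 0), (1, 1), (45, 1), (2, 4)], [(1, 0), (16, 0), (3, 1),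
  (46, 1), (9, 4)], [(0, 0), (18, 0), (2, 1), (47, 1), (8, 4)], [(0, 3), (24, 3), (23, 4), (17,
  1), (14, 2)], [(1, 3), (25, 3), (22, 4), (19, 1), (15, 2)], [(2, 3), (26, 3), (15, 4), (12, 1),
  (17, 2)], [(3, 3), (27, 3), (14, 4), (13, 1), (19, 2)], [(4, 3), (28, 3), (18, 4), (22, 1),
  (20, 2)], [(5, 3), (29, 3), (20, 4), (14, 1), (12, 2)], [(6, 3), (30, 3), (16, 4), (23, 1),
  (21, 2)], [(7, 3), (31, 3), (21, 4), (15, 1), (13, 2)], [(8, 3), (32, 3), (17, 4), (16, 1),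
  (22, 2)], [(9, 3), (33, 3), (19, 4), (18, 1), (23, 2)], [(10, 3), (34, 3), (13, 4), (20, 1),
  (16, 2)], [(11, 3), (35, 3), (12, 4), (21, 1), (18, 2)]]

/-- The neighbours of the vertices. -/
def NBV : List (List ℕ) :=
  [[16, 28, 32, 35, 46], [18, 30, 33, 34, 47], [21, 27, 33, 35, 42], [20, 26, 32, 34, 40], [19,
  25, 30, 31, 39], [13, 25, 27, 32, 43], [17, 24, 28, 29, 38], [12, 24, 26, 33, 41], [23, 29, 30,
  35, 45], [22, 28, 31, 34, 44], [14, 25, 26, 29, 36], [15, 24, 27, 31, 37], [7, 32, 37, 38, 41],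
  [5, 33, 36, 39, 43], [10, 35, 36, 40, 41], [11, 34, 37, 42, 43], [0, 25, 38, 44, 46], [6, 27,
  36, 38, 45], [1, 24, 39, 45, 47], [4, 26, 37, 39, 44], [3, 30, 40, 43, 46], [2, 28, 41, 42,
  47], [9, 29, 40, 44, 47], [8, 31, 42, 45, 46], [6, 7, 11, 18, 41], [4, 5, 10, 16, 43], [3, 7,
  10, 19, 36], [2, 5, 11, 17, 37], [0, 6, 9, 21, 46], [6, 8, 10, 22, 38], [1, 4, 8, 20, 47], [4,
  9, 11, 23, 39], [0, 3, 5, 12, 40], [1, 2, 7, 13, 42], [1, 3, 9, 15, 44], [0, 2, 8, 14, 45],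
  [10, 13, 14, 17, 26], [11, 12, 15, 19, 27], [6, 12, 16, 17, 29], [4, 13, 18, 19, 31], [3, 14,
  20, 22, 32], [7, 12, 14, 21, 24], [2, 15, 21, 23, 33], [5, 13, 15, 20, 25], [9, 16, 19, 22,
  34], [8, 17, 18, 23, 35], [0, 16, 20, 23, 28], [1, 18, 21, 22, 30]]

/-- The links of the vertices in the triangulation. -/
def LK : List (List ℕ) :=
  [[2, 21, 28, 16, 5, 32, 46, 35], [3, 20, 30, 18, 7, 33, 47, 34], [0, 21, 33, 13, 5, 27, 42,
  35], [1, 20, 32, 12, 7, 26, 40, 34], [8, 23, 31, 19, 10, 25, 39, 30], [0, 16, 25, 13, 2, 27,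
  43, 32], [9, 22, 29, 17, 11, 24, 38, 28], [1, 18, 24, 12, 3, 26, 41, 33], [4, 23, 35, 14, 10,
  29, 45, 30], [6, 22, 34, 15, 11, 31, 44, 28], [4, 19, 26, 14, 8, 29, 36, 25], [6, 17, 27, 15,
  9, 31, 37, 24], [3, 32, 41, 38, 27, 37, 24, 7], [2, 33, 43, 39, 26, 36, 25, 5], [8, 35, 36, 41,
  32, 40, 26, 10], [9, 34, 37, 43, 33, 42, 27, 11], [0, 28, 38, 29, 44, 46, 25, 5], [6, 29, 45,
  35, 36, 38, 27, 11], [1, 30, 39, 31, 45, 47, 24, 7], [4, 31, 44, 34, 37, 39, 26, 10], [1, 30,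
  40, 46, 25, 43, 32, 3], [0, 28, 42, 47, 24, 41, 33, 2], [6, 29, 44, 40, 30, 47, 34, 9], [4, 31,
  45, 42, 28, 46, 35, 8], [6, 11, 37, 12, 7, 18, 47, 21, 41, 38], [4, 10, 36, 13, 5, 16, 46, 20,
  43, 39], [3, 40, 14, 10, 19, 39, 13, 36, 41, 7], [2, 42, 15, 11, 17, 38, 12, 37, 43, 5], [0,
  16, 38, 6, 9, 44, 46, 23, 42, 21], [6, 17, 45, 8, 10, 36, 38, 16, 44, 22], [1, 18, 39, 4, 8,
  45, 47, 22, 40, 20], [4, 19, 44, 9, 11, 37, 39, 18, 45, 23], [0, 5, 43, 20, 3, 12, 41, 14, 40,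
  46], [1, 7, 41, 21, 2, 13, 43, 15, 42, 47], [1, 47, 22, 9, 15, 37, 19, 44, 40, 3], [0, 46, 23,
  8, 14, 36, 17, 45, 42, 2], [10, 25, 13, 26, 41, 14, 35, 17, 38, 29], [11, 24, 12, 27, 43, 15,
  34, 19, 39, 31], [6, 28, 16, 29, 36, 17, 27, 12, 41, 24], [4, 30, 18, 31, 37, 19, 26, 13, 43,
  25], [3, 26, 14, 32, 46, 20, 30, 22, 44, 34], [7, 33, 21, 24, 38, 12, 32, 14, 36, 26], [2, 27,
  15, 33, 47, 21, 28, 23, 45, 35], [5, 32, 20, 25, 39, 13, 33, 15, 37, 27], [9, 31, 19, 34, 40,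
  22, 29, 16, 46, 28], [8, 29, 17, 35, 42, 23, 31, 18, 47, 30], [0, 35, 23, 28, 44, 16, 25, 20,
  40, 32], [1, 34, 22, 30, 45, 18, 24, 21, 42, 33]]

/-- A spanning tree of the faces. -/
def PAR : List ℕ :=
  [0, 33, 35, 32, 40, 32, 28, 24, 35, 28, 46, 47, 47, 46, 36, 5, 44, 36, 35, 45, 0, 47, 32, 36,
  36, 5, 3, 2, 0, 8, 8, 9, 0, 2, 3, 0, 0, 22, 2, 3, 20, 20, 23, 21, 32, 18, 20, 35]

/-- Small integer vectors close to the normal directions. -/
def UL : List (ℤ × ℤ × ℤ) :=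
  [(1, -1, 0), (-1, 1, 0), (0, 1, -1), (0, -1, -1), (0, -1, 1), (-1, 0, 1), (0, 1, 1), (1, 0, 1),
  (-1, 0, -1), (1, 0, -1), (1, 1, 0), (-1, -1, 0), (-1, -1, -1), (1, 1, -1), (-1, -1, -1), (1, 1,
  -1), (-1, 1, 1), (-1, -1, -1), (1, -1, 1), (1, 1, -1), (-1, 1, 1), (1, -1, 1), (-1, 1, 1), (1,
  -1, 1), (1, 0, 1), (-1, 0, 1), (1, 1, 0), (-1, -1, 0), (1, -1, 0), (0, 1, 1), (-1, 1, 0), (0,
  -1, 1), (0, -1, -1), (0, 1, -1), (1, 0, -1), (-1, 0, -1), (1, 0, 1), (-1, 0, 1), (1, 1, 0),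
  (-1, -1, 0), (1, -1, 0), (0, 1, 1), (-1, 1, 0), (0, -1, 1), (0, -1, -1), (0, 1, -1), (1, 0,
  -1), (-1, 0, -1)]

/-- Positions of vertices of the neighbouring face outside the plane of the face. -/
def NC : List (List ℕ) :=
  [[2, 1, 2, 4, 2], [2, 1, 2, 4, 2], [2, 1, 2, 4, 2], [2, 1, 2, 4, 2], [2, 1, 2, 4, 2], [2, 1, 2,
  4, 2], [2, 1, 2, 4, 2], [2, 1, 2, 4, 2], [2, 1, 2, 4, 2], [2, 1, 2, 4, 2], [2, 1, 2, 4, 2], [2,
  1, 2, 4, 2], [3, 1, 1, 1, 0], [3, 1, 1, 1, 0], [3, 1, 1, 1, 0], [3, 1, 1, 1, 0], [3, 1, 1, 1,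
  0], [3, 1, 1, 1, 0], [3, 1, 1, 1, 0], [3, 1, 1, 1, 0], [3, 1, 1, 1, 0], [3, 1, 1, 1, 0], [3, 1,
  1, 1, 0], [3, 1, 1, 1, 0], [3, 2, 3, 0, 3], [3, 2, 3, 0, 3], [3, 2, 3, 0, 3], [3, 2, 3, 0, 3],
  [3, 2, 3, 0, 3], [3, 2, 3, 0, 3], [3, 2, 3, 0, 3], [3, 2, 3, 0, 3], [3, 2, 3, 0, 3], [3, 2, 3,
  0, 3], [3, 2, 3, 0, 3], [3, 2, 3, 0, 3], [2, 2, 1, 3, 1], [2, 2, 1, 3, 1], [2, 2, 1, 3, 1], [2,
  2, 1, 3, 1], [2, 2, 1, 3, 1], [2, 2, 1, 3, 1], [2, 2, 1, 3, 1], [2, 2, 1, 3, 1], [2, 2, 1, 3,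
  1], [2, 2, 1, 3, 1], [2, 2, 1, 3, 1], [2, 2, 1, 3, 1]]

/-- The triangles at each vertex, in the order of the link: face and number in the fan. -/
def LT : List (List (Fin 48 × Fin 3)) :=
  [[(35, 1), (35, 0), (0, 0), (32, 1), (32, 2), (44, 0), (8, 2), (35, 2)], [(34, 1), (34, 0), (1,
  0), (33, 1), (33, 2), (45, 0), (9, 2), (34, 2)], [(35, 1), (2, 0), (27, 0), (27, 1), (27, 2),
  (11, 2), (47, 0), (35, 2)], [(34, 1), (3, 0), (26, 0), (26, 1), (26, 2), (10, 2), (46, 0), (34,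
  2)], [(30, 1), (30, 0), (4, 0), (25, 1), (25, 2), (37, 0), (1, 2), (30, 2)], [(32, 1), (32, 0),
  (5, 0), (27, 1), (27, 2), (39, 0), (3, 2), (32, 2)], [(28, 1), (28, 0), (6, 0), (24, 1), (24,
  2), (36, 0), (0, 2), (28, 2)], [(33, 1), (33, 0), (7, 0), (26, 1), (26, 2), (38, 0), (2, 2),
  (33, 2)], [(30, 1), (8, 0), (29, 0), (29, 1), (29, 2), (6, 2), (42, 0), (30, 2)], [(28, 1), (9,
  0), (31, 0), (31, 1), (31, 2), (4, 2), (40, 0), (28, 2)], [(25, 1), (25, 0), (10, 0), (29, 1),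
  (29, 2), (41, 0), (5, 2), (25, 2)], [(24, 1), (24, 0), (11, 0), (31, 1), (31, 2), (43, 0), (7,
  2), (24, 2)], [(26, 0), (17, 0), (36, 2), (14, 1), (14, 2), (7, 1), (7, 0), (26, 1)], [(27, 0),
  (19, 0), (37, 2), (15, 1), (15, 2), (5, 1), (5, 0), (27, 1)], [(29, 0), (12, 0), (38, 2), (17,
  1), (17, 2), (10, 1), (10, 0), (29, 1)], [(31, 0), (13, 0), (39, 2), (19, 1), (19, 2), (11, 1),
  (11, 0), (31, 1)], [(0, 0), (0, 1), (20, 2), (20, 1), (40, 2), (22, 0), (32, 0), (32, 1)], [(6,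
  0), (6, 1), (12, 2), (12, 1), (41, 2), (14, 0), (24, 0), (24, 1)], [(1, 0), (1, 1), (21, 2),
  (21, 1), (42, 2), (23, 0), (33, 0), (33, 1)], [(4, 0), (4, 1), (13, 2), (13, 1), (43, 2), (15,
  0), (25, 0), (25, 1)], [(34, 0), (16, 0), (44, 2), (22, 1), (22, 2), (3, 1), (3, 0), (34, 1)],
  [(35, 0), (18, 0), (45, 2), (23, 1), (23, 2), (2, 1), (2, 0), (35, 1)], [(28, 0), (20, 0), (46,
  2), (16, 1), (16, 2), (9, 1), (9, 0), (28, 1)], [(30, 0), (21, 0), (47, 2), (18, 1), (18, 2),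
  (8, 1), (8, 0), (30, 1)], [(24, 2), (7, 2), (7, 1), (7, 0), (33, 0), (23, 0), (23, 1), (23, 2),
  (36, 1), (36, 0)], [(25, 2), (5, 2), (5, 1), (5, 0), (32, 0), (22, 0), (22, 1), (22, 2), (37,
  1), (37, 0)], [(10, 2), (10, 1), (10, 0), (25, 0), (15, 0), (15, 1), (15, 2), (38, 1), (38, 0),
  (26, 2)], [(11, 2), (11, 1), (11, 0), (24, 0), (14, 0), (14, 1), (14, 2), (39, 1), (39, 0),
  (27, 2)], [(0, 0), (0, 1), (0, 2), (28, 2), (40, 0), (40, 1), (18, 2), (18, 1), (18, 0), (35,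
  0)], [(6, 0), (6, 1), (6, 2), (29, 2), (41, 0), (41, 1), (20, 2), (20, 1), (20, 0), (28, 0)],
  [(1, 0), (1, 1), (1, 2), (30, 2), (42, 0), (42, 1), (16, 2), (16, 1), (16, 0), (34, 0)], [(4,
  0), (4, 1), (4, 2), (31, 2), (43, 0), (43, 1), (21, 2), (21, 1), (21, 0), (30, 0)], [(32, 2),
  (3, 2), (3, 1), (3, 0), (26, 0), (17, 0), (17, 1), (17, 2), (44, 1), (44, 0)], [(33, 2), (2,
  2), (2, 1), (2, 0), (27, 0), (19, 0), (19, 1), (19, 2), (45, 1), (45, 0)], [(9, 2), (9, 1), (9,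
  0), (31, 0), (13, 0), (13, 1), (13, 2), (46, 1), (46, 0), (34, 2)], [(8, 2), (8, 1), (8, 0),
  (29, 0), (12, 0), (12, 1), (12, 2), (47, 1), (47, 0), (35, 2)], [(5, 2), (5, 1), (15, 2), (38,
  1), (38, 2), (12, 0), (12, 1), (41, 2), (41, 1), (41, 0)], [(7, 2), (7, 1), (14, 2), (39, 1),
  (39, 2), (13, 0), (13, 1), (43, 2), (43, 1), (43, 0)], [(0, 2), (0, 1), (20, 2), (41, 1), (41,
  2), (14, 0), (14, 1), (36, 2), (36, 1), (36, 0)], [(1, 2), (1, 1), (21, 2), (43, 1), (43, 2),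
  (15, 0), (15, 1), (37, 2), (37, 1), (37, 0)], [(10, 2), (10, 1), (17, 2), (44, 1), (44, 2),
  (16, 0), (16, 1), (46, 2), (46, 1), (46, 0)], [(2, 2), (2, 1), (23, 2), (36, 1), (36, 2), (17,
  0), (17, 1), (38, 2), (38, 1), (38, 0)], [(11, 2), (11, 1), (19, 2), (45, 1), (45, 2), (18, 0),
  (18, 1), (47, 2), (47, 1), (47, 0)], [(3, 2), (3, 1), (22, 2), (37, 1), (37, 2), (19, 0), (19,
  1), (39, 2), (39, 1), (39, 0)], [(4, 2), (4, 1), (13, 2), (46, 1), (46, 2), (20, 0), (20, 1),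
  (40, 2), (40, 1), (40, 0)], [(6, 2), (6, 1), (12, 2), (47, 1), (47, 2), (21, 0), (21, 1), (42,
  2), (42, 1), (42, 0)], [(8, 2), (8, 1), (18, 2), (40, 1), (40, 2), (22, 0), (22, 1), (44, 2),
  (44, 1), (44, 0)], [(9, 2), (9, 1), (16, 2), (42, 1), (42, 2), (23, 0), (23, 1), (45, 2), (45,
  1), (45, 0)]]

/-- For each vertex and neighbour, a face and position of the edge joining them. -/
def EP : List (List (Fin 48 × Fin 5)) :=
  [[(0, 1), (0, 0), (32, 3), (8, 4), (8, 3)], [(1, 1), (1, 0), (33, 3), (9, 4), (9, 3)], [(2, 1),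
  (11, 4), (2, 0), (35, 3), (11, 3)], [(3, 1), (10, 4), (3, 0), (34, 3), (10, 3)], [(4, 1), (25,
  3), (1, 4), (4, 0), (1, 3)], [(5, 1), (5, 0), (27, 3), (3, 4), (3, 3)], [(6, 1), (24, 3), (0,
  4), (6, 0), (0, 3)], [(7, 1), (7, 0), (26, 3), (2, 4), (2, 3)], [(8, 1), (6, 4), (30, 3), (8,
  0), (6, 3)], [(9, 1), (28, 3), (4, 4), (9, 0), (4, 3)], [(10, 1), (5, 4), (10, 0), (29, 3), (5,
  3)], [(11, 1), (7, 4), (11, 0), (31, 3), (7, 3)], [(7, 1), (17, 0), (7, 2), (14, 2), (17, 1)],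
  [(5, 1), (19, 0), (5, 2), (15, 2), (19, 1)], [(10, 1), (12, 0), (12, 1), (10, 2), (17, 2)],
  [(11, 1), (13, 0), (13, 1), (11, 2), (19, 2)], [(0, 1), (22, 0), (0, 2), (20, 2), (22, 1)],
  [(6, 1), (14, 0), (12, 2), (14, 1), (6, 2)], [(1, 1), (23, 0), (1, 2), (21, 2), (23, 1)], [(4,
  1), (15, 0), (13, 2), (15, 1), (4, 2)], [(3, 1), (16, 0), (16, 1), (3, 2), (22, 2)], [(2, 1),
  (18, 0), (2, 2), (18, 1), (23, 2)], [(9, 1), (20, 0), (16, 2), (20, 1), (9, 2)], [(8, 1), (21,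
  0), (18, 2), (21, 1), (8, 2)], [(24, 3), (7, 0), (7, 4), (23, 0), (23, 4)], [(25, 3), (5, 0),
  (5, 4), (22, 0), (22, 4)], [(10, 4), (26, 3), (10, 0), (15, 0), (15, 4)], [(11, 4), (27, 3),
  (11, 0), (14, 0), (14, 4)], [(0, 0), (0, 4), (28, 3), (18, 0), (18, 4)], [(6, 0), (6, 4), (29,
  3), (20, 0), (20, 4)], [(1, 0), (1, 4), (30, 3), (16, 0), (16, 4)], [(4, 0), (4, 4), (31, 3),
  (21, 0), (21, 4)], [(32, 3), (3, 0), (3, 4), (17, 0), (17, 4)], [(33, 3), (2, 0), (2, 4), (19,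
  0), (19, 4)], [(9, 4), (34, 3), (9, 0), (13, 0), (13, 4)], [(8, 4), (35, 3), (8, 0), (12, 0),
  (12, 4)], [(5, 3), (5, 2), (12, 1), (12, 2), (15, 4)], [(7, 3), (7, 2), (13, 1), (13, 2), (14,
  4)], [(0, 3), (14, 2), (0, 2), (14, 1), (20, 4)], [(1, 3), (15, 2), (1, 2), (15, 1), (21, 4)],
  [(10, 3), (10, 2), (16, 1), (16, 2), (17, 4)], [(2, 3), (17, 1), (17, 2), (2, 2), (23, 4)],
  [(11, 3), (11, 2), (18, 1), (18, 2), (19, 4)], [(3, 3), (19, 1), (19, 2), (3, 2), (22, 4)],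
  [(4, 3), (20, 2), (4, 2), (20, 1), (13, 4)], [(6, 3), (6, 2), (21, 2), (21, 1), (12, 4)], [(8,
  3), (22, 1), (22, 2), (8, 2), (18, 4)], [(9, 3), (23, 1), (23, 2), (9, 2), (16, 4)]]

end Pool.Agent.MPf7203b
end

section

/-!
Soundness of the fast check.
-/

namespace Pool.Agent.MPf7203b

/-- The list of the three vertices. -/
def tlist (s : NP × NP × NP) : List PT := [toPT s.1, toPT s.2.1, toPT s.2.2]

theorem sepT_of_lt {x : ℕ → E3} {s t : List PT} {a b c : ℝ}
    (h : ∀ p ∈ s, ∀ q ∈ t, (a * x p.1 0 + b * x p.1 1 + c * x p.1 2 <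
      a * x q.1 0 + b * x q.1 1 + c * x q.1 2) ∨ p.1 = q.1) : SepT x s t := by
  by_cases hc : ∃ p ∈ s, ∃ q ∈ t, p.1 = q.1
  · obtain ⟨p0, hp0, q0, hq0, e⟩ := hc
    refine ⟨aff a b c (a * x p0.1 0 + b * x p0.1 1 + c * x p0.1 2), ?_, ?_⟩
    · intro p hp
      rw [aff_apply]
      rcases h p hp q0 hq0 with h1 | h1
      · rw [← e] at h1
        exact ⟨by linarith, fun h0 => absurd h0 (by linarith)⟩
      · rw [h1, ← e]
        exact ⟨by linarith, fun _ => ⟨q0, hq0, e.symm⟩⟩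
    · intro q hq
      rw [aff_apply]
      rcases h p0 hp0 q hq with h1 | h1
      · exact ⟨by linarith, fun h0 => absurd h0 (by linarith)⟩
      · rw [← h1]
        exact ⟨by linarith, fun _ => ⟨p0, hp0, rfl⟩⟩
  · push Not at hc
    classical
    obtain ⟨d, hd1, hd2⟩ := Order.exists_between_finsets
      ((s.map fun p => a * x p.1 0 + b * x p.1 1 + c * x p.1 2).toFinset)
      ((t.map fun p => a * x p.1 0 + b * x p.1 1 + c * x p.1 2).toFinset)
      (by
        intro u hu v hv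
        simp only [List.mem_toFinset, List.mem_map] at hu hv
        obtain ⟨p, hp, rfl⟩ := hu
        obtain ⟨q, hq, rfl⟩ := hv
        exact (h p hp q hq).resolve_right (hc p hp q hq))
    refine ⟨aff a b c d, ?_, ?_⟩
    · intro p hp
      have := hd1 _ (List.mem_toFinset.mpr (List.mem_map.mpr ⟨p, hp, rfl⟩))
      rw [aff_apply]
      exact ⟨by linarith, fun h0 => absurd h0 (by linarith)⟩
    · intro q hq
      have := hd2 _ (List.mem_toFinset.mpr (List.mem_map.mpr ⟨q, hq, rfl⟩))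
      rw [aff_apply]
      exact ⟨by linarith, fun h0 => absurd h0 (by linarith)⟩

theorem vv_eq (a b c : ℕ) (p : NP) (h : okNP p) :
    (vv a b c p : ℤ) = dotI ((a : ℤ) - 16, (b : ℤ) - 16, (c : ℤ) - 16) (toPT p) +
      134217728 * ((a : ℤ) + b + c - 48) + 17179869184 := by
  obtain ⟨i, px, py, pz, pw⟩ := p
  simp only [okNP] at h
  have h' : (pw : ℤ) = 17179869184 - 16 * ((px : ℤ) + py + pz) := by
    have : ((pw + 16 * (px + py + pz) : ℕ) : ℤ) = 17179869184 := by rw [h]; rfl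
    push_cast at this
    linarith
  simp only [vv, Nat.add_eq, Nat.mul_eq, dotI, toPT]
  push_cast
  rw [h']
  ring

theorem pr_imp {x : ℕ → E3} {p q : NP} (hp : Near (x p.1) (toPT p)) (hq : Near (x q.1) (toPT q))
    (op : okNP p) (oq : okNP q) {a b c : ℕ} (ha : a < 32) (hb : b < 32) (hc : c < 32)
    (h : pr p.1 q.1 (vv a b c p) (vv a b c q) = true) :
    ((((a : ℤ) - 16 : ℤ) : ℝ) * x p.1 0 + (((b : ℤ) - 16 : ℤ) : ℝ) * x p.1 1 +
      (((c : ℤ) - 16 : ℤ) : ℝ) * x p.1 2 < (((a : ℤ) - 16 : ℤ) : ℝ) * x q.1 0 +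
      (((b : ℤ) - 16 : ℤ) : ℝ) * x q.1 1 + (((c : ℤ) - 16 : ℤ) : ℝ) * x q.1 2) ∨ p.1 = q.1 := by
  unfold pr at h
  rcases Bool.or_eq_true _ _ ▸ h with h1 | h1
  · left
    have h2 : vv a b c p + 9600 < vv a b c q := by
      have := Nat.le_of_ble_eq_true h1
      simpa [Nat.add_eq] using this
    have h3 : ((vv a b c p : ℕ) : ℤ) + 9600 < (vv a b c q : ℕ) := by exact_mod_cast h2
    rw [vv_eq a b c p op, vv_eq a b c q oq] at h3
    have hN : nrmI ((a : ℤ) - 16, (b : ℤ) - 16, (c : ℤ) - 16) ≤ 48 := by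
      simp only [nrmI]
      have e1 : |(a : ℤ) - 16| ≤ 16 := by rw [abs_le]; constructor <;> omega
      have e2 : |(b : ℤ) - 16| ≤ 16 := by rw [abs_le]; constructor <;> omega
      have e3 : |(c : ℤ) - 16| ≤ 16 := by rw [abs_le]; constructor <;> omega
      linarith
    exact dot_lt (w := ((a : ℤ) - 16, (b : ℤ) - 16, (c : ℤ) - 16)) hp hq (by linarith)
  · right
    exact Nat.eq_of_beq_eq_true h1

theorem sepT_of_fast3 {x : ℕ → E3} {s t : NP × NP × NP}
    (hs1 : Near (x s.1.1) (toPT s.1)) (hs2 : Near (x s.2.1.1) (toPT s.2.1))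
    (hs3 : Near (x s.2.2.1) (toPT s.2.2))
    (ht1 : Near (x t.1.1) (toPT t.1)) (ht2 : Near (x t.2.1.1) (toPT t.2.1))
    (ht3 : Near (x t.2.2.1) (toPT t.2.2))
    (os1 : okNP s.1) (os2 : okNP s.2.1) (os3 : okNP s.2.2)
    (ot1 : okNP t.1) (ot2 : okNP t.2.1) (ot3 : okNP t.2.2)
    {a b c : ℕ} (ha : a < 32) (hb : b < 32) (hc : c < 32)
    (h : fast3 s.1 s.2.1 s.2.2 t.1 t.2.1 t.2.2 a b c = true) :
    SepT x (tlist s) (tlist t) := by
  simp only [fast3, pr3, Bool.and_eq_true] at h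
  obtain ⟨⟨h11, h12, h13⟩, ⟨h21, h22, h23⟩, ⟨h31, h32, h33⟩⟩ := h
  refine sepT_of_lt (a := (((a : ℤ) - 16 : ℤ) : ℝ)) (b := (((b : ℤ) - 16 : ℤ) : ℝ))
    (c := (((c : ℤ) - 16 : ℤ) : ℝ)) ?_
  intro p hp q hq
  simp only [tlist, List.mem_cons, List.not_mem_nil, or_false] at hp hq
  rcases hp with rfl | rfl | rfl <;> rcases hq with rfl | rfl | rfl
  · exact pr_imp hs1 ht1 os1 ot1 ha hb hc h11
  · exact pr_imp hs1 ht2 os1 ot2 ha hb hc h12
  · exact pr_imp hs1 ht3 os1 ot3 ha hb hc h13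
  · exact pr_imp hs2 ht1 os2 ot1 ha hb hc h21
  · exact pr_imp hs2 ht2 os2 ot2 ha hb hc h22
  · exact pr_imp hs2 ht3 os2 ot3 ha hb hc h23
  · exact pr_imp hs3 ht1 os3 ot1 ha hb hc h31
  · exact pr_imp hs3 ht2 os3 ot2 ha hb hc h32
  · exact pr_imp hs3 ht3 os3 ot3 ha hb hc h33

/-- All three vertices of the triangle are near and correctly encoded. -/
def Good (x : ℕ → E3) (s : NP × NP × NP) : Prop :=
  (Near (x s.1.1) (toPT s.1) ∧ Near (x s.2.1.1) (toPT s.2.1) ∧ Near (x s.2.2.1) (toPT s.2.2)) ∧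
  okNP s.1 ∧ okNP s.2.1 ∧ okNP s.2.2

theorem sepT_of_chk2 {x : ℕ → E3} {s t : NP × NP × NP} (hs : Good x s) (ht : Good x t) {n : ℕ}
    (h : chk2 s.1 s.2.1 s.2.2 t.1 t.2.1 t.2.2 n = true) : SepT x (tlist s) (tlist t) := by
  obtain ⟨⟨hs1, hs2, hs3⟩, os1, os2, os3⟩ := hs
  obtain ⟨⟨ht1, ht2, ht3⟩, ot1, ot2, ot3⟩ := ht
  unfold chk2 at h
  rcases Bool.or_eq_true _ _ ▸ h with h1 | h1
  · exact sepT_of_fast3 hs1 hs2 hs3 ht1 ht2 ht3 os1 os2 os3 ot1 ot2 ot3
      (Nat.mod_lt _ (by norm_num)) (Nat.mod_lt _ (by norm_num)) (Nat.mod_lt _ (by norm_num)) h1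
  · refine sepT_of_chk ?_ ?_ h1
    · intro p hp
      simp only [tlist, List.mem_cons, List.not_mem_nil, or_false] at hp
      rcases hp with rfl | rfl | rfl
      · exact hs1
      · exact hs2
      · exact hs3
    · intro p hp
      simp only [tlist, List.mem_cons, List.not_mem_nil, or_false] at hp
      rcases hp with rfl | rfl | rfl
      · exact ht1
      · exact ht2
      · exact ht3

theorem sepT_of_chkRow {x : ℕ → E3} {s : NP × NP × NP} (hs : Good x s)
    (l : List (NP × NP × NP)) (hl : ∀ t ∈ l, Good x t) (n : ℕ)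
    (h : chkRow s.1 s.2.1 s.2.2 l n = true) : ∀ t ∈ l, SepT x (tlist s) (tlist t) := by
  induction l generalizing n with
  | nil => simp
  | cons t l ih =>
    rw [chkRow, Bool.and_eq_true] at h
    intro u hu
    rcases List.mem_cons.mp hu with rfl | hu
    · exact sepT_of_chk2 hs (hl _ (by simp)) h.1
    · exact ih (fun v hv => hl v (by simp [hv])) _ h.2 u hu

theorem pairwise_of_chkAll {x : ℕ → E3} (l : List (NP × NP × NP)) (hl : ∀ t ∈ l, Good x t)
    (cs : List ℕ) (h : chkAll l cs = true) :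
    l.Pairwise fun s t => SepT x (tlist s) (tlist t) := by
  induction l generalizing cs with
  | nil => simp
  | cons s l ih =>
    cases cs with
    | nil => simp [chkAll] at h
    | cons c cs =>
      rw [chkAll, Bool.and_eq_true] at h
      rw [List.pairwise_cons]
      exact ⟨sepT_of_chkRow (hl _ (by simp)) l (fun v hv => hl v (by simp [hv])) c h.1,
        ih (fun v hv => hl v (by simp [hv])) cs h.2⟩

theorem SepT.symm {x : ℕ → E3} {s t : List PT} (h : SepT x s t) : SepT x t s := by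
  obtain ⟨l, h1, h2⟩ := h
  refine ⟨-l, ?_, ?_⟩
  · intro p hp
    obtain ⟨h3, h4⟩ := h2 p hp
    refine ⟨by simpa using h3, fun h5 => h4 (by simpa using h5)⟩
  · intro p hp
    obtain ⟨h3, h4⟩ := h1 p hp
    refine ⟨by simpa using h3, fun h5 => h4 (by simpa using h5)⟩

end Pool.Agent.MPf7203b
end
end
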